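import Pool.Agent.Lib.MP_e426f4_ag.G.Alg

/-! Module P-HZ: Hensel's lemma for systems. -/

namespace CIPHP

open Finset GenHP

/-- determinants of congruent matrices are congruent -/
theorem det_congr_mod {m : Type*} [Fintype m] [DecidableEq m] (N : ℤ) (M M' : Matrix m m ℤ)
    (h : ∀ i j, N ∣ M i j - M' i j) : N ∣ M.det - M'.det := by
  set f : ℤ →+* ℤ ⧸ Ideal.span {N} := Ideal.Quotient.mk (Ideal.span {N}) with hf
  have h1 : f.mapMatrix M = f.mapMatrix M' := by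
    ext i j
    rw [RingHom.mapMatrix_apply, RingHom.mapMatrix_apply, Matrix.map_apply, Matrix.map_apply, hf,
      Ideal.Quotient.eq, Ideal.mem_span_singleton]
    exact h i j
  have h2 : f M.det = f M'.det := by
    rw [RingHom.map_det, RingHom.map_det, h1]
  rw [hf, Ideal.Quotient.eq, Ideal.mem_span_singleton] at h2
  exact h2

section
variable {V : Type*} [Fintype V] [DecidableEq V] {r : ℕ} {I : Fin r → Type*}
  [∀ j, Fintype (I j)]

/-- one Newton step -/
private theorem hs_step (e : ∀ j, I j → V → ℕ) (A : ∀ j, I j → ℤ) (p c m : ℕ) (hp : p.Prime)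
    (hm : 2 * c + 1 ≤ m) (z : V → ℤ) (J : Fin r → V)
    (hF : ∀ j, (p : ℤ) ^ m ∣ Fg (e j) (A j) z)
    (hD : (p : ℤ) ^ c ∣ (Matrix.of fun j l => Dg (e j) (A j) z (J l)).det)
    (hD' : ¬ (p : ℤ) ^ (c + 1) ∣ (Matrix.of fun j l => Dg (e j) (A j) z (J l)).det) :
    ∃ t : V → ℤ, (∀ v, (∀ l, J l ≠ v) → t v = 0) ∧ (∀ v, (p : ℤ) ^ (m - c) ∣ t v) ∧
      ∀ j, (p : ℤ) ^ (m + 1) ∣ Fg (e j) (A j) (fun v => z v + t v) := by
  have hpp : Prime (p : ℤ) := Nat.prime_iff_prime_int.mp hp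
  set M : Matrix (Fin r) (Fin r) ℤ := Matrix.of fun j l => Dg (e j) (A j) z (J l) with hM
  have hJ : Function.Injective J := by
    intro a b hab
    by_contra hne
    apply hD'
    have : M.det = 0 := Matrix.det_zero_of_column_eq hne fun i => by
      rw [hM]
      simp only [Matrix.of_apply, hab]
    rw [this]
    exact dvd_zero _
  obtain ⟨u0, hu0⟩ := hD
  have hu0p : ¬ (p : ℤ) ∣ u0 := by
    intro h
    apply hD'
    rw [hu0, pow_succ]
    exact mul_dvd_mul_left _ h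
  obtain ⟨u', q, huq⟩ := ((Prime.coprime_iff_not_dvd hpp).mpr hu0p).symm
  choose f hf using hF
  set s : Fin r → ℤ := fun l => -u' * ∑ j, M.adjugate l j * f j with hs
  have hMs : ∀ j, ∑ l, M j l * s l = -u' * ((p : ℤ) ^ c * u0) * f j := by
    intro j
    have h1 : ∑ l, M j l * s l = -u' * (M.mulVec (M.adjugate.mulVec f)) j := by
      simp only [Matrix.mulVec, dotProduct, hs, Finset.mul_sum]
      refine Finset.sum_congr rfl fun l _ => ?_
      refine Finset.sum_congr rfl fun i _ => ?_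
      ring
    rw [h1, Matrix.mulVec_mulVec, Matrix.mul_adjugate, Matrix.smul_mulVec, Matrix.one_mulVec,
      Pi.smul_apply, smul_eq_mul, hu0]
    ring
  have hmc : m - c + c = m := by omega
  refine ⟨fun v => (p : ℤ) ^ (m - c) * Function.extend J s 0 v, ?_, fun v => dvd_mul_right _ _, ?_⟩
  · intro v hv
    have : ¬ ∃ l, J l = v := fun ⟨l, hl⟩ => hv l hl
    show (p : ℤ) ^ (m - c) * Function.extend J s 0 v = 0
    rw [Function.extend_apply' _ _ _ this]
    simp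
  · intro j
    obtain ⟨R, hR⟩ := Fg_add_smul (e j) (A j) z (Function.extend J s 0) ((p : ℤ) ^ (m - c))
    have hsum : ∑ v, Dg (e j) (A j) z v * Function.extend J s 0 v = ∑ l, M j l * s l := by
      symm
      refine Fintype.sum_of_injective J hJ _ _ ?_ ?_
      · intro v hv
        have hv' : ¬ ∃ l, J l = v := fun ⟨l, hl⟩ => hv ⟨l, hl⟩
        rw [Function.extend_apply' _ _ _ hv']
        simp
      · intro l
        rw [hJ.extend_apply]
        rfl
    rw [hsum, hMs] at hR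
    rw [hR, hf]
    have h1 : (p : ℤ) ^ m * f j + (p : ℤ) ^ (m - c) * (-u' * ((p : ℤ) ^ c * u0) * f j) +
        ((p : ℤ) ^ (m - c)) ^ 2 * R =
        (p : ℤ) ^ m * ((1 - u' * u0) * f j) + ((p : ℤ) ^ (m - c)) ^ 2 * R := by
      have h2 : (p : ℤ) ^ m = (p : ℤ) ^ (m - c) * (p : ℤ) ^ c := by rw [← pow_add, hmc]
      rw [h2]
      ring
    rw [h1]
    apply dvd_add
    · rw [pow_succ]
      apply mul_dvd_mul_left
      have h3 : 1 - u' * u0 = (p : ℤ) * q := by linear_combination -huq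
      rw [h3, mul_assoc]
      exact dvd_mul_right _ _
    · rw [← pow_mul]
      exact (pow_dvd_pow _ (by omega)).mul_right _

/-- Hensel's lemma, exact valuation -/
private theorem hs_lift (e : ∀ j, I j → V → ℕ) (A : ∀ j, I j → ℤ) (p c m : ℕ) (hp : p.Prime)
    (hm : 2 * c + 1 ≤ m) (z : V → ℤ) (J : Fin r → V)
    (hF : ∀ j, (p : ℤ) ^ m ∣ Fg (e j) (A j) z)
    (hD : (p : ℤ) ^ c ∣ (Matrix.of fun j l => Dg (e j) (A j) z (J l)).det)
    (hD' : ¬ (p : ℤ) ^ (c + 1) ∣ (Matrix.of fun j l => Dg (e j) (A j) z (J l)).det) (N : ℕ) :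
    ∃ t : V → ℤ, (∀ v, (∀ l, J l ≠ v) → t v = 0) ∧ (∀ v, (p : ℤ) ^ (m - c) ∣ t v) ∧
      ∀ j, (p : ℤ) ^ (m + N) ∣ Fg (e j) (A j) (fun v => z v + t v) := by
  induction N with
  | zero => exact ⟨0, fun v _ => rfl, fun v => dvd_zero _, fun j => by simpa using hF j⟩
  | succ N ih =>
    obtain ⟨t, ht0, ht1, ht2⟩ := ih
    have hcong : (p : ℤ) ^ (m - c) ∣
        (Matrix.of fun j l => Dg (e j) (A j) (fun v => z v + t v) (J l)).det -
        (Matrix.of fun j l => Dg (e j) (A j) z (J l)).det := by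
      refine det_congr_mod _ _ _ fun j l => ?_
      refine Dg_congr_mod (e j) _ (A j) (A j) _ _ (J l) (fun i => by simp) fun v => ?_
      simpa using ht1 v
    have hc1 : (p : ℤ) ^ (c + 1) ∣
        (Matrix.of fun j l => Dg (e j) (A j) (fun v => z v + t v) (J l)).det -
        (Matrix.of fun j l => Dg (e j) (A j) z (J l)).det :=
      (pow_dvd_pow _ (by omega)).trans hcong
    have hE : (p : ℤ) ^ c ∣
        (Matrix.of fun j l => Dg (e j) (A j) (fun v => z v + t v) (J l)).det := by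
      have h1 := dvd_add ((pow_dvd_pow (p : ℤ) (Nat.le_succ c)).trans hc1) hD
      simpa using h1
    have hE' : ¬ (p : ℤ) ^ (c + 1) ∣
        (Matrix.of fun j l => Dg (e j) (A j) (fun v => z v + t v) (J l)).det := by
      intro h
      apply hD'
      have h1 := dvd_sub h hc1
      simpa using h1
    obtain ⟨t', ht'0, ht'1, ht'2⟩ := hs_step e A p c (m + N) hp (by omega) (fun v => z v + t v) J
      ht2 hE hE'
    refine ⟨fun v => t v + t' v, fun v hv => ?_, fun v => ?_, fun j => ?_⟩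
    · show t v + t' v = 0
      rw [ht0 v hv, ht'0 v hv, add_zero]
    · exact dvd_add (ht1 v) ((pow_dvd_pow _ (by omega)).trans (ht'1 v))
    · have h1 := ht'2 j
      have h2 : (fun v => z v + (t v + t' v)) = fun v => z v + t v + t' v := by
        funext v
        ring
      show (p : ℤ) ^ (m + (N + 1)) ∣ Fg (e j) (A j) (fun v => z v + (t v + t' v))
      rw [h2]
      exact h1

theorem hens_sys (e : ∀ j, I j → V → ℕ) (A : ∀ j, I j → ℤ) (p c m : ℕ) (hp : p.Prime)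
    (hm : 2 * c + 1 ≤ m) (z : V → ℤ) (J : Fin r → V)
    (hF : ∀ j, (p : ℤ) ^ m ∣ Fg (e j) (A j) z)
    (hD : ¬ (p : ℤ) ^ (c + 1) ∣ (Matrix.of fun j l => Dg (e j) (A j) z (J l)).det) (N : ℕ) :
    ∃ t : V → ℤ, (∀ v, (∀ l, J l ≠ v) → t v = 0) ∧ (∀ v, (p : ℤ) ^ (m - c) ∣ t v) ∧
      ∀ j, (p : ℤ) ^ (m + N) ∣ Fg (e j) (A j) (fun v => z v + t v) := by
  classical
  have hex : ∃ c', ¬ (p : ℤ) ^ (c' + 1) ∣ (Matrix.of fun j l => Dg (e j) (A j) z (J l)).det :=
    ⟨c, hD⟩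
  set c' := Nat.find hex with hc'
  have h1 := Nat.find_spec hex
  have h2 : c' ≤ c := Nat.find_min' hex hD
  have h3 : (p : ℤ) ^ c' ∣ (Matrix.of fun j l => Dg (e j) (A j) z (J l)).det := by
    rcases Nat.eq_zero_or_pos c' with h | h
    · rw [h, pow_zero]
      exact one_dvd _
    · have := Nat.find_min hex (m := c' - 1) (by omega)
      rw [not_not] at this
      rwa [show c' - 1 + 1 = c' by omega] at this
  obtain ⟨t, ht0, ht1, ht2⟩ := hs_lift e A p c' m hp (by omega) z J hF h3 h1 N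
  exact ⟨t, ht0, fun v => (pow_dvd_pow _ (by omega)).trans (ht1 v), ht2⟩

theorem hens_zeros_sys (e : ∀ j, I j → V → ℕ) (A : ∀ j, I j → ℤ) (p k1 k : ℕ) (hp : p.Prime)
    (hk1 : 1 ≤ k1) (hk : k1 ≤ k) (z0 : V → ℤ) (J : Fin r → V)
    (h0 : ∀ j, (p : ℤ) ^ (2 * k1) ∣ Fg (e j) (A j) z0)
    (h1 : ¬ (p : ℤ) ^ k1 ∣ (Matrix.of fun j l => Dg (e j) (A j) z0 (J l)).det) :
    (p ^ (2 * k - 2 * k1)) ^ (Fintype.card V - r) ≤
      Set.ncard {z : V → ℤ | (∀ v, 0 ≤ z v ∧ z v < (p : ℤ) ^ (2 * k)) ∧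
        (∀ v, (p : ℤ) ∣ z v - z0 v) ∧ ∀ j, (p : ℤ) ^ (2 * k) ∣ Fg (e j) (A j) z} := by
  classical
  have hp0 : (0 : ℤ) < p := by exact_mod_cast hp.pos
  have hJ : Function.Injective J := by
    intro a b hab
    by_contra hne
    apply h1
    have : (Matrix.of fun j l => Dg (e j) (A j) z0 (J l)).det = 0 :=
      Matrix.det_zero_of_column_eq hne fun i => by simp only [Matrix.of_apply, hab]
    rw [this]
    exact dvd_zero _
  set K := {v : V // ∀ l, J l ≠ v} with hK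
  have hcardK : Fintype.card K = Fintype.card V - r := by
    have h2 : Fintype.card {v : V // ¬ ∃ l, J l = v} = Fintype.card V - Fintype.card {v : V // ∃ l, J l = v} :=
      Fintype.card_subtype_compl _
    have h3 : Fintype.card {v : V // ∃ l, J l = v} = r := by
      have e1 : {v : V // ∃ l, J l = v} ≃ Fin r :=
        (Equiv.ofInjective J hJ).symm
      rw [Fintype.card_congr e1, Fintype.card_fin]
    rw [h3] at h2
    rw [← h2]
    exact Fintype.card_congr (Equiv.subtypeEquivRight fun v => by push Not; rfl)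
  -- the lifts
  have hlift : ∀ h : K → Fin (p ^ (2 * k - 2 * k1)), ∃ z : V → ℤ,
      (∀ v, 0 ≤ z v ∧ z v < (p : ℤ) ^ (2 * k)) ∧ (∀ v, (p : ℤ) ∣ z v - z0 v) ∧
      (∀ j, (p : ℤ) ^ (2 * k) ∣ Fg (e j) (A j) z) ∧
      ∀ v : K, (p : ℤ) ^ (2 * k) ∣ z v - (z0 v + (p : ℤ) ^ (2 * k1) * (h v : ℕ)) := by
    intro h
    set u : V → ℤ := fun v => z0 v + (p : ℤ) ^ (2 * k1) *
      (if hv : ∀ l, J l ≠ v then ((h ⟨v, hv⟩ : ℕ) : ℤ) else 0) with hu
    have hu0 : ∀ v, (p : ℤ) ^ (2 * k1) ∣ u v - z0 v := by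
      intro v
      rw [hu]
      simp only [add_sub_cancel_left]
      exact dvd_mul_right _ _
    have hFu : ∀ j, (p : ℤ) ^ (2 * k1) ∣ Fg (e j) (A j) u := by
      intro j
      have h2 := Fg_congr_mod (e j) ((p : ℤ) ^ (2 * k1)) (A j) (A j) u z0 (fun i => by simp) hu0
      have h3 := dvd_add h2 (h0 j)
      simpa using h3
    have hDu : ¬ (p : ℤ) ^ (k1 - 1 + 1) ∣
        (Matrix.of fun j l => Dg (e j) (A j) u (J l)).det := by
      rw [show k1 - 1 + 1 = k1 by omega]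
      intro h2
      apply h1
      have h3 : (p : ℤ) ^ (2 * k1) ∣ (Matrix.of fun j l => Dg (e j) (A j) u (J l)).det -
          (Matrix.of fun j l => Dg (e j) (A j) z0 (J l)).det :=
        det_congr_mod _ _ _ fun j l => Dg_congr_mod (e j) _ (A j) (A j) _ _ (J l)
          (fun i => by simp) hu0
      have h4 := dvd_sub h2 ((pow_dvd_pow (p : ℤ) (by omega : k1 ≤ 2 * k1)).trans h3)
      simpa using h4
    obtain ⟨t, ht0, ht1, ht2⟩ := hens_sys e A p (k1 - 1) (2 * k1) hp (by omega) u J hFu hDu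
      (2 * k - 2 * k1)
    rw [show 2 * k1 + (2 * k - 2 * k1) = 2 * k by omega] at ht2
    have hPpos : (0 : ℤ) < (p : ℤ) ^ (2 * k) := by positivity
    have hred : ∀ v, (p : ℤ) ^ (2 * k) ∣ (u v + t v) % (p : ℤ) ^ (2 * k) - (u v + t v) := by
      intro v
      rw [Int.emod_def]
      exact ⟨-((u v + t v) / (p : ℤ) ^ (2 * k)), by ring⟩
    have hp1 : (p : ℤ) ∣ (p : ℤ) ^ (2 * k) := dvd_pow_self _ (by omega)
    refine ⟨fun v => (u v + t v) % (p : ℤ) ^ (2 * k), fun v => ⟨Int.emod_nonneg _ hPpos.ne',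
      Int.emod_lt_of_pos _ hPpos⟩, fun v => ?_, fun j => ?_, fun v => ?_⟩
    · have h2 : (p : ℤ) ∣ t v := (dvd_pow_self (p : ℤ) (by omega)).trans (ht1 v)
      have h3 : (p : ℤ) ∣ u v - z0 v := (dvd_pow_self (p : ℤ) (by omega)).trans (hu0 v)
      have h4 := dvd_add (dvd_add (hp1.trans (hred v)) h2) h3
      have h5 : (u v + t v) % (p : ℤ) ^ (2 * k) - (u v + t v) + t v + (u v - z0 v) =
        (u v + t v) % (p : ℤ) ^ (2 * k) - z0 v := by ring
      rw [h5] at h4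
      exact h4
    · have h2 := Fg_congr_mod (e j) ((p : ℤ) ^ (2 * k)) (A j) (A j)
        (fun v => (u v + t v) % (p : ℤ) ^ (2 * k)) (fun v => u v + t v) (fun i => by simp) hred
      have h3 := dvd_add h2 (ht2 j)
      simpa using h3
    · have h2 := hred v
      have h3 : t v = 0 := ht0 v v.2
      have h4 : u v = z0 v + (p : ℤ) ^ (2 * k1) * (h v : ℕ) := by
        rw [hu]
        simp only [dif_pos v.2]
        rfl
      rw [h3, add_zero, h4] at h2
      show (p : ℤ) ^ (2 * k) ∣ (u v + t v) % (p : ℤ) ^ (2 * k) - _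
      rw [h3, add_zero, h4]
      exact h2
  choose zz hz1 hz2 hz3 hz4 using hlift
  have hinj : Function.Injective zz := by
    intro h h' hh
    funext v
    have h2 := hz4 h v
    have h3 := hz4 h' v
    rw [← hh] at h3
    have h4 := dvd_sub h3 h2
    have h5 : zz h v - (z0 v + (p : ℤ) ^ (2 * k1) * (h' v : ℕ)) -
        (zz h v - (z0 v + (p : ℤ) ^ (2 * k1) * (h v : ℕ))) =
        (p : ℤ) ^ (2 * k1) * ((h v : ℕ) - (h' v : ℕ)) := by ring
    have hpe : (p : ℤ) ^ (2 * k) = (p : ℤ) ^ (2 * k1) * (p : ℤ) ^ (2 * k - 2 * k1) := by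
      rw [← pow_add]
      congr 1
      omega
    rw [h5, hpe] at h4
    have h6 : (p : ℤ) ^ (2 * k - 2 * k1) ∣ ((h v : ℕ) : ℤ) - (h' v : ℕ) :=
      Int.dvd_of_mul_dvd_mul_left (by positivity) h4
    have h7 : |((h v : ℕ) : ℤ) - (h' v : ℕ)| < (p : ℤ) ^ (2 * k - 2 * k1) := by
      have h8 := (h v).2
      have h9 := (h' v).2
      rw [abs_lt]
      constructor
      · have : (((h' v : ℕ)) : ℤ) < (p : ℤ) ^ (2 * k - 2 * k1) := by exact_mod_cast h9
        have h10 : (0 : ℤ) ≤ ((h v : ℕ) : ℤ) := Int.natCast_nonneg _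
        linarith
      · have : (((h v : ℕ)) : ℤ) < (p : ℤ) ^ (2 * k - 2 * k1) := by exact_mod_cast h8
        have h10 : (0 : ℤ) ≤ ((h' v : ℕ) : ℤ) := Int.natCast_nonneg _
        linarith
    have h8 := Int.eq_zero_of_abs_lt_dvd h6 h7
    apply Fin.ext
    have h9 : ((h v : ℕ) : ℤ) = (h' v : ℕ) := by linarith
    exact_mod_cast h9
  have hfin : {z : V → ℤ | (∀ v, 0 ≤ z v ∧ z v < (p : ℤ) ^ (2 * k)) ∧
        (∀ v, (p : ℤ) ∣ z v - z0 v) ∧ ∀ j, (p : ℤ) ^ (2 * k) ∣ Fg (e j) (A j) z}.Finite := by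
    refine (Set.Finite.pi' (fun _ : V => Set.finite_Icc (0 : ℤ) ((p : ℤ) ^ (2 * k)))).subset ?_
    intro z hz v
    exact ⟨(hz.1 v).1, (hz.1 v).2.le⟩
  have hcard : Nat.card (K → Fin (p ^ (2 * k - 2 * k1))) =
      (p ^ (2 * k - 2 * k1)) ^ (Fintype.card V - r) := by
    rw [Nat.card_eq_fintype_card, Fintype.card_fun, Fintype.card_fin, hcardK]
  rw [← hcard, ← Set.ncard_univ, ← Set.ncard_image_of_injective _ hinj]
  refine Set.ncard_le_ncard ?_ hfin
  rintro _ ⟨h, -, rfl⟩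
  exact ⟨hz1 h, hz2 h, hz3 h⟩

end

end CIPHP
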