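import Pool.Agent.Lib.MP_e426f4_ag.P.Defs
import Pool.Agent.Lib.MP_e426f4_ag.P.Hens
import Pool.Agent.Lib.MP_e426f4_ag.M.Alg
import Pool.Agent.Lib.MP_e426f4_ag.CI.Basic
import Pool.Agent.Lib.MP_e426f4_ag.CI.LeftKernel

/-! Module P-ALG: algebra of systems of multihomogeneous forms. -/

namespace CIPHP

open Finset Filter Topology GenHP

section multi
variable {ι : Type} [Fintype ι] [DecidableEq ι] {n : ι → ℕ} {r : ℕ} {d : Fin r → ι → ℕ}

theorem card_sigma_NP : Fintype.card (Σ j : Fin r, MIdx n (d j)) = NP n d := by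
  rw [Fintype.card_sigma]
  rfl

theorem pbox_eq_pi (H : ℕ) :
    pbox n d H = {A : PSys n d ℤ | ∀ j, A j ∈ ((MBox n (d j) H : Finset _) : Set (MIdx n (d j) → ℤ))} := by
  ext A
  simp only [pbox, Set.mem_setOf_eq, Finset.mem_coe, mem_MBox]

theorem pbox_finite (H : ℕ) (P : PSys n d ℤ → Prop) : {A | A ∈ pbox n d H ∧ P A}.Finite := by
  have h : (pbox n d H).Finite := by
    rw [pbox_eq_pi]
    exact Set.Finite.pi' fun j => Finset.finite_toSet _
  exact h.subset fun A hA => hA.1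

theorem ncard_pbox (n : ι → ℕ) (d : Fin r → ι → ℕ) (H : ℕ) :
    (pbox n d H).ncard = (2 * H + 1) ^ NP n d := by
  rw [pbox_eq_pi, CIHP.ncard_pi (fun j => ((MBox n (d j) H : Finset _) : Set (MIdx n (d j) → ℤ)))
    (fun j => Finset.finite_toSet _)]
  simp only [Set.ncard_coe_finset, card_MBox]
  rw [Finset.prod_pow_eq_pow_sum]
  rfl

section ring
variable {R : Type*} [CommRing R]

theorem PJac_scale (c : ι → R) (A : PSys n d R) (z : MVar n → R) (J : Fin r → MVar n) :
    (∏ l, c (J l).1) * (PJac A (fun v => c v.1 * z v) J).det =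
      (∏ j, ∏ i, c i ^ d j i) * (PJac A z J).det := by
  rw [← Matrix.det_mul_row, ← Matrix.det_mul_column]
  congr 1
  ext j l
  exact MD_scale c (A j) z (J l)

theorem PJac_smul (c : R) (A : PSys n d R) (z : MVar n → R) (J : Fin r → MVar n) :
    (PJac (fun j t => c * A j t) z J).det = c ^ r * (PJac A z J).det := by
  have h : PJac (fun j t => c * A j t) z J = c • PJac A z J := by
    ext j l
    exact MD_smul c (A j) z (J l)
  rw [h, Matrix.det_smul, Fintype.card_fin]

theorem PJac_map {S : Type*} [CommRing S] (f : R →+* S) (A : PSys n d R) (z : MVar n → R)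
    (J : Fin r → MVar n) :
    (PJac (fun j t => f (A j t)) (fun v => f (z v)) J).det = f (PJac A z J).det := by
  rw [RingHom.map_det]
  congr 1
  ext j l
  exact MD_map f (A j) z (J l)

theorem PJac_injective (A : PSys n d R) (z : MVar n → R) (J : Fin r → MVar n)
    (h : (PJac A z J).det ≠ 0) : Function.Injective J := by
  intro a b hab
  by_contra hne
  apply h
  refine Matrix.det_zero_of_column_eq hne fun i => ?_
  simp only [PJac, Matrix.of_apply, hab]

end ring

theorem PJac_congr_mod (N : ℤ) (A A' : PSys n d ℤ) (z z' : MVar n → ℤ) (J : Fin r → MVar n)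
    (hA : ∀ j t, N ∣ A j t - A' j t) (hz : ∀ v, N ∣ z v - z' v) :
    N ∣ (PJac A z J).det - (PJac A' z' J).det :=
  det_congr_mod N _ _ fun j l => MD_congr_mod N (A j) (A' j) z z' (J l) (hA j) hz

end multi

theorem lk_padic {V : Type*} [Fintype V] {r : ℕ} (hr : 1 ≤ r) (L : Fin r → V → ℤ) (p k : ℕ)
    (hp : p.Prime)
    (h : ∀ J : Fin r → V, (p : ℤ) ^ (r * k) ∣ (Matrix.of fun i l => L i (J l)).det) :
    ∃ c : Fin r → ℤ, (∃ i, ¬ (p : ℤ) ∣ c i) ∧ ∀ v, (p : ℤ) ^ k ∣ ∑ i, c i * L i v := by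
  classical
  set E := Fintype.equivFin V with hE
  obtain ⟨c, hc1, hc2⟩ := CIHP.left_kernel_padic hr
    (Matrix.of fun i (a : Fin (Fintype.card V)) => L i (E.symm a)) p k hp
    (fun J => h fun l => E.symm (J l))
  refine ⟨c, hc1, fun v => ?_⟩
  have := hc2 (E v)
  simpa using this

theorem lk_real {V : Type*} [Fintype V] {r : ℕ} (hr : 1 ≤ r) (L : Fin r → V → ℝ) (bet : ℝ)
    (hb : 0 < bet) (h : ∀ J : Fin r → V, |(Matrix.of fun i l => L i (J l)).det| < bet ^ r) :
    ∃ c : Fin r → ℝ, (∀ i, |c i| ≤ 1) ∧ (∃ i, c i = 1) ∧ ∀ v, |∑ i, c i * L i v| ≤ bet := by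
  classical
  set E := Fintype.equivFin V with hE
  obtain ⟨c, hc0, hc1, hc2⟩ := CIHP.left_kernel_real hr
    (Matrix.of fun i (a : Fin (Fintype.card V)) => L i (E.symm a)) bet hb
    (fun J => h fun l => E.symm (J l))
  refine ⟨c, hc0, hc1, fun v => ?_⟩
  have := hc2 (E v)
  simpa using this

end CIPHP
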