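import Pool.Agent.Lib.MP_e426f4_ag.M.Reduce

/-! Module P-RED: evaluating some blocks, systems. -/

namespace CIPHP

open Finset Filter Topology GenHP

/-- `T1 j`: remaining monomials; `S j`: monomials of the evaluated blocks; `P`, `P1`: not soluble. -/
theorem preduce {r : ℕ} {T1 S : Fin r → Type} [∀ j, Fintype (T1 j)] [∀ j, DecidableEq (T1 j)]
    [∀ j, Fintype (S j)] [∀ j, DecidableEq (S j)]
    (v : ∀ j, S j → ℤ) (hv : ∀ j, ∃ c : S j → ℤ, ∑ s, c s * v j s = 1) (V : Fin r → ℕ)
    (hV : ∀ j s, |v j s| ≤ V j) (s0 : ∀ j, S j) (hs0 : ∀ j, |v j (s0 j)| = V j) (Q : ℕ)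
    (hQ : 1 ≤ Q) (rho : ℝ) (hrho : 0 < rho)
    (P1 : (∀ j, T1 j → ℤ) → Prop) (P : (∀ j, T1 j × S j → ℤ) → Prop)
    (hP : ∀ A : ∀ j, T1 j × S j → ℤ, P A → P1 fun j t => ∑ s, A j (t, s) * v j s)
    (AC : ∀ j, T1 j × S j → ℝ) (A0 : ∀ j, T1 j × S j → ℤ) (C1 : ℝ) (hC1 : 0 < C1)
    (h : ∀ᶠ H : ℝ in atTop,
      (Set.ncard {b : ∀ j, T1 j → ℤ |
        (∀ j t, |(b j t : ℝ) - (Fintype.card (S j) * V j) * H *
          ((∑ s, AC j (t, s) * (v j s : ℝ)) / (Fintype.card (S j) * V j))| ≤
            rho * ((Fintype.card (S j) * V j) * H)) ∧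
        (∀ j t, (Q : ℤ) ∣ b j t - ∑ s, A0 j (t, s) * v j s) ∧ P1 b} : ℝ) ≤
        C1 * ∏ j, (2 * rho * ((Fintype.card (S j) * V j) * H) / Q) ^ Fintype.card (T1 j)) :
    ∀ᶠ H : ℝ in atTop,
      (Set.ncard {A : ∀ j, T1 j × S j → ℤ | (∀ j t, |(A j t : ℝ) - H * AC j t| ≤ rho * H) ∧
        (∀ j t, (Q : ℤ) ∣ A j t - A0 j t) ∧ P A} : ℝ) ≤
        2 ^ r * C1 * (∏ j, (Fintype.card (S j) : ℝ) ^ Fintype.card (T1 j)) *
          (2 * rho * H / Q) ^ (∑ j, Fintype.card (T1 j × S j)) := by
  classical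
  have hVp : ∀ j, 0 < V j := by
    intro j
    rcases Nat.eq_zero_or_pos (V j) with h | h
    · exfalso
      obtain ⟨c, hc⟩ := hv j
      have h1 : ∀ s, v j s = 0 := by
        intro s
        have := hV j s
        rw [h] at this
        exact abs_eq_zero.1 (le_antisymm (by exact_mod_cast this) (abs_nonneg _))
      simp [h1] at hc
    · exact h
  have hQr : (0 : ℝ) < Q := by exact_mod_cast hQ
  have hVr : ∀ j, (0 : ℝ) < V j := fun j => by exact_mod_cast hVp j
  have hSpos : ∀ j, 0 < Fintype.card (S j) := fun j => Fintype.card_pos_iff.2 ⟨s0 j⟩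
  have hSr : ∀ j, (0 : ℝ) < Fintype.card (S j) := fun j => by exact_mod_cast hSpos j
  set m : Fin r → ℕ := fun j => Fintype.card (T1 j) with hm
  have hf := fun j => fibre_count (v j) (hv j) (V j) (hV j) (s0 j) (hs0 j) Q hQ rho hrho
    (1 / (2 * ((m j : ℝ) + 1))) (by positivity)
  filter_upwards [Filter.eventually_all.mpr hf, h, eventually_gt_atTop 0] with H hfH hH hH0
  set B : Set (∀ j, T1 j → ℤ) := {b : ∀ j, T1 j → ℤ |
        (∀ j t, |(b j t : ℝ) - (Fintype.card (S j) * V j) * H *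
          ((∑ s, AC j (t, s) * (v j s : ℝ)) / (Fintype.card (S j) * V j))| ≤
            rho * ((Fintype.card (S j) * V j) * H)) ∧
        (∀ j t, (Q : ℤ) ∣ b j t - ∑ s, A0 j (t, s) * v j s) ∧ P1 b} with hB
  have hBfin : B.Finite := by
    refine (Set.Finite.pi' fun j => red_fin (fun t : T1 j => (Fintype.card (S j) * V j) * H *
          ((∑ s, AC j (t, s) * (v j s : ℝ)) / (Fintype.card (S j) * V j)))
            (rho * ((Fintype.card (S j) * V j) * H))).subset ?_
    intro b hb j
    exact hb.1 j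
  set X : (∀ j, T1 j → ℤ) → ∀ j, T1 j → Set (S j → ℤ) := fun b j t => {a : S j → ℤ |
    (∀ s, |(a s : ℝ) - H * AC j (t, s)| ≤ rho * H) ∧ (∀ s, (Q : ℤ) ∣ a s - A0 j (t, s)) ∧
      ∑ s, a s * v j s = b j t} with hX
  have hXfin : ∀ b j t, (X b j t).Finite := fun b j t => (red_fin _ _).subset fun a ha => ha.1
  have hXc : ∀ b j t, ((X b j t).ncard : ℝ) ≤
      (1 + 1 / (2 * ((m j : ℝ) + 1))) * (2 * rho * H / Q) ^ (Fintype.card (S j) - 1) / V j :=
    fun b j t => hfH j (fun s => H * AC j (t, s)) (fun s => A0 j (t, s)) (b j t)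
  set Big : Finset (∀ j, T1 j → S j → ℤ) := hBfin.toFinset.biUnion fun b =>
    Fintype.piFinset fun j => Fintype.piFinset fun t => (hXfin b j t).toFinset with hBig
  set W : Set (∀ j, T1 j × S j → ℤ) := {A : ∀ j, T1 j × S j → ℤ |
        (∀ j t, |(A j t : ℝ) - H * AC j t| ≤ rho * H) ∧
        (∀ j t, (Q : ℤ) ∣ A j t - A0 j t) ∧ P A} with hW
  have hle : W.ncard ≤ Big.card := by
    rw [← Set.ncard_coe_finset]
    refine Set.ncard_le_ncard_of_injOn (fun A j t s => A j (t, s)) ?_ ?_ (Finset.finite_toSet _)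
    · rintro A ⟨h1, h2, h3⟩
      rw [Finset.mem_coe, hBig, Finset.mem_biUnion]
      refine ⟨fun j t => ∑ s, A j (t, s) * v j s, ?_, ?_⟩
      · rw [Set.Finite.mem_toFinset]
        refine ⟨fun j t => ?_, fun j t => ?_, hP A h3⟩
        · have hVj := hVr j
          have hSj := hSr j
          have h4 : (((∑ s, A j (t, s) * v j s : ℤ)) : ℝ) - (Fintype.card (S j) * V j) * H *
              ((∑ s, AC j (t, s) * (v j s : ℝ)) / (Fintype.card (S j) * V j)) =
              ∑ s, ((A j (t, s) : ℝ) - H * AC j (t, s)) * v j s := by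
            have h5 : (Fintype.card (S j) * V j) * H *
                ((∑ s, AC j (t, s) * (v j s : ℝ)) / (Fintype.card (S j) * V j)) =
                H * ∑ s, AC j (t, s) * (v j s : ℝ) := by
              field_simp
            rw [h5, Finset.mul_sum]
            push_cast
            rw [← Finset.sum_sub_distrib]
            exact Finset.sum_congr rfl fun s _ => by ring
          rw [h4]
          refine (Finset.abs_sum_le_sum_abs _ _).trans ?_
          have h6 : ∀ s ∈ (univ : Finset (S j)),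
              |((A j (t, s) : ℝ) - H * AC j (t, s)) * v j s| ≤ rho * H * V j := by
            intro s _
            rw [abs_mul]
            have h7 : |(v j s : ℝ)| ≤ V j := by exact_mod_cast hV j s
            exact mul_le_mul (h1 j (t, s)) h7 (abs_nonneg _) (by positivity)
          refine (Finset.sum_le_card_nsmul _ _ _ h6).trans (le_of_eq ?_)
          rw [nsmul_eq_mul, Finset.card_univ]
          ring
        · rw [← Finset.sum_sub_distrib]
          refine Finset.dvd_sum fun s _ => ?_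
          rw [← sub_mul]
          exact (h2 j (t, s)).mul_right _
      · rw [Fintype.mem_piFinset]
        intro j
        rw [Fintype.mem_piFinset]
        intro t
        rw [Set.Finite.mem_toFinset]
        exact ⟨fun s => h1 j (t, s), fun s => h2 j (t, s), rfl⟩
    · intro A _ A' _ hAA
      funext j ⟨t, s⟩
      exact congrFun (congrFun (congrFun hAA j) t) s
  have hpi : ∀ b, ((Fintype.piFinset fun j =>
      Fintype.piFinset fun t => (hXfin b j t).toFinset).card : ℝ) ≤
      ∏ j, ((1 + 1 / (2 * ((m j : ℝ) + 1))) *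
        (2 * rho * H / Q) ^ (Fintype.card (S j) - 1) / V j) ^ m j := by
    intro b
    rw [Fintype.card_piFinset]
    push_cast
    refine Finset.prod_le_prod (fun _ _ => by positivity) fun j _ => ?_
    rw [Fintype.card_piFinset]
    push_cast
    rw [hm]
    simp only
    rw [← Finset.card_univ, ← Finset.prod_const]
    refine Finset.prod_le_prod (fun _ _ => by positivity) fun t _ => ?_
    rw [← Set.ncard_eq_toFinset_card _ (hXfin b j t)]
    have := hXc b j t
    rw [hm] at this
    simp only [← Finset.card_univ] at this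
    exact this
  have hBigc : (Big.card : ℝ) ≤ B.ncard *
      ∏ j, ((1 + 1 / (2 * ((m j : ℝ) + 1))) *
        (2 * rho * H / Q) ^ (Fintype.card (S j) - 1) / V j) ^ m j := by
    have h1 : (Big.card : ℝ) ≤ ∑ b ∈ hBfin.toFinset,
        ((Fintype.piFinset fun j => Fintype.piFinset fun t => (hXfin b j t).toFinset).card : ℝ) := by
      exact_mod_cast Finset.card_biUnion_le
    refine h1.trans ((Finset.sum_le_card_nsmul _ _ _ fun b _ => hpi b).trans (le_of_eq ?_))
    rw [nsmul_eq_mul, Set.ncard_eq_toFinset_card B hBfin]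
  set q : ℝ := 2 * rho * H / Q with hq
  have hq0 : 0 < q := by positivity
  have hmul : ∀ j : Fin r, (2 * rho * ((Fintype.card (S j) * V j) * H) / Q) ^ m j *
      ((1 + 1 / (2 * ((m j : ℝ) + 1))) * q ^ (Fintype.card (S j) - 1) / V j) ^ m j ≤
      2 * ((Fintype.card (S j) : ℝ) ^ m j * q ^ Fintype.card (T1 j × S j)) := by
    intro j
    have hVj := hVr j
    have hSj := hSr j
    have hem : (1 + 1 / (2 * ((m j : ℝ) + 1))) ^ m j ≤ 2 := red_eps (m j)
    have hqS : q ^ (Fintype.card (S j) - 1) * q = q ^ Fintype.card (S j) := by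
      rw [← pow_succ, Nat.sub_add_cancel (hSpos j)]
    have e1 : 2 * rho * ((Fintype.card (S j) * V j) * H) / Q = q * (Fintype.card (S j) * V j) := by
      rw [hq]; ring
    rw [e1, ← mul_pow]
    have e2 : q * (Fintype.card (S j) * V j) *
        ((1 + 1 / (2 * ((m j : ℝ) + 1))) * q ^ (Fintype.card (S j) - 1) / V j) =
        (1 + 1 / (2 * ((m j : ℝ) + 1))) * (Fintype.card (S j) * q ^ Fintype.card (S j)) := by
      rw [← hqS]
      field_simp
    rw [e2, mul_pow]
    have e3 : ((Fintype.card (S j) : ℝ) * q ^ Fintype.card (S j)) ^ m j =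
        (Fintype.card (S j) : ℝ) ^ m j * q ^ Fintype.card (T1 j × S j) := by
      rw [mul_pow, ← pow_mul, Fintype.card_prod, mul_comm (Fintype.card (S j)) (m j)]
    rw [e3]
    exact mul_le_mul_of_nonneg_right hem (by positivity)
  calc (W.ncard : ℝ) ≤ Big.card := by exact_mod_cast hle
    _ ≤ B.ncard * ∏ j, ((1 + 1 / (2 * ((m j : ℝ) + 1))) *
        q ^ (Fintype.card (S j) - 1) / V j) ^ m j := hBigc
    _ ≤ (C1 * ∏ j, (2 * rho * ((Fintype.card (S j) * V j) * H) / Q) ^ m j) *
        ∏ j, ((1 + 1 / (2 * ((m j : ℝ) + 1))) * q ^ (Fintype.card (S j) - 1) / V j) ^ m j :=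
        mul_le_mul_of_nonneg_right hH (Finset.prod_nonneg fun j _ => by positivity)
    _ = C1 * ∏ j, ((2 * rho * ((Fintype.card (S j) * V j) * H) / Q) ^ m j *
        ((1 + 1 / (2 * ((m j : ℝ) + 1))) * q ^ (Fintype.card (S j) - 1) / V j) ^ m j) := by
        rw [Finset.prod_mul_distrib]
        ring
    _ ≤ C1 * ∏ j, (2 * ((Fintype.card (S j) : ℝ) ^ m j * q ^ Fintype.card (T1 j × S j))) := by
        refine mul_le_mul_of_nonneg_left ?_ hC1.le
        exact Finset.prod_le_prod (fun j _ => by positivity) fun j _ => hmul j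
    _ = 2 ^ r * C1 * (∏ j, (Fintype.card (S j) : ℝ) ^ Fintype.card (T1 j)) *
          q ^ (∑ j, Fintype.card (T1 j × S j)) := by
        rw [Finset.prod_mul_distrib, Finset.prod_mul_distrib, Finset.prod_const, Finset.card_univ,
          Fintype.card_fin, Finset.prod_pow_eq_pow_sum]
        ring

end CIPHP
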