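import Pool.Agent.Lib.MP_e426f4_ag.P.WClass
import Pool.Agent.Lib.MP_e426f4_ag.P.Reduce
import Pool.Agent.Lib.MP_e426f4_ag.P.Alg
import Pool.Agent.Lib.MP_e426f4_ag.M.AlgReal
import Pool.Agent.Lib.MP_e426f4_ag.M.Approx
import Pool.Agent.Lib.MP_e426f4_ag.M.Eval

/-! Module P-CLS: the class theorem for several blocks from the class theorem for one block. -/

namespace CIPHP

open Finset Filter Topology GenHP

section multi
variable {ι : Type} [Fintype ι] [DecidableEq ι] {n : ι → ℕ} {r : ℕ} {d : Fin r → ι → ℕ}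

/-- `vy` of a blockwise quotient -/
private theorem pc_vy_div {d : ι → ℕ} (i0 : ι) (Y : MVar n → ℤ) (N : ι → ℕ) (s : SIdx n d i0) :
    vy i0 (fun v => (Y v : ℝ) / N v.1) s =
      ((vy i0 Y s : ℤ) : ℝ) / ((∏ j : {j // j ≠ i0}, N j ^ d j : ℕ) : ℝ) := by
  unfold vy mon
  push_cast
  rw [← Finset.prod_div_distrib]
  refine Finset.prod_congr rfl fun j _ => ?_
  simp only [div_pow]
  rw [Finset.prod_div_distrib, Finset.prod_pow_eq_pow_sum, (s j).2]

theorem psoluble_of_ev (i0 : ι) (A : PSys n d ℤ) (z : MVar n → ℤ)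
    (hz : ∀ j, j ≠ i0 → Prim fun a => z ⟨j, a⟩) (h : CIHP.Soluble (pev i0 A z)) :
    PSoluble A := by
  obtain ⟨x, hx0, hx⟩ := h
  set z' : MVar n → ℚ := fun v => if h : v.1 = i0 then x (h ▸ v.2) else (z v : ℚ) with hz'
  have e0 : ∀ a, z' ⟨i0, a⟩ = x a := by
    intro a
    rw [hz']
    dsimp only
    rw [dif_pos rfl]
  have e1 : ∀ (j : ι) (a : Fin (n j + 1)), j ≠ i0 → z' ⟨j, a⟩ = (z ⟨j, a⟩ : ℚ) := by
    intro j a hj
    rw [hz']
    dsimp only
    rw [dif_neg hj]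
  refine ⟨z', ?_, fun j => ?_⟩
  · intro i
    by_cases hi : i = i0
    · subst hi
      obtain ⟨a, ha⟩ := Function.ne_iff.1 hx0
      exact ⟨a, by rw [e0]; exact ha⟩
    · obtain ⟨c, hc⟩ := hz i hi
      by_contra hcon
      push Not at hcon
      have h0 : ∀ a, z ⟨i, a⟩ = 0 := by
        intro a
        have := hcon a
        rw [e1 i a hi] at this
        exact_mod_cast this
      have : ∑ a, c a * z ⟨i, a⟩ = 0 := Finset.sum_eq_zero fun a _ => by rw [h0 a, mul_zero]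
      rw [this] at hc
      exact zero_ne_one hc
  · rw [MF_eq_F_ev i0]
    have e2 : (fun a => z' ⟨i0, a⟩) = x := funext e0
    rw [e2, ev_congr i0 _ z' (fun v => (z v : ℚ)) (fun j a hj => e1 j a hj)]
    have e3 : ev i0 (fun t => (A j t : ℚ)) (fun v => (z v : ℚ)) =
        fun t => ((ev i0 (A j) z t : ℤ) : ℚ) :=
      funext fun t => ev_map (Int.castRingHom ℚ) i0 (A j) z t
    rw [e3]
    exact hx j

/-- the Jacobian matrix of the evaluated system -/
theorem jac_pev {R : Type*} [CommRing R] (i0 : ι) (A : PSys n d R) (z : MVar n → R)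
    (J : Fin r → Fin (n i0 + 1)) :
    CIHP.Jac (pev i0 A z) (fun b => z ⟨i0, b⟩) J = PJac A z (blk i0 J) := by
  ext j l
  simp only [CIHP.Jac, PJac, blk, Matrix.of_apply, pev]
  rw [MD_eq_D_ev]

/-- local data at `p` for the evaluated system -/
private theorem pc_local (i0 : ι) (p k : ℕ) (hp : p.Prime) (hk : 1 ≤ k) (A0 : PSys n d ℤ)
    (zp Y : MVar n → ℤ) (hzu : BUnit p zp) (hF : ∀ j, (p : ℤ) ^ (2 * k) ∣ MF (A0 j) zp)
    (J : Fin r → Fin (n i0 + 1)) (hD : ¬ (p : ℤ) ^ k ∣ (PJac A0 zp (blk i0 J)).det)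
    (hY : ∀ i, ∃ u : ℤ, ¬ (p : ℤ) ∣ u ∧ ∀ b, (p : ℤ) ^ (2 * k) ∣ Y ⟨i, b⟩ - u * zp ⟨i, b⟩) :
    ∃ x : Fin (n i0 + 1) → ℤ, (∃ i, ¬ (p : ℤ) ∣ x i) ∧
      (∀ j, ((p : ℤ) ^ (2 * k)) ∣ F (pev i0 A0 Y j) x) ∧
      ∃ J, ¬ ((p : ℤ) ^ k ∣ (CIHP.Jac (pev i0 A0 Y) x J).det) := by
  classical
  choose u hu1 hu2 using hY
  set c : ι → ℤ := fun j => if j = i0 then 1 else u j with hc
  set Zm : MVar n → ℤ := fun v => if v.1 = i0 then zp v else Y v with hZm
  have hpp : Prime (p : ℤ) := Nat.prime_iff_prime_int.mp hp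
  have hcong : ∀ v, (p : ℤ) ^ (2 * k) ∣ Zm v - c v.1 * zp v := by
    rintro ⟨j, b⟩
    by_cases hj : j = i0
    · simp [hZm, hc, hj]
    · simpa [hZm, hc, hj] using hu2 j b
  have hev : pev i0 A0 Y = pev i0 A0 Zm := by
    funext j
    refine ev_congr i0 (A0 j) Y Zm fun i b hi => ?_
    simp [hZm, hi]
  have hxZ : (fun b => zp ⟨i0, b⟩) = fun b => Zm ⟨i0, b⟩ := by
    funext b
    simp [hZm]
  have hcp0 : ∀ i, ¬ (p : ℤ) ∣ c i := by
    intro i h1
    by_cases hj : i = i0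
    · simp only [hc, hj, if_true] at h1
      exact hpp.not_isUnit (isUnit_of_dvd_one h1)
    · simp only [hc, hj, if_false] at h1
      exact hu1 i h1
  have hcp : ¬ (p : ℤ) ∣ ∏ j, ∏ i, c i ^ d j i := by
    intro h
    obtain ⟨j, -, hj⟩ := (Prime.dvd_finsetProd_iff hpp _).mp h
    obtain ⟨i, -, hi⟩ := (Prime.dvd_finsetProd_iff hpp _).mp hj
    exact hcp0 i (hpp.dvd_of_dvd_pow hi)
  refine ⟨fun b => zp ⟨i0, b⟩, hzu i0, fun j => ?_, J, ?_⟩
  · have h1 : F (pev i0 A0 Y j) (fun b => zp ⟨i0, b⟩) = MF (A0 j) Zm := by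
      rw [hev, hxZ, MF_eq_F_ev i0 (A0 j) Zm]
      rfl
    rw [h1]
    have h2 := MF_congr_mod ((p : ℤ) ^ (2 * k)) (A0 j) (A0 j) Zm (fun v => c v.1 * zp v)
      (fun t => by simp) hcong
    rw [MF_scale] at h2
    have h3 := dvd_add h2 ((hF j).mul_left (∏ i, c i ^ d j i))
    simpa using h3
  · intro h
    rw [hev, hxZ, jac_pev] at h
    have h2 := PJac_congr_mod ((p : ℤ) ^ (2 * k)) A0 A0 Zm (fun v => c v.1 * zp v) (blk i0 J)
      (fun j t => by simp) hcong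
    have h3 : (p : ℤ) ^ k ∣ (PJac A0 Zm (blk i0 J)).det -
        (PJac A0 (fun v => c v.1 * zp v) (blk i0 J)).det := (pow_dvd_pow _ (by omega)).trans h2
    have h4 : (p : ℤ) ^ k ∣ (PJac A0 (fun v => c v.1 * zp v) (blk i0 J)).det := by
      have := dvd_sub h h3
      simpa using this
    have h5 := PJac_scale c A0 zp (blk i0 J)
    have h6 : ∏ l : Fin r, c (blk i0 J l).1 = 1 := by
      refine Finset.prod_eq_one fun l _ => ?_
      simp [blk, hc]
    rw [h6, one_mul] at h5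
    rw [h5] at h4
    have h7 : IsCoprime ((p : ℤ) ^ k) (∏ j, ∏ i, c i ^ d j i) :=
      IsCoprime.pow_left ((Prime.coprime_iff_not_dvd hpp).mpr hcp)
    exact hD (h7.dvd_of_dvd_mul_left h4)

private theorem pc_cont_MF {d : ι → ℕ} (A : MIdx n d → ℝ) : Continuous fun z : MVar n → ℝ => MF A z := by
  unfold MF Fg mon
  fun_prop

private theorem pc_cont_MD {d : ι → ℕ} (A : MIdx n d → ℝ) (v : MVar n) :
    Continuous fun z : MVar n → ℝ => MD A z v := by
  unfold MD Dg dmon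
  fun_prop

/-- perturbation of the real point -/
private theorem pc_real (A : PSys n d ℝ) (z : MVar n → ℝ) (J : Fin r → MVar n) (f f' g g' : ℝ)
    (hf : f < f') (hg : g' < g) (hF : ∀ j, |MF (A j) z| ≤ f) (hD : g ≤ |(PJac A z J).det|) :
    ∃ delta : ℝ, 0 < delta ∧ ∀ Z : MVar n → ℝ, (∀ v, |Z v - z v| ≤ delta) →
      (∀ j, |MF (A j) Z| ≤ f') ∧ g' ≤ |(PJac A Z J).det| := by
  have hc1 : Continuous fun Z : MVar n → ℝ => |(PJac A Z J).det| := by
    refine Continuous.abs (Continuous.matrix_det ?_)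
    refine continuous_matrix fun j l => pc_cont_MD (A j) (J l)
  have ho1 : {Z : MVar n → ℝ | g' < |(PJac A Z J).det|} ∈ 𝓝 z :=
    (isOpen_lt continuous_const hc1).mem_nhds (lt_of_lt_of_le hg hD)
  have ho2 : {Z : MVar n → ℝ | ∀ j, |MF (A j) Z| < f'} ∈ 𝓝 z := by
    have : {Z : MVar n → ℝ | ∀ j, |MF (A j) Z| < f'} = ⋂ j, {Z | |MF (A j) Z| < f'} := by
      ext Z
      simp
    rw [this]
    refine (isOpen_iInter_of_finite fun j =>
      isOpen_lt (pc_cont_MF (A j)).abs continuous_const).mem_nhds ?_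
    exact Set.mem_iInter.mpr fun j => lt_of_le_of_lt (hF j) hf
  obtain ⟨eps, heps, hball⟩ := Metric.mem_nhds_iff.mp (Filter.inter_mem ho1 ho2)
  refine ⟨eps / 2, by positivity, fun Z hZ => ?_⟩
  have hZ' : Z ∈ Metric.ball z eps := by
    rw [Metric.mem_ball]
    refine lt_of_le_of_lt ((dist_pi_le_iff (by positivity : (0 : ℝ) ≤ eps / 2)).mpr fun v => ?_)
      (half_lt_self heps)
    rw [Real.dist_eq]
    exact hZ v
  have h := hball hZ'
  exact ⟨fun j => (h.2 j).le, le_of_lt h.1⟩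

theorem pcls_of_block (hr : 1 ≤ r) (i0 : ι) (hn : r + 2 ≤ n i0) (h2 : ∀ j, 2 ≤ d j i0)
    (hs : ∑ j, d j i0 ≤ n i0) : PCLS n d i0 := by
  classical
  set S : Fin r → Type := fun j => SIdx n (d j) i0 with hS
  set T1 : Fin r → Type := fun j => Idx (n i0) (d j i0) with hT1
  have hSne : ∀ j, Nonempty (SIdx n (d j) i0) := fun j => ⟨fun i => mk fun _ => 0⟩
  set sg : Fin r → ℕ := fun j => Fintype.card (SIdx n (d j) i0) with hsg
  have hσ : ∀ j, 1 ≤ sg j := fun j => Fintype.card_pos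
  have hσR : ∀ j, (1 : ℝ) ≤ (sg j : ℝ) := fun j => by exact_mod_cast hσ j
  set NSv : ℕ := CIHP.NS (n i0) (fun j => d j i0) with hNSv
  set PS : ℝ := ∏ j, (sg j : ℝ) with hPS
  have hPS1 : 1 ≤ PS := by
    calc (1 : ℝ) = ∏ _j : Fin r, (1 : ℝ) := by simp
      _ ≤ _ := Finset.prod_le_prod (fun _ _ => zero_le_one) fun j _ => hσR j
  refine ⟨2 ^ r * (30 * 2 ^ NSv) * ∏ j, (sg j : ℝ) ^ Fintype.card (Idx (n i0) (d j i0)),
    by positivity, ?_⟩
  intro w hw bet hb hb1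
  have hw0 : (0 : ℝ) < w := by
    have : 0 < w := by omega
    exact_mod_cast this
  obtain ⟨rho0', hr0, hr01, hclass⟩ := CIHP.wclass_thm (n i0) (fun j => d j i0) hr hn h2 hs w hw
    (bet ^ r / (2 * PS)) (by positivity) (by
      rw [div_le_one (by positivity)]
      have : bet ^ r ≤ 1 := pow_le_one₀ hb.le hb1
      linarith)
  refine ⟨rho0' / 2, by positivity, by linarith, ?_⟩
  intro rho hrho hrho1 k hk A0 hA0 AC Ainf hAinf hACi hGR
  obtain ⟨z, ⟨hz1, hz2⟩, hFz, J, hDz⟩ := hGR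
  obtain ⟨delta, hdel, hpert⟩ := pc_real Ainf z (blk i0 J) (rho0' / 2) rho0' (bet ^ r)
    (bet ^ r / 2) (by linarith) (by
      have : 0 < bet ^ r := by positivity
      linarith) hFz hDz
  -- the local points at the small primes
  have hzp0 : ∀ p : ℕ, ∃ zp : MVar n → ℤ, p.Prime → p ≤ w → BUnit p zp ∧
      (∀ j, (p : ℤ) ^ (2 * k) ∣ MF (A0 j) zp) ∧
      ∃ J, ¬ (p : ℤ) ^ k ∣ (PJac A0 zp (blk i0 J)).det := by
    intro p
    by_cases hp : p.Prime ∧ p ≤ w
    · obtain ⟨zp, h⟩ := hA0 p hp.1 hp.2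
      exact ⟨zp, fun _ _ => h⟩
    · exact ⟨0, fun h1 h2 => absurd ⟨h1, h2⟩ hp⟩
  choose zp hzp using hzp0
  -- the integer point
  have hy0 : ∀ j : ι, ∃ (y : Fin (n j + 1) → ℤ) (N : ℕ), 0 < N ∧ Prim y ∧
      (∀ p : ℕ, p.Prime → p ≤ w → ∃ u : ℤ, ¬ (p : ℤ) ∣ u ∧
        ∀ a, (p : ℤ) ^ (2 * k) ∣ y a - u * zp p ⟨j, a⟩) ∧
      (∀ a, |y a| ≤ N) ∧ (∃ a, |y a| = N) ∧ ∀ a, |(y a : ℝ) / N - z ⟨j, a⟩| ≤ delta := by
    intro j
    exact exists_prim_approx w k (n j) hk (fun p a => zp p ⟨j, a⟩)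
      (fun p hp hpw => (hzp p hp hpw).1 j) (fun a => z ⟨j, a⟩) (fun a => hz1 _) (hz2 j) delta hdel
  choose y N hN hyP hyp hyN hyN1 hyd using hy0
  set Y : MVar n → ℤ := fun v => y v.1 v.2 with hY
  set V : Fin r → ℕ := fun j => ∏ i : {i // i ≠ i0}, N i ^ d j i with hV
  have hVpos : ∀ j, 0 < V j := fun j => Finset.prod_pos fun i _ => pow_pos (hN i) _
  have hVR : ∀ j, (0 : ℝ) < V j := fun j => by exact_mod_cast hVpos j
  set v : ∀ j, SIdx n (d j) i0 → ℤ := fun j s => vy i0 Y s with hv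
  have hvprim : ∀ j, ∃ c : SIdx n (d j) i0 → ℤ, ∑ s, c s * v j s = 1 := fun j =>
    vy_prim i0 Y fun i _ => hyP i
  have hvsup := fun j => vy_sup (n := n) (d := d j) i0 Y N (fun i a => hyN i a) hyN1
  have hvV : ∀ j (s : SIdx n (d j) i0), |v j s| ≤ V j := fun j => (hvsup j).1
  choose s0 hs0 using fun j => (hvsup j).2
  -- class theorem for the evaluated forms
  set Q : ℕ := primorial w ^ (2 * k) with hQ
  have hQpos : 1 ≤ Q := Nat.one_le_pow _ _ (primorial_pos w)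
  set AC2 : ∀ j, Idx (n i0) (d j i0) × SIdx n (d j) i0 → ℝ :=
    fun j q => AC j ((spl n (d j) i0).symm q) with hAC2
  set AI2 : ∀ j, Idx (n i0) (d j i0) × SIdx n (d j) i0 → ℝ :=
    fun j q => Ainf j ((spl n (d j) i0).symm q) with hAI2
  set A02 : ∀ j, Idx (n i0) (d j i0) × SIdx n (d j) i0 → ℤ :=
    fun j q => A0 j ((spl n (d j) i0).symm q) with hA02
  set AC' : CIHP.Sys (n i0) (fun j => d j i0) ℝ :=
    fun j t => (∑ s, AC2 j (t, s) * (v j s : ℝ)) / (Fintype.card (SIdx n (d j) i0) * V j) with hAC'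
  set AI' : CIHP.Sys (n i0) (fun j => d j i0) ℝ :=
    fun j t => (∑ s, AI2 j (t, s) * (v j s : ℝ)) / (Fintype.card (SIdx n (d j) i0) * V j) with hAI'
  -- averages
  have havg : ∀ j (a : SIdx n (d j) i0 → ℝ) (C : ℝ), (∀ s, |a s| ≤ C) →
      |(∑ s, a s * (v j s : ℝ)) / (Fintype.card (SIdx n (d j) i0) * V j)| ≤ C := by
    intro j a C ha
    have hVj := hVR j
    have hsj : (0 : ℝ) < Fintype.card (SIdx n (d j) i0) := lt_of_lt_of_le one_pos (hσR j)
    rw [abs_div, abs_of_pos (by positivity : (0 : ℝ) < Fintype.card (SIdx n (d j) i0) * V j),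
      div_le_iff₀ (by positivity)]
    calc |∑ s, a s * (v j s : ℝ)| ≤ ∑ s, |a s * (v j s : ℝ)| := Finset.abs_sum_le_sum_abs _ _
      _ ≤ ∑ _s : SIdx n (d j) i0, C * (V j : ℝ) := by
          refine Finset.sum_le_sum fun s _ => ?_
          rw [abs_mul]
          have h1 : |(v j s : ℝ)| ≤ V j := by exact_mod_cast hvV j s
          exact mul_le_mul (ha s) h1 (abs_nonneg _) ((abs_nonneg _).trans (ha s))
      _ = C * (Fintype.card (SIdx n (d j) i0) * V j) := by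
          rw [Finset.sum_const, Finset.card_univ, nsmul_eq_mul]
          ring
  -- the real point
  set Zr : MVar n → ℝ := fun u => if u.1 = i0 then z u else (Y u : ℝ) / N u.1 with hZr
  have hZrd : ∀ u, |Zr u - z u| ≤ delta := by
    rintro ⟨j, b⟩
    by_cases hj : j = i0
    · simp only [hZr, hj, if_true, sub_self, abs_zero]
      exact hdel.le
    · simp only [hZr, hj, if_false]
      exact hyd j b
  obtain ⟨hMFr, hMDr⟩ := hpert Zr hZrd
  have hxi : (fun b => z ⟨i0, b⟩) = fun b => Zr ⟨i0, b⟩ := by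
    funext b
    simp [hZr]
  have hAI'ev : AI' = fun j t => (sg j : ℝ)⁻¹ * pev i0 Ainf Zr j t := by
    funext j t
    have h1 : ev i0 (Ainf j) Zr = ev i0 (Ainf j) (fun u => (Y u : ℝ) / N u.1) := by
      refine ev_congr i0 (Ainf j) _ _ fun i b hi => ?_
      simp [hZr, hi]
    show _ = (sg j : ℝ)⁻¹ * ev i0 (Ainf j) Zr t
    rw [h1]
    simp only [hAI', ev, pc_vy_div, hAI2, hv]
    rw [div_eq_inv_mul, mul_inv, mul_assoc, Finset.mul_sum]
    congr 1
    refine Finset.sum_congr rfl fun s _ => ?_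
    rw [hV]
    field_simp
  have hFAI' : ∀ j, F (AI' j) (fun b => z ⟨i0, b⟩) = (sg j : ℝ)⁻¹ * MF (Ainf j) Zr := by
    intro j
    rw [hAI'ev, F_smul, MF_eq_F_ev i0 (Ainf j) Zr, hxi]
    rfl
  have hDAI' : (CIHP.Jac AI' (fun b => z ⟨i0, b⟩) J).det =
      (∏ j, (sg j : ℝ)⁻¹) * (PJac Ainf Zr (blk i0 J)).det := by
    rw [hAI'ev, hxi, ← jac_pev, ← Matrix.det_mul_column]
    congr 1
    ext j l
    exact D_smul ((sg j : ℝ)⁻¹) (pev i0 Ainf Zr j) (fun b => Zr ⟨i0, b⟩) (J l)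
  have hclass1 := hclass rho hrho (by linarith) k hk (pev i0 A0 Y) ?_ AC' AI'
    (fun b => z ⟨i0, b⟩) J (fun j t => havg j _ 1 fun s => hAinf _ _) ?_ (fun b => hz1 _) (hz2 i0)
    ?_ ?_ (fun j => (Fintype.card (SIdx n (d j) i0) : ℝ) * V j) ?_
  rotate_left
  · -- local data
    intro p hp hpw
    obtain ⟨hzu, hF, J', hD⟩ := hzp p hp hpw
    exact pc_local i0 p k hp hk A0 (zp p) Y hzu hF J' hD fun i => hyp i p hp hpw
  · intro j t
    have h1 : AC' j t - AI' j t = (∑ s, (AC2 j (t, s) - AI2 j (t, s)) * (v j s : ℝ)) /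
        (Fintype.card (SIdx n (d j) i0) * V j) := by
      rw [hAC', hAI']
      simp only [sub_mul, Finset.sum_sub_distrib, sub_div]
    rw [h1]
    exact havg j _ rho fun s => hACi _ _
  · intro j
    rw [hFAI', abs_mul, abs_inv, abs_of_pos (lt_of_lt_of_le one_pos (hσR j))]
    calc (sg j : ℝ)⁻¹ * |MF (Ainf j) Zr| ≤ 1 * rho0' :=
          mul_le_mul (inv_le_one_of_one_le₀ (hσR j)) (hMFr j) (abs_nonneg _) zero_le_one
      _ = rho0' := one_mul _
  · rw [hDAI', abs_mul, Finset.prod_inv_distrib, abs_inv, abs_of_pos (by linarith : (0 : ℝ) < PS)]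
    calc bet ^ r / (2 * PS) = PS⁻¹ * (bet ^ r / 2) := by
          rw [div_eq_mul_inv, mul_inv]
          ring
      _ ≤ _ := mul_le_mul_of_nonneg_left hMDr (by positivity)
  · intro j
    have hVj := hVR j
    have hsj : (0 : ℝ) < Fintype.card (SIdx n (d j) i0) := lt_of_lt_of_le one_pos (hσR j)
    positivity
  -- reduction
  have hred := preduce (T1 := fun j => Idx (n i0) (d j i0)) (S := fun j => SIdx n (d j) i0) v hvprim
    V hvV s0 hs0 Q hQpos rho hrho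
    (fun b => ¬ CIHP.Soluble (n := n i0) (e := fun j => d j i0) b)
    (fun A => ¬ PSoluble (n := n) (d := d) fun j t => A j (spl n (d j) i0 t)) ?_ AC2 A02
    (30 * 2 ^ NSv / w) (by positivity) ?_
  rotate_left
  · intro A hA hsol
    refine hA (psoluble_of_ev i0 _ Y (fun j _ => hyP j) ?_)
    have : pev i0 (fun j t => A j (spl n (d j) i0 t)) Y = fun j t => ∑ s, A j (t, s) * v j s := by
      funext j t
      simp only [pev, ev, Equiv.apply_symm_apply]
      rfl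
    rw [this]
    exact hsol
  · refine hclass1.mono fun H hH => ?_
    refine le_trans (le_of_eq ?_) (hH.trans (le_of_eq ?_))
    · refine congrArg (fun X : Set (∀ j, Idx (n i0) (d j i0) → ℤ) => (X.ncard : ℝ)) ?_
      have hQz : (Q : ℤ) = (primorial w : ℤ) ^ (2 * k) := by rw [hQ]; push_cast; rfl
      rw [hQz]
      rfl
    · rw [hQ]
      push_cast
      rfl
  refine hred.mono fun H hH => ?_
  have hcardM : NP n d = ∑ j, Fintype.card (Idx (n i0) (d j i0) × SIdx n (d j) i0) :=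
    Finset.sum_congr rfl fun j _ => Fintype.card_congr (spl n (d j) i0)
  rw [hcardM]
  have hQc : (primorial w : ℝ) ^ (2 * k) = Q := by rw [hQ]; push_cast; rfl
  rw [hQc]
  refine le_trans ?_ (hH.trans (le_of_eq (by ring)))
  -- transport
  set Φ : PSys n d ℤ → (∀ j, Idx (n i0) (d j i0) × SIdx n (d j) i0 → ℤ) :=
    fun A j q => A j ((spl n (d j) i0).symm q) with hΦ
  have hΦinj : Function.Injective Φ := by
    intro A A' h
    funext j t
    have := congrFun (congrFun h j) (spl n (d j) i0 t)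
    simpa [hΦ] using this
  have hfin : {A : ∀ j, Idx (n i0) (d j i0) × SIdx n (d j) i0 → ℤ |
      (∀ j t, |(A j t : ℝ) - H * AC2 j t| ≤ rho * H) ∧
      (∀ j t, (Q : ℤ) ∣ A j t - A02 j t) ∧
      ¬ PSoluble (n := n) (d := d) fun j t => A j (spl n (d j) i0 t)}.Finite := by
    refine (Set.Finite.pi' fun j => red_fin (fun t => H * AC2 j t) (rho * H)).subset ?_
    intro A hA j
    exact hA.1 j
  have hsub : Φ '' {A : PSys n d ℤ | (∀ j t, |(A j t : ℝ) - H * AC j t| ≤ rho * H) ∧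
      (∀ j t, ((primorial w : ℤ) ^ (2 * k)) ∣ A j t - A0 j t) ∧ ¬ PSoluble A} ⊆
      {A : ∀ j, Idx (n i0) (d j i0) × SIdx n (d j) i0 → ℤ |
      (∀ j t, |(A j t : ℝ) - H * AC2 j t| ≤ rho * H) ∧
      (∀ j t, (Q : ℤ) ∣ A j t - A02 j t) ∧
      ¬ PSoluble (n := n) (d := d) fun j t => A j (spl n (d j) i0 t)} := by
    rintro _ ⟨A, ⟨hA1, hA2, hA3⟩, rfl⟩
    refine ⟨fun j t => hA1 _ _, fun j t => ?_, ?_⟩
    · have := hA2 j ((spl n (d j) i0).symm t)
      rw [hQ]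
      push_cast
      exact this
    · have : (fun j t => Φ A j (spl n (d j) i0 t)) = A := by
        funext j t
        simp [hΦ]
      rw [this]
      exact hA3
  have h1 := Set.ncard_le_ncard hsub hfin
  rw [Set.ncard_image_of_injective _ hΦinj] at h1
  exact_mod_cast h1

end multi

end CIPHP
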