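import Pool.Agent.Lib.MP_e426f4_ag.M.Defs
import Pool.Agent.Lib.MP_e426f4_ag.CI.Defs

/-!
# Systems of multihomogeneous forms: definitions

Blocks are indexed by a finite type `ι`; block `i` has the `n i + 1` variables `z ⟨i, a⟩`.  A system
consists of `r` forms, the `j`-th of multidegree `(d j i)`.
-/

namespace CIPHP

open Finset Filter Topology GenHP

section multi
variable {ι : Type} [Fintype ι] [DecidableEq ι]

/-- Coefficient vectors of systems of `r` forms, the `j`-th of multidegree `d j`. -/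
abbrev PSys (n : ι → ℕ) {r : ℕ} (d : Fin r → ι → ℕ) (R : Type*) : Type _ :=
  (j : Fin r) → MIdx n (d j) → R

/-- Number of coefficients. -/
def NP (n : ι → ℕ) {r : ℕ} (d : Fin r → ι → ℕ) : ℕ := ∑ j, NM n (d j)

variable {n : ι → ℕ} {r : ℕ} {d : Fin r → ι → ℕ}

/-- The `r × r` block of the Jacobian matrix with columns `J`. -/
def PJac {R : Type*} [CommRing R] (A : PSys n d R) (z : MVar n → R) (J : Fin r → MVar n) :
    Matrix (Fin r) (Fin r) R :=
  Matrix.of fun j l => MD (A j) z (J l)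

/-- columns in block `i0` -/
def blk (i0 : ι) (J : Fin r → Fin (n i0 + 1)) : Fin r → MVar n := fun l => ⟨i0, J l⟩

/-- The box `[-H, H]^NP` of systems. -/
def pbox (n : ι → ℕ) {r : ℕ} (d : Fin r → ι → ℕ) (H : ℕ) : Set (PSys n d ℤ) :=
  {A | ∀ j t, |A j t| ≤ H}

/-- The system has a rational zero. -/
def PSoluble (A : PSys n d ℤ) : Prop :=
  ∃ z : MVar n → ℚ, BNZ z ∧ ∀ j, MF (fun t => (A j t : ℚ)) z = 0

/-- The system is everywhere locally soluble. -/
def PELS (A : PSys n d ℤ) : Prop :=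
  (∃ z : MVar n → ℝ, BNZ z ∧ ∀ j, MF (fun t => (A j t : ℝ)) z = 0) ∧
    ∀ (p : ℕ) [Fact p.Prime], ∃ z : MVar n → ℚ_[p], BNZ z ∧
      ∀ j, MF (fun t => (A j t : ℚ_[p])) z = 0

/-- The system defines a smooth complete intersection. -/
def PSmooth (A : PSys n d ℤ) : Prop :=
  ∀ z : MVar n → ℂ, BNZ z → (∀ j, MF (fun t => (A j t : ℂ)) z = 0) →
    LinearIndependent ℂ fun j : Fin r => fun v : MVar n => MD (fun t => (A j t : ℂ)) z v

/-- A good `p`-adic point modulo `p ^ (2 k)` with respect to block `i0`. -/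
def PGoodP (i0 : ι) (p k : ℕ) (A : PSys n d ℤ) : Prop :=
  ∃ z : MVar n → ℤ, BUnit p z ∧ (∀ j, (p : ℤ) ^ (2 * k) ∣ MF (A j) z) ∧
    ∃ J : Fin r → Fin (n i0 + 1), ¬ (p : ℤ) ^ k ∣ (PJac A z (blk i0 J)).det

/-- A good real point with respect to block `i0`. -/
def PGoodR (i0 : ι) (f g : ℝ) (A : PSys n d ℝ) : Prop :=
  ∃ z : MVar n → ℝ, BNorm z ∧ (∀ j, |MF (A j) z| ≤ f) ∧
    ∃ J : Fin r → Fin (n i0 + 1), g ^ r ≤ |(PJac A z (blk i0 J)).det|

/-- The class theorem with respect to block `i0`: in every class of systems with good local points at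
the real place and at all primes `≤ w`, all but a proportion `C / w` are soluble. -/
def PCLS (n : ι → ℕ) {r : ℕ} (d : Fin r → ι → ℕ) (i0 : ι) : Prop :=
  ∃ C : ℝ, 0 < C ∧ ∀ w : ℕ, 2 ≤ w → ∀ bet : ℝ, 0 < bet → bet ≤ 1 →
    ∃ rho0 : ℝ, 0 < rho0 ∧ rho0 ≤ 1 ∧ ∀ rho : ℝ, 0 < rho → rho ≤ rho0 → ∀ k : ℕ, 1 ≤ k →
      ∀ A0 : PSys n d ℤ, (∀ p : ℕ, p.Prime → p ≤ w → PGoodP i0 p k A0) →
      ∀ AC Ainf : PSys n d ℝ, (∀ j t, |Ainf j t| ≤ 1) → (∀ j t, |AC j t - Ainf j t| ≤ rho) →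
      PGoodR i0 rho0 bet Ainf →
      ∀ᶠ H : ℝ in atTop,
        (Set.ncard {A : PSys n d ℤ | (∀ j t, |(A j t : ℝ) - H * AC j t| ≤ rho * H) ∧
          (∀ j t, ((primorial w : ℤ) ^ (2 * k)) ∣ A j t - A0 j t) ∧ ¬ PSoluble A} : ℝ) ≤
          C / w * (2 * rho * H / (primorial w : ℝ) ^ (2 * k)) ^ NP n d

/-- Evaluation of the blocks different from `i0`: a system of forms of degrees `d j i0` in the
variables of block `i0`. -/
def pev (i0 : ι) {R : Type*} [CommRing R] (A : PSys n d R) (z : MVar n → R) :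
    CIHP.Sys (n i0) (fun j => d j i0) R :=
  fun j => ev i0 (A j) z

end multi

end CIPHP
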