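import Mathlib

/-! Module P-TRI: triangular systems. -/

namespace CIPHP

open Finset

private theorem tc_prod_ite {I : Type*} [Fintype I] [DecidableEq I] (K : Finset I) (c : ℕ) :
    ∏ t : I, (if t ∈ K then c else 1) = c ^ K.card := by
  rw [Finset.prod_ite_mem, Finset.univ_inter, Finset.prod_const]

/-- a set of vectors which agree off `T` -/
private theorem tc_fibre {I : Type*} [Fintype I] [DecidableEq I] (T : Finset I) (S : Finset (I → ℤ))
    (N : ℕ) (hag : ∀ A ∈ S, ∀ A' ∈ S, ∀ t, t ∉ T → A t = A' t)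
    (h : ∀ t ∈ T, (S.image fun A => A t).card ≤ N) : S.card ≤ N ^ T.card := by
  classical
  rcases S.eq_empty_or_nonempty with rfl | ⟨A0, hA0⟩
  · simp
  have hsub : S ⊆ Fintype.piFinset fun t => if t ∈ T then S.image (fun A => A t) else {A0 t} := by
    intro A hA
    rw [Fintype.mem_piFinset]
    intro t
    split_ifs with ht
    · exact Finset.mem_image.mpr ⟨A, hA, rfl⟩
    · rw [Finset.mem_singleton]
      exact hag A hA A0 hA0 t ht
  refine (Finset.card_le_card hsub).trans ?_
  rw [Fintype.card_piFinset, ← tc_prod_ite T N]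
  refine Finset.prod_le_prod' fun t _ => ?_
  split_ifs with ht
  · exact h t ht
  · simp

theorem tri_count2 {I : Type*} [Fintype I] [DecidableEq I] (J T : Finset I)
    (hJT : Disjoint J T) (H : ℕ) (S : Finset (I → ℤ)) (hS : ∀ A ∈ S, ∀ t, |A t| ≤ H) (N1 N2 : ℕ)
    (h1 : ∀ a ∈ J, ∀ S' ⊆ S, (∀ A ∈ S', ∀ A' ∈ S', ∀ t, t ∉ J → t ∉ T → A t = A' t) →
      (S'.image fun A => A a).card ≤ N1)
    (h0 : ∀ a ∈ T, ∀ S' ⊆ S, (∀ A ∈ S', ∀ A' ∈ S', ∀ t, t ∉ T → A t = A' t) →
      (S'.image fun A => A a).card ≤ N2) :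
    S.card ≤ (2 * H + 1) ^ (Fintype.card I - (J.card + T.card)) * (N1 ^ J.card * N2 ^ T.card) := by
  classical
  set K : Finset I := (J ∪ T)ᶜ with hK
  have hKcard : K.card = Fintype.card I - (J.card + T.card) := by
    rw [hK, Finset.card_compl, Finset.card_union_of_disjoint hJT]
  have memK : ∀ t, t ∈ K ↔ t ∉ J ∧ t ∉ T := by
    intro t
    simp [hK]
  have hJT' : ∀ t, t ∈ J → t ∉ T := fun t ht ht' => (Finset.disjoint_left.mp hJT) ht ht'
  -- fibres over the values off `T`
  have step0 : ∀ S' ⊆ S, (∀ A ∈ S', ∀ A' ∈ S', ∀ t, t ∉ T → A t = A' t) →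
      S'.card ≤ N2 ^ T.card := fun S' hS' hag => tc_fibre T S' N2 hag fun t ht => h0 t ht S' hS' hag
  -- fibres over the values off `J` and `T`
  have step1 : ∀ S' ⊆ S, (∀ A ∈ S', ∀ A' ∈ S', ∀ t, t ∉ J → t ∉ T → A t = A' t) →
      S'.card ≤ N1 ^ J.card * N2 ^ T.card := by
    intro S' hS' hagree
    let σ : (I → ℤ) → I → ℤ := fun A t => if t ∈ T then 0 else A t
    have e1 := Finset.card_le_mul_card_image (f := σ) S' (N2 ^ T.card) (by
      intro r _
      apply step0
      · exact (Finset.filter_subset _ _).trans hS'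
      · intro A hA A' hA' t ht
        rw [Finset.mem_filter] at hA hA'
        have := congrFun (hA.2.trans hA'.2.symm) t
        simpa [σ, ht] using this)
    have e2 : (S'.image σ).card ≤ N1 ^ J.card := by
      apply tc_fibre J
      · intro B hB B' hB' t ht
        obtain ⟨A, hA, rfl⟩ := Finset.mem_image.mp hB
        obtain ⟨A', hA', rfl⟩ := Finset.mem_image.mp hB'
        by_cases htT : t ∈ T
        · simp [σ, htT]
        · simp only [σ, if_neg htT]
          exact hagree A hA A' hA' t ht htT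
      · intro t ht
        have hs : ((S'.image σ).image fun A => A t) ⊆ S'.image fun A => A t := by
          intro v hv
          obtain ⟨B, hB, rfl⟩ := Finset.mem_image.mp hv
          obtain ⟨A, hA, rfl⟩ := Finset.mem_image.mp hB
          refine Finset.mem_image.mpr ⟨A, hA, ?_⟩
          simp [σ, hJT' t ht]
        exact (Finset.card_le_card hs).trans (h1 t ht S' hS' hagree)
    calc S'.card ≤ N2 ^ T.card * (S'.image σ).card := e1
      _ ≤ N2 ^ T.card * N1 ^ J.card := Nat.mul_le_mul_left _ e2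
      _ = N1 ^ J.card * N2 ^ T.card := Nat.mul_comm _ _
  let ρ : (I → ℤ) → I → ℤ := fun A t => if t ∈ K then A t else 0
  have e1 := Finset.card_le_mul_card_image (f := ρ) S (N1 ^ J.card * N2 ^ T.card) (by
    intro r _
    apply step1
    · exact Finset.filter_subset _ _
    · intro A hA A' hA' t ht ht'
      rw [Finset.mem_filter] at hA hA'
      have := congrFun (hA.2.trans hA'.2.symm) t
      have htK : t ∈ K := (memK t).mpr ⟨ht, ht'⟩
      simpa [ρ, htK] using this)
  have e2 : (S.image ρ).card ≤ (2 * H + 1) ^ K.card := by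
    have hsub : S.image ρ ⊆ Fintype.piFinset fun t => if t ∈ K then Icc (-(H : ℤ)) H else {0} := by
      intro B hB
      rw [Finset.mem_image] at hB
      obtain ⟨A, hA, rfl⟩ := hB
      rw [Fintype.mem_piFinset]
      intro t
      by_cases ht : t ∈ K
      · simp only [ρ, ht, if_true, Finset.mem_Icc]
        exact abs_le.mp (hS A hA t)
      · simp [ρ, ht]
    refine (Finset.card_le_card hsub).trans ?_
    rw [Fintype.card_piFinset, ← tc_prod_ite K (2 * H + 1)]
    refine Finset.prod_le_prod' fun t _ => ?_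
    split_ifs with ht
    · rw [Int.card_Icc]
      omega
    · simp
  calc S.card ≤ (N1 ^ J.card * N2 ^ T.card) * (S.image ρ).card := e1
    _ ≤ (N1 ^ J.card * N2 ^ T.card) * (2 * H + 1) ^ K.card := Nat.mul_le_mul_left _ e2
    _ = (2 * H + 1) ^ (Fintype.card I - (J.card + T.card)) * (N1 ^ J.card * N2 ^ T.card) := by
        rw [hKcard]; ring

end CIPHP
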