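import Pool.Agent.Lib.MP_e426f4_ag.P.Alg
import Pool.Agent.Lib.MP_e426f4_ag.P.TriCount
import Pool.Agent.Lib.MP_e426f4_ag.M.Spec
import Pool.Agent.Lib.MP_e426f4_ag.M.CondAux

/-! Auxiliary lemmas for the modules P-CP and P-CR. -/

namespace CIPHP

open Finset Filter Topology GenHP

section multi
variable {ι : Type} [Fintype ι] [DecidableEq ι] {n : ι → ℕ} {r : ℕ} {d : Fin r → ι → ℕ}

/-- difference of the combinations of the derivatives of two systems which agree off the special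
coefficients -/
theorem pca_MD_diff {R : Type*} [CommRing R] (hd : ∀ j i, 1 ≤ d j i) (τ : ∀ i, Fin (n i + 1))
    (z : MVar n → R) (U : Finset (MVar n)) (hU : ∀ v ∈ U, v.2 ≠ τ v.1) (v : MVar n) (hv : v ∈ U)
    (c : Fin r → R) (j0 : Fin r) (A A' : PSys n d R)
    (h : ∀ t, t ∉ U.image (fun v => (ms1 τ v : MIdx n (d j0))) → t ≠ ms0 τ → A j0 t = A' j0 t)
    (h' : ∀ j, j ≠ j0 → ∀ t, t ≠ ms0 τ → A j t = A' j t) :
    ∑ j, c j * MD (A j) z v - ∑ j, c j * MD (A' j) z v =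
      (A j0 (ms1 τ v) - A' j0 (ms1 τ v)) *
        (c j0 * dmon z v (mex (ms1 τ v : MIdx n (d j0)))) := by
  rw [← Finset.sum_sub_distrib, Finset.sum_eq_single j0]
  · rw [← mul_sub, cond_MD_diff τ z U hU v hv (A j0) (A' j0) h]
    ring
  · intro j _ hj
    rw [← mul_sub, cond_MD_diff τ z U hU v hv (A j) (A' j) (fun t _ ht => h' j hj t ht),
      h' j hj _ (ms1_ne_ms0 (hd j) τ v (hU v hv)), sub_self, zero_mul, mul_zero]
  · intro hj
    exact absurd (Finset.mem_univ _) hj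

/-- the count of systems under two triangular conditions -/
theorem pca_count (hd : ∀ j i, 1 ≤ d j i) (τ : ∀ i, Fin (n i + 1)) (U : Finset (MVar n))
    (hU : ∀ v ∈ U, v.2 ≠ τ v.1) (j0 : Fin r) (H : ℕ) (P : PSys n d ℤ → Prop) (N1 N2 : ℕ)
    (R1 R2 : ℤ → ℤ → Prop)
    (hN1 : ∀ Z : Finset ℤ, (∀ a ∈ Z, |a| ≤ H) → (∀ a ∈ Z, ∀ b ∈ Z, R1 a b) → Z.card ≤ N1)
    (hN2 : ∀ Z : Finset ℤ, (∀ a ∈ Z, |a| ≤ H) → (∀ a ∈ Z, ∀ b ∈ Z, R2 a b) → Z.card ≤ N2)
    (h1 : ∀ v ∈ U, ∀ A A' : PSys n d ℤ, P A → P A' →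
      (∀ t, t ∉ U.image (fun v => (ms1 τ v : MIdx n (d j0))) → t ≠ ms0 τ → A j0 t = A' j0 t) →
      (∀ j, j ≠ j0 → ∀ t, t ≠ ms0 τ → A j t = A' j t) →
      R1 (A j0 (ms1 τ v)) (A' j0 (ms1 τ v)))
    (h2 : ∀ j, ∀ A A' : PSys n d ℤ, P A → P A' → (∀ j t, t ≠ ms0 τ → A j t = A' j t) →
      R2 (A j (ms0 τ)) (A' j (ms0 τ))) :
    Set.ncard {A : PSys n d ℤ | A ∈ pbox n d H ∧ P A} ≤
      (2 * H + 1) ^ (NP n d - (U.card + r)) * (N1 ^ U.card * N2 ^ r) ∧
      U.card + r ≤ NP n d := by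
  classical
  set E : ((x : Σ j : Fin r, MIdx n (d j)) → ℤ) ≃ PSys n d ℤ :=
    Equiv.piCurry (fun (j : Fin r) (_ : MIdx n (d j)) => ℤ) with hE
  have hEapp : ∀ (f : (x : Σ j : Fin r, MIdx n (d j)) → ℤ) (j : Fin r) (t : MIdx n (d j)),
      E f j t = f ⟨j, t⟩ := fun f j t => rfl
  have hfin := pbox_finite (n := n) (d := d) H P
  set S : Finset ((x : Σ j : Fin r, MIdx n (d j)) → ℤ) := hfin.toFinset.map E.symm.toEmbedding
    with hS
  have memS : ∀ f, f ∈ S ↔ (∀ j t, |f ⟨j, t⟩| ≤ H) ∧ P (E f) := by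
    intro f
    rw [hS, Finset.mem_map]
    constructor
    · rintro ⟨A, hA, rfl⟩
      rw [Set.Finite.mem_toFinset] at hA
      refine ⟨fun j t => hA.1 j t, ?_⟩
      have h3 : E (E.symm.toEmbedding A) = A := E.apply_symm_apply A
      rw [h3]
      exact hA.2
    · rintro ⟨hf1, hf2⟩
      refine ⟨E f, ?_, E.symm_apply_apply f⟩
      rw [Set.Finite.mem_toFinset]
      exact ⟨fun j t => hf1 j t, hf2⟩
  have hcard : Set.ncard {A : PSys n d ℤ | A ∈ pbox n d H ∧ P A} = S.card := by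
    rw [hS, Finset.card_map, Set.ncard_eq_toFinset_card _ hfin]
  set J : Finset (Σ j : Fin r, MIdx n (d j)) := U.image fun v => ⟨j0, ms1 τ v⟩ with hJ
  set T : Finset (Σ j : Fin r, MIdx n (d j)) := Finset.univ.image fun j => ⟨j, ms0 τ⟩ with hT
  have memJ : ∀ j t, (⟨j, t⟩ : Σ j : Fin r, MIdx n (d j)) ∈ J ↔
      ∃ v ∈ U, (⟨j0, ms1 τ v⟩ : Σ j : Fin r, MIdx n (d j)) = ⟨j, t⟩ := by
    intro j t
    rw [hJ, Finset.mem_image]
  have memT : ∀ j t, (⟨j, t⟩ : Σ j : Fin r, MIdx n (d j)) ∈ T ↔ t = ms0 τ := by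
    intro j t
    rw [hT, Finset.mem_image]
    constructor
    · rintro ⟨j', _, h⟩
      simp only [Sigma.mk.injEq] at h
      obtain ⟨rfl, h⟩ := h
      exact (eq_of_heq h).symm
    · rintro rfl
      exact ⟨j, Finset.mem_univ _, rfl⟩
  have hJcard : J.card = U.card := by
    rw [hJ]
    refine Finset.card_image_of_injOn fun v hv v' hv' h => ?_
    simp only [Sigma.mk.injEq, heq_eq_eq, true_and] at h
    exact ms1_inj (hd j0) τ v v' (hU v hv) (hU v' hv') h
  have hTcard : T.card = r := by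
    rw [hT, Finset.card_image_of_injective, Finset.card_univ, Fintype.card_fin]
    intro j j' h
    exact congrArg Sigma.fst h
  have hJT : Disjoint J T := by
    rw [Finset.disjoint_left]
    rintro ⟨j, t⟩ hj ht
    rw [memT] at ht
    obtain ⟨v, hv, h⟩ := (memJ j t).mp hj
    simp only [Sigma.mk.injEq] at h
    obtain ⟨rfl, h⟩ := h
    have h' := eq_of_heq h
    rw [ht] at h'
    exact ms1_ne_ms0 (hd j0) τ v (hU v hv) h'
  have hmain := tri_count2 J T hJT H S (by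
      rintro f hf ⟨j, t⟩
      exact ((memS f).mp hf).1 j t) N1 N2 (by
    intro a ha S' hS' hag
    obtain ⟨v, hv, rfl⟩ := Finset.mem_image.mp ha
    apply hN1
    · intro x hx
      obtain ⟨f, hf, rfl⟩ := Finset.mem_image.mp hx
      exact ((memS f).mp (hS' hf)).1 _ _
    · intro x hx y hy
      obtain ⟨f, hf, rfl⟩ := Finset.mem_image.mp hx
      obtain ⟨f', hf', rfl⟩ := Finset.mem_image.mp hy
      refine h1 v hv (E f) (E f') ((memS f).mp (hS' hf)).2 ((memS f').mp (hS' hf')).2 ?_ ?_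
      · intro t ht1 ht2
        refine hag f hf f' hf' ⟨j0, t⟩ ?_ ?_
        · rw [memJ]
          rintro ⟨v', hv', h⟩
          simp only [Sigma.mk.injEq, heq_eq_eq, true_and] at h
          exact ht1 (Finset.mem_image.mpr ⟨v', hv', h⟩)
        · rw [memT]
          exact ht2
      · intro j hj t ht
        refine hag f hf f' hf' ⟨j, t⟩ ?_ ?_
        · rw [memJ]
          rintro ⟨v', hv', h⟩
          exact hj (congrArg Sigma.fst h).symm
        · rw [memT]
          exact ht) (by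
    intro a ha S' hS' hag
    obtain ⟨j, _, rfl⟩ := Finset.mem_image.mp ha
    apply hN2
    · intro x hx
      obtain ⟨f, hf, rfl⟩ := Finset.mem_image.mp hx
      exact ((memS f).mp (hS' hf)).1 _ _
    · intro x hx y hy
      obtain ⟨f, hf, rfl⟩ := Finset.mem_image.mp hx
      obtain ⟨f', hf', rfl⟩ := Finset.mem_image.mp hy
      refine h2 j (E f) (E f') ((memS f).mp (hS' hf)).2 ((memS f').mp (hS' hf')).2 ?_
      intro j t ht
      refine hag f hf f' hf' ⟨j, t⟩ ?_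
      rw [memT]
      exact ht)
  rw [hJcard, hTcard, card_sigma_NP] at hmain
  refine ⟨hcard ▸ hmain, ?_⟩
  have h3 : (J ∪ T).card ≤ Fintype.card (Σ j : Fin r, MIdx n (d j)) := Finset.card_le_univ _
  rw [Finset.card_union_of_disjoint hJT, hJcard, hTcard, card_sigma_NP] at h3
  exact h3

end multi

end CIPHP
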