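import Pool.Agent.Lib.MP_e426f4_ag.P.Alg
import Pool.Agent.Lib.MP_e426f4_ag.P.TriCount
import Pool.Agent.Lib.MP_e426f4_ag.P.CondAux
import Pool.Agent.Lib.MP_e426f4_ag.M.Spec
import Pool.Agent.Lib.MP_e426f4_ag.M.CondAux

/-! Module P-CP: number of systems satisfying congruence conditions at a point. -/

namespace CIPHP

open Finset Filter Topology GenHP

/-- integers of `[-H, H]` in one residue class -/
private theorem cp_card (H m : ℕ) (hm : 0 < m) (T : Finset ℤ) (hT : ∀ a ∈ T, |a| ≤ H)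
    (hT2 : ∀ a ∈ T, ∀ b ∈ T, (m : ℤ) ∣ a - b) : T.card ≤ (2 * H + 1) / m + 1 := by
  have hm' : (0 : ℤ) < m := by exact_mod_cast hm
  have h1 : T.card ≤ (Finset.range ((2 * H + 1) / m + 1)).card := by
    refine Finset.card_le_card_of_injOn (fun a => ((a + H) / m).toNat) ?_ ?_
    · intro a ha
      have h2 := abs_le.mp (hT a ha)
      simp only [Finset.coe_range, Set.mem_Iio]
      have h3 : (0 : ℤ) ≤ (a + H) / m := Int.ediv_nonneg (by linarith [h2.1]) hm'.le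
      have h4 : (a + H) / m ≤ (2 * H + 1 : ℤ) / m := Int.ediv_le_ediv hm' (by linarith [h2.2])
      have h5 : ((2 * H + 1 : ℤ)) / m = (((2 * H + 1) / m : ℕ) : ℤ) := by push_cast; rfl
      rw [h5] at h4
      omega
    · intro a ha b hb hab
      have h2 := abs_le.mp (hT a ha)
      have h3 := abs_le.mp (hT b hb)
      have h4 : (0 : ℤ) ≤ (a + H) / m := Int.ediv_nonneg (by linarith [h2.1]) hm'.le
      have h5 : (0 : ℤ) ≤ (b + H) / m := Int.ediv_nonneg (by linarith [h3.1]) hm'.le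
      have h6 : (a + H) / m = (b + H) / m := by
        have h7 : ((a + H) / m).toNat = ((b + H) / m).toNat := hab
        omega
      have h8 : (a + H) % m = (b + H) % m :=
        Int.emod_eq_emod_iff_emod_sub_eq_zero.mpr (Int.emod_eq_zero_of_dvd (by
          have := hT2 a ha b hb
          convert this using 1
          ring))
      have h9 : a + H = b + H := by
        rw [← Int.mul_ediv_add_emod (a + H) m, ← Int.mul_ediv_add_emod (b + H) m, h6, h8]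
      linarith
  rwa [Finset.card_range] at h1

section multi
variable {ι : Type} [Fintype ι] [DecidableEq ι] {n : ι → ℕ} {r : ℕ} {d : Fin r → ι → ℕ}

private theorem cp_prime_prod {p : ℤ} (hp : Prime p) {κ : Type*} (s : Finset κ) (f : κ → ℤ)
    (e : κ → ℕ) (hf : ∀ i ∈ s, ¬ p ∣ f i) : ¬ p ∣ ∏ i ∈ s, f i ^ e i := by
  rw [Prime.dvd_finsetProd_iff hp]
  rintro ⟨i, hi, h⟩
  exact hf i hi (hp.dvd_of_dvd_pow h)

/-- the number of systems with given conditions at a point -/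
private theorem cp_count (hd : ∀ j i, 1 ≤ d j i) (p : ℕ) (hp : p.Prime) (k1 k2 H : ℕ)
    (τ : ∀ i, Fin (n i + 1)) (z : MVar n → ℤ) (hz : ∀ i, ¬ (p : ℤ) ∣ z ⟨i, τ i⟩)
    (c : Fin r → ℤ) (j0 : Fin r) (hc : ¬ (p : ℤ) ∣ c j0)
    (U : Finset (MVar n)) (hU : ∀ v ∈ U, v.2 ≠ τ v.1) :
    Set.ncard {A : PSys n d ℤ | A ∈ pbox n d H ∧ ((∀ j, (p : ℤ) ^ k2 ∣ MF (A j) z) ∧
        ∀ v ∈ U, (p : ℤ) ^ k1 ∣ ∑ j, c j * MD (A j) z v)} ≤
      (2 * H + 1) ^ (NP n d - (U.card + r)) * (((2 * H + 1) / p ^ k1 + 1) ^ U.card *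
        ((2 * H + 1) / p ^ k2 + 1) ^ r) ∧ U.card + r ≤ NP n d := by
  have hpp : Prime (p : ℤ) := Nat.prime_iff_prime_int.mp hp
  refine pca_count hd τ U hU j0 H _ _ _ (fun a b => (p : ℤ) ^ k1 ∣ a - b)
    (fun a b => (p : ℤ) ^ k2 ∣ a - b) ?_ ?_ ?_ ?_
  · intro Z hZ hZ2
    refine cp_card H (p ^ k1) (pow_pos hp.pos k1) Z hZ fun a ha b hb => ?_
    exact_mod_cast hZ2 a ha b hb
  · intro Z hZ hZ2
    refine cp_card H (p ^ k2) (pow_pos hp.pos k2) Z hZ fun a ha b hb => ?_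
    exact_mod_cast hZ2 a ha b hb
  · intro v hv A A' hA hA' h h'
    have h3 : (p : ℤ) ^ k1 ∣ ∑ j, c j * MD (A j) z v - ∑ j, c j * MD (A' j) z v :=
      dvd_sub (hA.2 v hv) (hA'.2 v hv)
    rw [pca_MD_diff hd τ z U hU v hv c j0 A A' h h', dmon_ms1 (hd j0) τ z v (hU v hv)] at h3
    have h5 : ¬ (p : ℤ) ∣ (c j0 *
        (z ⟨v.1, τ v.1⟩ ^ (d j0 v.1 - 1) * ∏ i ∈ univ.erase v.1, z ⟨i, τ i⟩ ^ d j0 i)) := by
      intro h6
      rcases hpp.dvd_or_dvd h6 with h7 | h6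
      · exact hc h7
      · rcases hpp.dvd_or_dvd h6 with h7 | h7
        · exact hz v.1 (hpp.dvd_of_dvd_pow h7)
        · exact cp_prime_prod hpp _ (fun i => z ⟨i, τ i⟩) (d j0) (fun i _ => hz i) h7
    have h6 : IsCoprime ((p : ℤ) ^ k1) (c j0 *
        (z ⟨v.1, τ v.1⟩ ^ (d j0 v.1 - 1) * ∏ i ∈ univ.erase v.1, z ⟨i, τ i⟩ ^ d j0 i)) :=
      IsCoprime.pow_left (hpp.coprime_iff_not_dvd.mpr h5)
    exact h6.dvd_of_dvd_mul_right h3
  · intro j A A' hA hA' h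
    have h3 : (p : ℤ) ^ k2 ∣ MF (A j) z - MF (A' j) z := dvd_sub (hA.1 j) (hA'.1 j)
    rw [cond_MF_diff τ z (A j) (A' j) (fun t ht => h j t ht)] at h3
    have h5 : ¬ (p : ℤ) ∣ ∏ i, z ⟨i, τ i⟩ ^ d j i :=
      cp_prime_prod hpp _ (fun i => z ⟨i, τ i⟩) (d j) (fun i _ => hz i)
    have h6 : IsCoprime ((p : ℤ) ^ k2) (∏ i, z ⟨i, τ i⟩ ^ d j i) :=
      IsCoprime.pow_left (hpp.coprime_iff_not_dvd.mpr h5)
    exact h6.dvd_of_dvd_mul_right h3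

theorem pcond_p (hd : ∀ j i, 1 ≤ d j i) (p : ℕ) (hp : p.Prime) (k1 k2 : ℕ) :
    ∀ᶠ H : ℕ in atTop, ∀ (τ : ∀ i, Fin (n i + 1)) (z : MVar n → ℤ),
      (∀ i, ¬ (p : ℤ) ∣ z ⟨i, τ i⟩) → ∀ (c : Fin r → ℤ) (j0 : Fin r), ¬ (p : ℤ) ∣ c j0 →
      ∀ U : Finset (MVar n), (∀ v ∈ U, v.2 ≠ τ v.1) →
      (Set.ncard {A : PSys n d ℤ | A ∈ pbox n d H ∧ (∀ j, (p : ℤ) ^ k2 ∣ MF (A j) z) ∧
        ∀ v ∈ U, (p : ℤ) ^ k1 ∣ ∑ j, c j * MD (A j) z v} : ℝ) ≤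
        2 * (2 * H + 1) ^ NP n d / (p : ℝ) ^ (k2 * r + k1 * U.card) := by
  have hpR : (1 : ℝ) ≤ p := by exact_mod_cast hp.pos
  have hp0 : (0 : ℝ) < p := by linarith
  set K : ℕ := Fintype.card (MVar n) + r with hK
  -- the factor of loss tends to one
  have hlim : Tendsto (fun H : ℕ => (1 + (p : ℝ) ^ (k1 + k2) / (2 * H + 1)) ^ K) atTop
      (𝓝 ((1 + 0) ^ K)) := by
    refine Tendsto.pow (Tendsto.const_add _ ?_) K
    refine Tendsto.div_atTop tendsto_const_nhds ?_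
    refine tendsto_atTop_add_const_right _ _ (Tendsto.const_mul_atTop (by norm_num) ?_)
    exact tendsto_natCast_atTop_atTop
  have hev : ∀ᶠ H : ℕ in atTop, (1 + (p : ℝ) ^ (k1 + k2) / (2 * H + 1)) ^ K ≤ 2 := by
    have h12 : ((1 : ℝ) + 0) ^ K < 2 := by
      rw [add_zero, one_pow]; norm_num
    refine (hlim.eventually (gt_mem_nhds h12)).mono ?_
    intro H hH
    exact hH.le
  filter_upwards [hev] with H hH τ z hz c j0 hc U hU
  obtain ⟨h1, h2⟩ := cp_count hd p hp k1 k2 H τ z hz c j0 hc U hU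
  have hH0 : (0 : ℝ) < 2 * H + 1 := by positivity
  have hUK : U.card + r ≤ K := by
    have := Finset.card_le_univ U
    omega
  set E : ℝ := 1 + (p : ℝ) ^ (k1 + k2) / (2 * H + 1) with hE
  have hE1 : 1 ≤ E := by
    rw [hE]
    have : 0 ≤ (p : ℝ) ^ (k1 + k2) / (2 * H + 1) := by positivity
    linarith
  have hN : ∀ k : ℕ, k ≤ k1 + k2 →
      (((2 * H + 1) / p ^ k + 1 : ℕ) : ℝ) ≤ (2 * H + 1) / (p : ℝ) ^ k * E := by
    intro k hk
    have h3 : (((2 * H + 1) / p ^ k : ℕ) : ℝ) ≤ ((2 * H + 1 : ℕ) : ℝ) / ((p ^ k : ℕ) : ℝ) :=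
      Nat.cast_div_le
    push_cast at h3 ⊢
    have hq : (0 : ℝ) < (p : ℝ) ^ k := by positivity
    have h4 : (2 * (H : ℝ) + 1) / (p : ℝ) ^ k * E =
        (2 * H + 1) / (p : ℝ) ^ k + (p : ℝ) ^ (k1 + k2) / (p : ℝ) ^ k := by
      rw [hE]
      field_simp
    have h5 : 1 ≤ (p : ℝ) ^ (k1 + k2) / (p : ℝ) ^ k := by
      rw [one_le_div hq]
      exact pow_le_pow_right₀ hpR hk
    rw [h4]
    linarith
  have h3 : (Set.ncard {A : PSys n d ℤ | A ∈ pbox n d H ∧ (∀ j, (p : ℤ) ^ k2 ∣ MF (A j) z) ∧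
        ∀ v ∈ U, (p : ℤ) ^ k1 ∣ ∑ j, c j * MD (A j) z v} : ℝ) ≤
      (2 * H + 1) ^ (NP n d - (U.card + r)) * ((((2 * H + 1) / p ^ k1 + 1 : ℕ) : ℝ) ^ U.card *
        (((2 * H + 1) / p ^ k2 + 1 : ℕ) : ℝ) ^ r) := by
    exact_mod_cast h1
  refine h3.trans ?_
  have h4 : (2 * (H : ℝ) + 1) ^ (NP n d - (U.card + r)) *
      ((((2 * H + 1) / p ^ k1 + 1 : ℕ) : ℝ) ^ U.card *
        (((2 * H + 1) / p ^ k2 + 1 : ℕ) : ℝ) ^ r) ≤
      (2 * (H : ℝ) + 1) ^ (NP n d - (U.card + r)) * (((2 * H + 1) / (p : ℝ) ^ k1 * E) ^ U.card *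
        ((2 * H + 1) / (p : ℝ) ^ k2 * E) ^ r) := by
    refine mul_le_mul_of_nonneg_left ?_ (by positivity)
    refine mul_le_mul (pow_le_pow_left₀ (by positivity) (hN k1 (by omega)) _)
      (pow_le_pow_left₀ (by positivity) (hN k2 (by omega)) _) (by positivity) (by positivity)
  refine h4.trans ?_
  have h5 : (2 * (H : ℝ) + 1) ^ (NP n d - (U.card + r)) *
      (((2 * H + 1) / (p : ℝ) ^ k1 * E) ^ U.card * ((2 * H + 1) / (p : ℝ) ^ k2 * E) ^ r) =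
      (2 * H + 1) ^ NP n d / (p : ℝ) ^ (k2 * r + k1 * U.card) * E ^ (U.card + r) := by
    have h6 : (2 * (H : ℝ) + 1) ^ NP n d =
        (2 * (H : ℝ) + 1) ^ (NP n d - (U.card + r)) * ((2 * H + 1) ^ U.card * (2 * H + 1) ^ r) := by
      rw [← pow_add, ← pow_add]
      congr 1
      omega
    have h7 : (p : ℝ) ^ (k2 * r + k1 * U.card) = ((p : ℝ) ^ k2) ^ r * ((p : ℝ) ^ k1) ^ U.card := by
      rw [pow_add, pow_mul, pow_mul]
    rw [h6, h7, mul_pow, mul_pow, div_pow, div_pow, pow_add E]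
    field_simp
  rw [h5]
  have h7 : E ^ (U.card + r) ≤ 2 := (pow_le_pow_right₀ hE1 hUK).trans hH
  calc (2 * (H : ℝ) + 1) ^ NP n d / (p : ℝ) ^ (k2 * r + k1 * U.card) * E ^ (U.card + r) ≤
      (2 * (H : ℝ) + 1) ^ NP n d / (p : ℝ) ^ (k2 * r + k1 * U.card) * 2 := by gcongr
    _ = 2 * (2 * H + 1) ^ NP n d / (p : ℝ) ^ (k2 * r + k1 * U.card) := by ring

end multi

end CIPHP
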