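import Pool.Agent.Lib.MP_e426f4_ag.P.Alg
import Pool.Agent.Lib.MP_e426f4_ag.P.TriCount
import Pool.Agent.Lib.MP_e426f4_ag.P.CondAux
import Pool.Agent.Lib.MP_e426f4_ag.M.Spec
import Pool.Agent.Lib.MP_e426f4_ag.M.CondAux
import Pool.Agent.Lib.MP_e426f4_ag.M.CondR

/-! Module P-CR: number of systems satisfying real conditions at a point. -/

namespace CIPHP

open Finset Filter Topology GenHP

section multi
variable {ι : Type} [Fintype ι] [DecidableEq ι]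

theorem pcond_r (n : ι → ℕ) {r : ℕ} (d : Fin r → ι → ℕ) (hd : ∀ j i, 1 ≤ d j i) :
    ∃ C : ℝ, 0 < C ∧ ∀ g f : ℝ, 0 < g → 0 < f →
    ∀ᶠ H : ℕ in atTop, ∀ (τ : ∀ i, Fin (n i + 1)) (z : MVar n → ℝ),
      (∀ i, 1 / 2 ≤ |z ⟨i, τ i⟩|) → ∀ (c : Fin r → ℝ) (j0 : Fin r), |c j0| = 1 →
      ∀ U : Finset (MVar n), (∀ v ∈ U, v.2 ≠ τ v.1) →
      (Set.ncard {A : PSys n d ℤ | A ∈ pbox n d H ∧
        (∀ j, |MF (fun t => (A j t : ℝ)) z| ≤ f * H) ∧
        ∀ v ∈ U, |∑ j, c j * MD (fun t => (A j t : ℝ)) z v| ≤ g * H} : ℝ) ≤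
        C * g ^ U.card * f ^ r * (2 * H + 1) ^ NP n d := by
  classical
  set dd := ∑ j, ∑ i, d j i with hdd
  have hdj : ∀ j, ∑ i, d j i ≤ dd := fun j =>
    Finset.single_le_sum (f := fun j => ∑ i, d j i) (fun _ _ => Nat.zero_le _) (Finset.mem_univ j)
  have hhalf : ∀ j (m : ℝ), (1 / 2 : ℝ) ^ (∑ i, d j i) ≤ |m| → (1 / 2 : ℝ) ^ dd ≤ |m| :=
    fun j m hm => (pow_le_pow_of_le_one (by norm_num) (by norm_num) (hdj j)).trans hm
  refine ⟨(2 ^ (dd + 1)) ^ (Fintype.card (MVar n) + r), by positivity, ?_⟩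
  intro g f hg hf
  filter_upwards [eventually_ge_atTop ⌈1 / g⌉₊, eventually_ge_atTop ⌈1 / f⌉₊] with H hHg hHf
  intro τ z hz c j0 hc U hU
  have hHg' : 1 / g ≤ (H : ℝ) := (Nat.le_ceil _).trans (by exact_mod_cast hHg)
  have hHf' : 1 / f ≤ (H : ℝ) := (Nat.le_ceil _).trans (by exact_mod_cast hHf)
  have hH0 : (0 : ℝ) ≤ H := Nat.cast_nonneg H
  obtain ⟨hmain, hUN⟩ := pca_count hd τ U hU j0 H
    (fun A => (∀ j, |MF (fun t => (A j t : ℝ)) z| ≤ f * H) ∧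
        ∀ v ∈ U, |∑ j, c j * MD (fun t => (A j t : ℝ)) z v| ≤ g * H)
    (⌊2 ^ dd * (2 * (g * H))⌋₊ + 1) (⌊2 ^ dd * (2 * (f * H))⌋₊ + 1)
    (fun a b => |(a : ℝ) - b| ≤ 2 ^ dd * (2 * (g * H)))
    (fun a b => |(a : ℝ) - b| ≤ 2 ^ dd * (2 * (f * H)))
    (fun Z _ hZ => cr_card_int Z _ hZ) (fun Z _ hZ => cr_card_int Z _ hZ) (by
      intro v hv A A' hA hA' h h'
      have e1 := pca_MD_diff hd τ z U hU v hv c j0 (fun j t => (A j t : ℝ))
        (fun j t => (A' j t : ℝ)) (fun t ht ht' => by simp only [h t ht ht'])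
        (fun j hj t ht => by simp only [h' j hj t ht])
      refine cr_diff_le _ (c j0 * dmon z v (mex (ms1 τ v : MIdx n (d j0)))) _ dd ?_ ?_
      · rw [abs_mul, hc, one_mul]
        exact hhalf j0 _ (cr_dmon_ge (hd j0) τ z hz v (hU v hv))
      · rw [← e1]
        have h1 := hA.2 v hv
        have h2 := hA'.2 v hv
        calc _ ≤ |∑ j, c j * MD (fun t => (A j t : ℝ)) z v| +
              |∑ j, c j * MD (fun t => (A' j t : ℝ)) z v| := abs_sub _ _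
          _ ≤ 2 * (g * H) := by linarith) (by
      intro j A A' hA hA' h
      have e1 := cond_MF_diff τ z (fun t => (A j t : ℝ)) (fun t => (A' j t : ℝ))
        (fun t ht => by simp only [h j t ht])
      refine cr_diff_le _ (∏ i, z ⟨i, τ i⟩ ^ d j i) _ dd (hhalf j _ (cr_prod_ge' τ z hz)) ?_
      rw [← e1]
      have h1 := hA.1 j
      have h2 := hA'.1 j
      calc _ ≤ |MF (fun t => (A j t : ℝ)) z| + |MF (fun t => (A' j t : ℝ)) z| := abs_sub _ _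
        _ ≤ 2 * (f * H) := by linarith)
  have hbd : ∀ q : ℝ, 0 < q → 1 / q ≤ (H : ℝ) →
      ((⌊2 ^ dd * (2 * (q * H))⌋₊ + 1 : ℕ) : ℝ) ≤ 2 ^ (dd + 1) * q * (2 * H + 1) := by
    intro q hq hqH
    have h1 : (⌊2 ^ dd * (2 * (q * H))⌋₊ : ℝ) ≤ 2 ^ dd * (2 * (q * H)) :=
      Nat.floor_le (by positivity)
    have h2 : 1 ≤ q * H := by
      rw [div_le_iff₀ hq] at hqH
      linarith
    have h3 : (1 : ℝ) ≤ 2 ^ dd := one_le_pow₀ (by norm_num)
    push_cast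
    have h4 : 2 ^ (dd + 1) * q * (2 * H + 1) = 2 ^ dd * (2 * (q * H)) +
        2 ^ dd * (2 * (q * H)) + 2 ^ dd * 2 * q := by ring
    rw [h4]
    have h5 : 1 ≤ 2 ^ dd * (2 * (q * (H : ℝ))) := by nlinarith
    have h6 : 0 ≤ 2 ^ dd * 2 * q := by positivity
    linarith
  have hS' : (Set.ncard {A : PSys n d ℤ | A ∈ pbox n d H ∧
        (∀ j, |MF (fun t => (A j t : ℝ)) z| ≤ f * H) ∧
        ∀ v ∈ U, |∑ j, c j * MD (fun t => (A j t : ℝ)) z v| ≤ g * H} : ℝ) ≤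
      (2 * H + 1) ^ (NP n d - (U.card + r)) *
      (((⌊2 ^ dd * (2 * (g * H))⌋₊ + 1 : ℕ) : ℝ) ^ U.card *
      ((⌊2 ^ dd * (2 * (f * H))⌋₊ + 1 : ℕ) : ℝ) ^ r) := by
    exact_mod_cast hmain
  refine hS'.trans ?_
  have hX : (0 : ℝ) < 2 * H + 1 := by positivity
  calc (2 * (H : ℝ) + 1) ^ (NP n d - (U.card + r)) *
      (((⌊2 ^ dd * (2 * (g * H))⌋₊ + 1 : ℕ) : ℝ) ^ U.card *
      ((⌊2 ^ dd * (2 * (f * H))⌋₊ + 1 : ℕ) : ℝ) ^ r)
      ≤ (2 * (H : ℝ) + 1) ^ (NP n d - (U.card + r)) *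
        ((2 ^ (dd + 1) * g * (2 * H + 1)) ^ U.card *
          (2 ^ (dd + 1) * f * (2 * H + 1)) ^ r) := by
        refine mul_le_mul_of_nonneg_left ?_ (by positivity)
        exact mul_le_mul (pow_le_pow_left₀ (by positivity) (hbd g hg hHg') _)
          (pow_le_pow_left₀ (by positivity) (hbd f hf hHf') _) (by positivity) (by positivity)
    _ = (2 ^ (dd + 1)) ^ (U.card + r) * (g ^ U.card * f ^ r *
        ((2 * (H : ℝ) + 1) ^ (NP n d - (U.card + r)) *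
          ((2 * H + 1) ^ U.card * (2 * H + 1) ^ r))) := by
        rw [mul_pow, mul_pow, mul_pow, mul_pow, pow_add (2 ^ (dd + 1))]; ring
    _ = (2 ^ (dd + 1)) ^ (U.card + r) * (g ^ U.card * f ^ r * (2 * (H : ℝ) + 1) ^ NP n d) := by
        congr 2
        rw [← pow_add, ← pow_add]
        congr 1
        omega
    _ ≤ (2 ^ (dd + 1)) ^ (Fintype.card (MVar n) + r) *
        (g ^ U.card * f ^ r * (2 * (H : ℝ) + 1) ^ NP n d) := by
        apply mul_le_mul_of_nonneg_right _ (by positivity)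
        apply pow_le_pow_right₀ (one_le_pow₀ (by norm_num))
        have := Finset.card_le_univ U
        omega
    _ = (2 ^ (dd + 1)) ^ (Fintype.card (MVar n) + r) * g ^ U.card * f ^ r *
        (2 * (H : ℝ) + 1) ^ NP n d := by ring

end multi

end CIPHP
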