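import Pool.Agent.Lib.MP_e426f4_ag.P.Alg
import Pool.Agent.Lib.MP_e426f4_ag.M.Spec
import Pool.Agent.Lib.MP_e426f4_ag.CI.AlgDep

/-! Module P-FS: almost all systems define smooth complete intersections. -/

namespace CIPHP

open Finset Filter Topology GenHP

section para
variable {ι : Type} [Fintype ι] [DecidableEq ι] {n : ι → ℕ} {r : ℕ} {d : Fin r → ι → ℕ}

/-- the omitted coefficients -/
private def om (d : Fin r → ι → ℕ) (j0 : Fin r) (τ : ∀ i, Fin (n i + 1))
    (s : Σ j, MIdx n (d j)) : Prop :=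
  s.2 = ms0 τ ∨ (s.1 = j0 ∧ ∃ v : MVar n, v.2 ≠ τ v.1 ∧ s.2 = ms1 τ v)

open Classical in
/-- the value forced by the equation `v` -/
private noncomputable def S1 {R : Type*} [CommRing R] (j0 : Fin r) (τ : ∀ i, Fin (n i + 1))
    (y : MVar n → R) (c : Fin r → R) (a : (Σ j, MIdx n (d j)) → R) (v : MVar n) : R :=
  -∑ j, c j * ∑ t : MIdx n (d j), (if om d j0 τ ⟨j, t⟩ then 0 else a ⟨j, t⟩) * dmon y v (mex t)

open Classical in
private noncomputable def P1 {R : Type*} [CommRing R] (j0 : Fin r) (τ : ∀ i, Fin (n i + 1))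
    (y : MVar n → R) (c : Fin r → R) (a : (Σ j, MIdx n (d j)) → R)
    (s : Σ j, MIdx n (d j)) : R :=
  if om d j0 τ s then
    ∑ v : MVar n, (if v.2 ≠ τ v.1 ∧ s.1 = j0 ∧ s.2 = ms1 τ v then S1 j0 τ y c a v else 0)
  else a s

open Classical in
private noncomputable def psG {R : Type*} [CommRing R] (j0 : Fin r) (τ : ∀ i, Fin (n i + 1))
    (y : MVar n → R) (c : Fin r → R) (a : (Σ j, MIdx n (d j)) → R)
    (s : Σ j, MIdx n (d j)) : R :=
  if s.2 = ms0 τ then
    -∑ t : MIdx n (d s.1), (if t = ms0 τ then 0 else P1 j0 τ y c a ⟨s.1, t⟩) * mon y (mex t)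
  else P1 j0 τ y c a s

private theorem mon_map {V R S : Type*} [Fintype V] [CommRing R] [CommRing S] (f : R →+* S)
    (y : V → R) (t : V → ℕ) : f (mon y t) = mon (fun i => f (y i)) t := by
  simp [mon, map_prod]

private theorem dmon_map {V R S : Type*} [Fintype V] [DecidableEq V] [CommRing R] [CommRing S]
    (f : R →+* S) (y : V → R) (j : V) (t : V → ℕ) :
    f (dmon y j t) = dmon (fun i => f (y i)) j t := by
  simp only [dmon, map_mul, map_natCast, map_prod, map_pow]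

private theorem S1_map {R S : Type*} [CommRing R] [CommRing S] (f : R →+* S)
    (j0 : Fin r) (τ : ∀ i, Fin (n i + 1)) (y : MVar n → R) (c : Fin r → R)
    (a : (Σ j, MIdx n (d j)) → R) (v : MVar n) :
    f (S1 j0 τ y c a v) =
      S1 j0 τ (fun i => f (y i)) (fun i => f (c i)) (fun s => f (a s)) v := by
  classical
  unfold S1
  rw [map_neg, map_sum]
  refine congrArg _ (Finset.sum_congr rfl fun i _ => ?_)
  rw [map_mul, map_sum]
  refine congrArg _ (Finset.sum_congr rfl fun t _ => ?_)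
  rw [map_mul, dmon_map]
  split_ifs
  · rw [map_zero]
  · rfl

private theorem P1_map {R S : Type*} [CommRing R] [CommRing S] (f : R →+* S)
    (j0 : Fin r) (τ : ∀ i, Fin (n i + 1)) (y : MVar n → R) (c : Fin r → R)
    (a : (Σ j, MIdx n (d j)) → R) (s : Σ j, MIdx n (d j)) :
    f (P1 j0 τ y c a s) =
      P1 j0 τ (fun i => f (y i)) (fun i => f (c i)) (fun s => f (a s)) s := by
  classical
  unfold P1
  split_ifs with h
  · rw [map_sum]
    refine Finset.sum_congr rfl fun j _ => ?_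
    split_ifs
    · exact S1_map f j0 τ y c a j
    · rw [map_zero]
  · rfl

private theorem psG_map {R S : Type*} [CommRing R] [CommRing S] (f : R →+* S)
    (j0 : Fin r) (τ : ∀ i, Fin (n i + 1)) (y : MVar n → R) (c : Fin r → R)
    (a : (Σ j, MIdx n (d j)) → R) (s : Σ j, MIdx n (d j)) :
    f (psG j0 τ y c a s) =
      psG j0 τ (fun i => f (y i)) (fun i => f (c i)) (fun s => f (a s)) s := by
  classical
  unfold psG
  split_ifs with h
  · rw [map_neg, map_sum]
    refine congrArg _ (Finset.sum_congr rfl fun t _ => ?_)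
    rw [map_mul, mon_map]
    split_ifs
    · rw [map_zero]
    · rw [P1_map]
  · exact P1_map f j0 τ y c a s

private theorem fs_mon_ms0 {d : ι → ℕ} {R : Type*} [CommRing R] (τ : ∀ i, Fin (n i + 1))
    (y : MVar n → R) (hy : ∀ i, y ⟨i, τ i⟩ = 1) : mon y (mex (ms0 τ : MIdx n d)) = 1 := by
  rw [mon_ms0]
  exact Finset.prod_eq_one fun i _ => by rw [hy, one_pow]

private theorem fs_dmon_ms1 {d : ι → ℕ} (hd : ∀ i, 1 ≤ d i) {R : Type*} [CommRing R]
    (τ : ∀ i, Fin (n i + 1)) (y : MVar n → R) (hy : ∀ i, y ⟨i, τ i⟩ = 1) (v : MVar n)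
    (hv : v.2 ≠ τ v.1) : dmon y v (mex (ms1 τ v : MIdx n d)) = 1 := by
  rw [dmon_ms1 hd τ y v hv, hy, one_pow, one_mul]
  exact Finset.prod_eq_one fun i _ => by rw [hy, one_pow]

/-- the forced coefficients of a singular system -/
private theorem S1_eq {R : Type*} [CommRing R] (hd : ∀ j i, 1 ≤ d j i) (j0 : Fin r)
    (τ : ∀ i, Fin (n i + 1)) (y : MVar n → R) (c : Fin r → R) (A : PSys n d R)
    (a : (Σ j, MIdx n (d j)) → R) (ha : ∀ s, ¬ om d j0 τ s → a s = A s.1 s.2)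
    (hy : ∀ i, y ⟨i, τ i⟩ = 1) (hc : c j0 = 1) (v : MVar n) (hv : v.2 ≠ τ v.1)
    (hD : ∑ j, c j * MD (A j) y v = 0) :
    S1 j0 τ y c a v = A j0 (ms1 τ v) := by
  classical
  have h1 : ∀ j, MD (A j) y v =
      ∑ t : MIdx n (d j), (if om d j0 τ ⟨j, t⟩ then 0 else a ⟨j, t⟩) * dmon y v (mex t) +
        (if j = j0 then A j (ms1 τ v) else 0) := by
    intro j
    have h2 : (if j = j0 then A j (ms1 τ v) else 0) =
        ∑ t : MIdx n (d j), if j = j0 ∧ t = ms1 τ v then A j t else 0 := by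
      split_ifs with h
      · simp only [h, true_and]
        rw [Finset.sum_ite_eq', if_pos (Finset.mem_univ _)]
      · simp [h]
    rw [h2]
    unfold MD Dg
    rw [← Finset.sum_add_distrib]
    refine Finset.sum_congr rfl fun t _ => ?_
    by_cases hom : om d j0 τ ⟨j, t⟩
    · rw [if_pos hom, zero_mul, zero_add]
      rcases hom with h | ⟨h, v', hv', h'⟩
      · simp only at h
        rw [h, dmon_ms0 τ y v hv, mul_zero, if_neg]
        rintro ⟨_, h3⟩
        exact ms1_ne_ms0 (hd j) τ v hv h3.symm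
      · simp only at h
        have h'' : t = ms1 τ v' := h'
        subst h''
        by_cases hvv : v = v'
        · subst hvv
          rw [if_pos ⟨h, rfl⟩, fs_dmon_ms1 (hd j) τ y hy v hv, mul_one]
        · rw [dmon_ms1_of_ne τ y v v' hv hv' hvv, mul_zero, if_neg]
          rintro ⟨_, h3⟩
          exact hvv (ms1_inj (hd j) τ v' v hv' hv h3).symm
    · rw [if_neg hom, if_neg, add_zero, ha _ hom]
      rintro ⟨h3, h4⟩
      exact hom (Or.inr ⟨h3, v, hv, h4⟩)
  have h3 : ∑ j, c j * MD (A j) y v =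
      ∑ j, c j * ∑ t : MIdx n (d j), (if om d j0 τ ⟨j, t⟩ then 0 else a ⟨j, t⟩) *
        dmon y v (mex t) + A j0 (ms1 τ v) := by
    have h4 : A j0 (ms1 τ v) = ∑ j, c j * (if j = j0 then A j (ms1 τ v) else 0) := by
      rw [Finset.sum_eq_single j0]
      · rw [if_pos rfl, hc, one_mul]
      · intro i _ hi
        rw [if_neg hi, mul_zero]
      · intro h
        exact absurd (Finset.mem_univ _) h
    rw [h4, ← Finset.sum_add_distrib]
    refine Finset.sum_congr rfl fun j _ => ?_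
    rw [h1 j, mul_add]
  rw [hD] at h3
  unfold S1
  exact (eq_neg_of_add_eq_zero_right h3.symm).symm

private theorem P1_eq {R : Type*} [CommRing R] (hd : ∀ j i, 1 ≤ d j i) (j0 : Fin r)
    (τ : ∀ i, Fin (n i + 1)) (y : MVar n → R) (c : Fin r → R) (A : PSys n d R)
    (a : (Σ j, MIdx n (d j)) → R) (ha : ∀ s, ¬ om d j0 τ s → a s = A s.1 s.2)
    (hy : ∀ i, y ⟨i, τ i⟩ = 1) (hc : c j0 = 1) (hD : ∀ v, ∑ j, c j * MD (A j) y v = 0)
    (s : Σ j, MIdx n (d j)) (hs : s.2 ≠ ms0 τ) :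
    P1 j0 τ y c a s = A s.1 s.2 := by
  classical
  unfold P1
  by_cases hom : om d j0 τ s
  · rw [if_pos hom]
    rcases hom with h | ⟨h, v, hv, h'⟩
    · exact absurd h hs
    · rw [Finset.sum_eq_single v]
      · rw [if_pos ⟨hv, h, h'⟩, S1_eq hd j0 τ y c A a ha hy hc v hv (hD v)]
        obtain ⟨j, t⟩ := s
        simp only at h h' ⊢
        subst h
        rw [h']
      · intro v' _ hvv
        rw [if_neg]
        rintro ⟨h1, _, h3⟩
        rw [h'] at h3
        exact hvv (ms1_inj (hd _) τ v v' hv h1 h3).symm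
      · intro h0
        exact absurd (Finset.mem_univ _) h0
  · rw [if_neg hom, ha s hom]

private theorem psG_eq {R : Type*} [CommRing R] (hd : ∀ j i, 1 ≤ d j i) (j0 : Fin r)
    (τ : ∀ i, Fin (n i + 1)) (y : MVar n → R) (c : Fin r → R) (A : PSys n d R)
    (a : (Σ j, MIdx n (d j)) → R) (ha : ∀ s, ¬ om d j0 τ s → a s = A s.1 s.2)
    (hy : ∀ i, y ⟨i, τ i⟩ = 1) (hc : c j0 = 1) (hD : ∀ v, ∑ j, c j * MD (A j) y v = 0)
    (hF : ∀ j, MF (A j) y = 0) (s : Σ j, MIdx n (d j)) :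
    psG j0 τ y c a s = A s.1 s.2 := by
  classical
  unfold psG
  split_ifs with h
  · have h1 := hF s.1
    unfold MF Fg at h1
    have h2 : ∑ t : MIdx n (d s.1), A s.1 t * mon y (mex t) =
        ∑ t : MIdx n (d s.1),
          (if t = ms0 τ then 0 else P1 j0 τ y c a ⟨s.1, t⟩) * mon y (mex t) +
        A s.1 (ms0 τ) := by
      have h3 : A s.1 (ms0 τ) =
          ∑ t : MIdx n (d s.1), (if t = ms0 τ then A s.1 t else 0) * mon y (mex t) := by
        rw [Finset.sum_eq_single (ms0 τ)]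
        · rw [if_pos rfl, fs_mon_ms0 τ y hy, mul_one]
        · intro t _ ht
          rw [if_neg ht, zero_mul]
        · intro h0
          exact absurd (Finset.mem_univ _) h0
      rw [h3, ← Finset.sum_add_distrib]
      refine Finset.sum_congr rfl fun t _ => ?_
      by_cases ht : t = ms0 τ
      · rw [if_pos ht, if_pos ht, zero_mul, zero_add]
      · rw [if_neg ht, if_neg ht, zero_mul, add_zero,
          P1_eq hd j0 τ y c A a ha hy hc hD ⟨s.1, t⟩ ht]
    rw [h1] at h2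
    rw [← eq_neg_of_add_eq_zero_right h2.symm, h]
  · exact P1_eq hd j0 τ y c A a ha hy hc hD s h

private theorem sg_card (hd : ∀ j i, 1 ≤ d j i) (j0 : Fin r) (τ : ∀ i, Fin (n i + 1)) :
    Nat.card ({v : MVar n // v.2 ≠ τ v.1} ⊕ ({j : Fin r // j ≠ j0} ⊕
      {s : Σ j, MIdx n (d j) // ¬ om d j0 τ s})) < Fintype.card (Σ j, MIdx n (d j)) := by
  classical
  have h2 : Nat.card {j : Fin r // j ≠ j0} = r - 1 := by
    rw [Nat.card_eq_fintype_card, Fintype.card_subtype_compl, Fintype.card_fin,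
      Fintype.card_subtype_eq]
  have h3 : Fintype.card (Σ j, MIdx n (d j)) = Nat.card {s : Σ j, MIdx n (d j) // om d j0 τ s} +
      Nat.card {s : Σ j, MIdx n (d j) // ¬ om d j0 τ s} := by
    rw [Nat.card_eq_fintype_card, Nat.card_eq_fintype_card, ← Fintype.card_sum]
    exact Fintype.card_congr (Equiv.sumCompl _).symm
  have h4 : Nat.card (Fin r ⊕ {v : MVar n // v.2 ≠ τ v.1}) ≤
      Nat.card {s : Σ j, MIdx n (d j) // om d j0 τ s} := by
    refine Nat.card_le_card_of_injective (Sum.elim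
      (fun j => ⟨⟨j, ms0 τ⟩, Or.inl rfl⟩)
      (fun v => ⟨⟨j0, ms1 τ v.1⟩, Or.inr ⟨rfl, v.1, v.2, rfl⟩⟩)) ?_
    rintro (j | ⟨v, hv⟩) (j' | ⟨v', hv'⟩) h
    · have h5 := congrArg Subtype.val h
      simp only [Sum.elim_inl] at h5
      rw [(Sigma.mk.inj_iff.1 h5).1]
    · exfalso
      have h5 := congrArg Subtype.val h
      simp only [Sum.elim_inl, Sum.elim_inr] at h5
      obtain ⟨h6, h7⟩ := Sigma.mk.inj_iff.1 h5
      subst h6
      exact ms1_ne_ms0 (hd _) τ v' hv' (eq_of_heq h7).symm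
    · exfalso
      have h5 := congrArg Subtype.val h
      simp only [Sum.elim_inl, Sum.elim_inr] at h5
      obtain ⟨h6, h7⟩ := Sigma.mk.inj_iff.1 h5
      subst h6
      exact ms1_ne_ms0 (hd _) τ v hv (eq_of_heq h7)
    · have h5 := congrArg Subtype.val h
      simp only [Sum.elim_inr] at h5
      obtain ⟨_, h7⟩ := Sigma.mk.inj_iff.1 h5
      have h8 := ms1_inj (hd _) τ v v' hv hv' (eq_of_heq h7)
      subst h8
      rfl
  rw [Nat.card_sum, Nat.card_eq_fintype_card (α := Fin r), Fintype.card_fin] at h4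
  rw [Nat.card_sum, Nat.card_sum, h2, h3]
  have : 0 < r := Fin.pos j0
  omega

private theorem sg_class (hd : ∀ j i, 1 ≤ d j i) (j0 : Fin r) (τ : ∀ i, Fin (n i + 1))
    (eps : ℝ) (heps : 0 < eps) : ∀ᶠ H : ℕ in atTop,
    (Set.ncard {A : PSys n d ℤ | A ∈ pbox n d H ∧ ∃ (y : MVar n → ℂ) (c : Fin r → ℂ),
      (∀ i, y ⟨i, τ i⟩ = 1) ∧ c j0 = 1 ∧ (∀ j, MF (fun t => (A j t : ℂ)) y = 0) ∧
      ∀ v, ∑ j, c j * MD (fun t => (A j t : ℂ)) y v = 0} : ℝ) ≤
      eps * (2 * H + 1) ^ NP n d := by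
  classical
  let K : Type := {v : MVar n // v.2 ≠ τ v.1} ⊕ ({j : Fin r // j ≠ j0} ⊕
      {s : Σ j, MIdx n (d j) // ¬ om d j0 τ s})
  have hcard : Fintype.card K < Fintype.card (Σ j, MIdx n (d j)) := by
    have := sg_card (n := n) hd j0 τ
    rwa [Nat.card_eq_fintype_card] at this
  let yG : MVar n → MvPolynomial K ℤ := fun v =>
    if h : v.2 ≠ τ v.1 then MvPolynomial.X (Sum.inl ⟨v, h⟩) else 1
  let cG : Fin r → MvPolynomial K ℤ := fun j =>
    if h : j ≠ j0 then MvPolynomial.X (Sum.inr (Sum.inl ⟨j, h⟩)) else 1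
  let aG : (Σ j, MIdx n (d j)) → MvPolynomial K ℤ := fun s =>
    if h : ¬ om d j0 τ s then MvPolynomial.X (Sum.inr (Sum.inr ⟨s, h⟩)) else 0
  let psi : (Σ j, MIdx n (d j)) → MvPolynomial K ℤ := fun s => psG j0 τ yG cG aG s
  have key := CIHP.few_in_image hcard psi eps heps
  filter_upwards [key] with H hH
  rw [card_sigma_NP] at hH
  refine le_trans ?_ hH
  have hfin : {A : (Σ j, MIdx n (d j)) → ℤ | (∀ i, |A i| ≤ H) ∧ ∃ z : K → ℂ, ∀ i,
        MvPolynomial.aeval z (psi i) = (A i : ℂ)}.Finite := by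
    refine (Set.Finite.pi' (fun _ : (Σ j, MIdx n (d j)) => Set.finite_Icc (-(H : ℤ)) H)).subset ?_
    rintro A ⟨hA1, _⟩ i
    exact abs_le.1 (hA1 i)
  have h1 : Set.ncard {A : PSys n d ℤ | A ∈ pbox n d H ∧
      ∃ (y : MVar n → ℂ) (c : Fin r → ℂ),
      (∀ i, y ⟨i, τ i⟩ = 1) ∧ c j0 = 1 ∧ (∀ j, MF (fun t => (A j t : ℂ)) y = 0) ∧
      ∀ v, ∑ j, c j * MD (fun t => (A j t : ℂ)) y v = 0} ≤
      Set.ncard {A : (Σ j, MIdx n (d j)) → ℤ | (∀ i, |A i| ≤ H) ∧ ∃ z : K → ℂ, ∀ i,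
        MvPolynomial.aeval z (psi i) = (A i : ℂ)} := by
    refine Set.ncard_le_ncard_of_injOn (fun A => fun s => A s.1 s.2) ?_ ?_ hfin
    · rintro A ⟨hA, y, c, hy, hc, hF, hD⟩
      refine ⟨fun s => hA s.1 s.2, ?_⟩
      refine ⟨Sum.elim (fun v => y v.1) (Sum.elim (fun j => c j.1)
        (fun s => (A s.1.1 s.1.2 : ℂ))), fun s => ?_⟩
      have h2 := psG_map (MvPolynomial.aeval (R := ℤ) (Sum.elim (fun v => y v.1)
        (Sum.elim (fun j => c j.1) (fun s => (A s.1.1 s.1.2 : ℂ))) : K → ℂ)).toRingHom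
        j0 τ yG cG aG s
      refine Eq.trans h2 ?_
      have hy' : (fun i => (MvPolynomial.aeval (R := ℤ) (Sum.elim (fun v => y v.1)
        (Sum.elim (fun j => c j.1) (fun s => (A s.1.1 s.1.2 : ℂ))) : K → ℂ)).toRingHom (yG i)) = y := by
        funext v
        simp only [yG]
        split_ifs with h
        · exact (MvPolynomial.aeval_X _ _)
        · push Not at h
          obtain ⟨i, b⟩ := v
          simp only at h
          rw [map_one, h, hy]
      have hc' : (fun i => (MvPolynomial.aeval (R := ℤ) (Sum.elim (fun v => y v.1)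
        (Sum.elim (fun j => c j.1) (fun s => (A s.1.1 s.1.2 : ℂ))) : K → ℂ)).toRingHom (cG i)) = c := by
        funext i
        simp only [cG]
        split_ifs with h
        · exact (MvPolynomial.aeval_X _ _)
        · push Not at h
          rw [map_one, h, hc]
      rw [hy', hc']
      refine psG_eq hd j0 τ y c (fun j t => (A j t : ℂ)) _ ?_ hy hc hD hF s
      intro s hs
      simp only [aG]
      rw [dif_pos hs]
      exact (MvPolynomial.aeval_X _ _)
    · intro A _ A' _ h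
      funext j t
      exact congrFun h ⟨j, t⟩
  exact_mod_cast h1

end para

section multi
variable {ι : Type} [Fintype ι] [DecidableEq ι] {n : ι → ℕ} {r : ℕ} {d : Fin r → ι → ℕ}

theorem p_few_singular (hr : 1 ≤ r) (hd : ∀ j i, 1 ≤ d j i) (eps : ℝ) (heps : 0 < eps) :
    ∀ᶠ H : ℕ in atTop,
    (Set.ncard {A : PSys n d ℤ | A ∈ pbox n d H ∧ ¬ PSmooth A} : ℝ) ≤
      eps * (2 * H + 1) ^ NP n d := by
  classical
  set M : ℕ := Fintype.card (Fin r × (∀ i, Fin (n i + 1))) with hM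
  have hMpos : 0 < M := by
    rw [hM]
    haveI : Nonempty (Fin r × (∀ i, Fin (n i + 1))) := ⟨(⟨0, hr⟩, fun _ => 0)⟩
    exact Fintype.card_pos
  have hq : (0 : ℝ) < M := by exact_mod_cast hMpos
  have key : ∀ᶠ H : ℕ in atTop, ∀ q : Fin r × (∀ i, Fin (n i + 1)),
      (Set.ncard {A : PSys n d ℤ | A ∈ pbox n d H ∧ ∃ (y : MVar n → ℂ) (c : Fin r → ℂ),
      (∀ i, y ⟨i, q.2 i⟩ = 1) ∧ c q.1 = 1 ∧ (∀ j, MF (fun t => (A j t : ℂ)) y = 0) ∧
      ∀ v, ∑ j, c j * MD (fun t => (A j t : ℂ)) y v = 0} : ℝ) ≤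
      eps / M * (2 * H + 1) ^ NP n d :=
    eventually_all.2 fun q => sg_class hd q.1 q.2 _ (div_pos heps hq)
  filter_upwards [key] with H hH
  have hsub : {A : PSys n d ℤ | A ∈ pbox n d H ∧ ¬ PSmooth A} ⊆
      ⋃ q : Fin r × (∀ i, Fin (n i + 1)), {A : PSys n d ℤ | A ∈ pbox n d H ∧
        ∃ (y : MVar n → ℂ) (c : Fin r → ℂ),
      (∀ i, y ⟨i, q.2 i⟩ = 1) ∧ c q.1 = 1 ∧ (∀ j, MF (fun t => (A j t : ℂ)) y = 0) ∧
      ∀ v, ∑ j, c j * MD (fun t => (A j t : ℂ)) y v = 0} := by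
    rintro A ⟨hA, hS⟩
    unfold PSmooth at hS
    push Not at hS
    obtain ⟨z, hz, hF, hL⟩ := hS
    rw [Fintype.linearIndependent_iff] at hL
    push Not at hL
    obtain ⟨g, hg, j0, hj0⟩ := hL
    choose τ hτ using hz
    have hg' : ∀ v, ∑ j, g j * MD (fun t => (A j t : ℂ)) z v = 0 := by
      intro v
      have := congrFun hg v
      simpa [Finset.sum_apply] using this
    set c : ι → ℂ := fun i => (z ⟨i, τ i⟩)⁻¹ with hc
    have hc0 : ∀ i, c i ≠ 0 := fun i => inv_ne_zero (hτ i)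
    set P : Fin r → ℂ := fun j => ∏ i, c i ^ d j i with hP
    have hP0 : ∀ j, P j ≠ 0 := fun j => Finset.prod_ne_zero_iff.mpr fun i _ =>
      pow_ne_zero _ (hc0 i)
    rw [Set.mem_iUnion]
    refine ⟨(j0, τ), hA, fun v => c v.1 * z v,
      fun j => (g j * (P j)⁻¹) / (g j0 * (P j0)⁻¹), ?_, ?_, ?_, ?_⟩
    · intro i
      exact inv_mul_cancel₀ (hτ i)
    · simp only
      exact div_self (mul_ne_zero hj0 (inv_ne_zero (hP0 j0)))
    · intro j
      rw [MF_scale c, hF, mul_zero]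
    · intro v
      have h1 : ∀ j, g j * (P j)⁻¹ / (g j0 * (P j0)⁻¹) *
          MD (fun t => (A j t : ℂ)) (fun v => c v.1 * z v) v =
          (g j * MD (fun t => (A j t : ℂ)) z v) * ((c v.1)⁻¹ / (g j0 * (P j0)⁻¹)) := by
        intro j
        have h2 := MD_scale c (fun t => (A j t : ℂ)) z v
        have h3 : MD (fun t => (A j t : ℂ)) (fun v => c v.1 * z v) v =
            (c v.1)⁻¹ * (P j * MD (fun t => (A j t : ℂ)) z v) := by
          rw [← h2, inv_mul_cancel_left₀ (hc0 _)]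
        rw [h3]
        have h4 := hP0 j
        field_simp
      rw [Finset.sum_congr rfl fun j _ => h1 j, ← Finset.sum_mul, hg', zero_mul]
  have hfin : ∀ q : Fin r × (∀ i, Fin (n i + 1)), {A : PSys n d ℤ | A ∈ pbox n d H ∧
        ∃ (y : MVar n → ℂ) (c : Fin r → ℂ),
      (∀ i, y ⟨i, q.2 i⟩ = 1) ∧ c q.1 = 1 ∧ (∀ j, MF (fun t => (A j t : ℂ)) y = 0) ∧
      ∀ v, ∑ j, c j * MD (fun t => (A j t : ℂ)) y v = 0}.Finite :=
    fun q => pbox_finite H _
  have h1 := Set.ncard_le_ncard hsub (Set.finite_iUnion hfin)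
  have h2 := Set.ncard_iUnion_le_of_fintype (fun q : Fin r × (∀ i, Fin (n i + 1)) =>
    {A : PSys n d ℤ | A ∈ pbox n d H ∧
        ∃ (y : MVar n → ℂ) (c : Fin r → ℂ),
      (∀ i, y ⟨i, q.2 i⟩ = 1) ∧ c q.1 = 1 ∧ (∀ j, MF (fun t => (A j t : ℂ)) y = 0) ∧
      ∀ v, ∑ j, c j * MD (fun t => (A j t : ℂ)) y v = 0})
  calc (Set.ncard {A : PSys n d ℤ | A ∈ pbox n d H ∧ ¬ PSmooth A} : ℝ)
      ≤ ((∑ q : Fin r × (∀ i, Fin (n i + 1)), Set.ncard {A : PSys n d ℤ | A ∈ pbox n d H ∧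
        ∃ (y : MVar n → ℂ) (c : Fin r → ℂ),
      (∀ i, y ⟨i, q.2 i⟩ = 1) ∧ c q.1 = 1 ∧ (∀ j, MF (fun t => (A j t : ℂ)) y = 0) ∧
      ∀ v, ∑ j, c j * MD (fun t => (A j t : ℂ)) y v = 0} : ℕ) : ℝ) := by
        exact_mod_cast h1.trans h2
    _ ≤ ∑ _q : Fin r × (∀ i, Fin (n i + 1)), eps / M * (2 * H + 1) ^ NP n d := by
        push_cast
        exact Finset.sum_le_sum fun q _ => hH q
    _ = eps * (2 * H + 1) ^ NP n d := by
        rw [Finset.sum_const, Finset.card_univ, ← hM, nsmul_eq_mul]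
        field_simp

end multi

end CIPHP
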