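import Pool.Agent.Lib.MP_e426f4_ag.P.Alg
import Pool.Agent.Lib.MP_e426f4_ag.M.AlgReal

/-! Module P-GR: good real points.

TEMPLATES: M/AlgReal.lean (exists_norm, goodR_of_approx, ALR.*), M/RealExc2.lean (GoodR_mono). p_exists_norm: c_i = 1/max_a |z_{i,a}|, MF_scale for every j with the same c.
pgoodR_of_approx: M_i = max_a |z_{i,a}| in [1/2,2], c_i = 1/M_i; |MF_j(cz)| <= 2^(dd_j) f; PJac_scale: |det(cz)| = ∏_j ∏_i c_i^(d j i) / c_{i0}^r |det z| >= 2^(-DD-r) (C g)^r >= g^r, C = 2^(DD+1), DD = ∑_j ∑_i d j i.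
pgoodR_smul: PJac_smul, MF_smul.
-/

namespace CIPHP

open Finset Filter Topology GenHP

section multi
variable {ι : Type} [Fintype ι] [DecidableEq ι] {n : ι → ℕ} {r : ℕ} {d : Fin r → ι → ℕ}

/-- normalised real zeros -/
theorem p_exists_norm (A : PSys n d ℝ) (z : MVar n → ℝ) (hz : BNZ z)
    (hF : ∀ j, MF (A j) z = 0) : ∃ z' : MVar n → ℝ, BNorm z' ∧ ∀ j, MF (A j) z' = 0 := by
  obtain ⟨τ, hτ⟩ := ALR.exists_argmax z
  have hpos : ∀ i, 0 < |z ⟨i, τ i⟩| := by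
    intro i
    obtain ⟨a, ha⟩ := hz i
    exact (abs_pos.mpr ha).trans_le (hτ i a)
  refine ⟨fun v => |z ⟨v.1, τ v.1⟩|⁻¹ * z v, ALR.bnorm_div z τ hτ hpos, fun j => ?_⟩
  rw [MF_scale (fun i => |z ⟨i, τ i⟩|⁻¹) (A j) z, hF j, mul_zero]

/-- an approximate zero, not normalised, gives a good real point -/
theorem pgoodR_of_approx (n : ι → ℕ) {r : ℕ} (d : Fin r → ι → ℕ) (i0 : ι) :
    ∃ C : ℝ, 1 ≤ C ∧ ∀ (A : PSys n d ℝ) (z : MVar n → ℝ) (f g : ℝ), 0 ≤ f → 0 ≤ g →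
      (∀ v, |z v| ≤ 2) → (∀ i, ∃ a, 1 / 2 ≤ |z ⟨i, a⟩|) → (∀ j, |MF (A j) z| ≤ f) →
      ∀ J : Fin r → Fin (n i0 + 1), (C * g) ^ r ≤ |(PJac A z (blk i0 J)).det| →
      PGoodR i0 (C * f) g A := by
  set DD : ℕ := ∑ j, ∑ i, d j i with hDD
  refine ⟨2 ^ (DD + 1), one_le_pow₀ (by norm_num), ?_⟩
  intro A z f g hf hg hz hz2 hF J hJ
  obtain ⟨τ, hτ⟩ := ALR.exists_argmax z
  have hlow : ∀ i, 1 / 2 ≤ |z ⟨i, τ i⟩| := by
    intro i
    obtain ⟨b, hb⟩ := hz2 i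
    exact hb.trans (hτ i b)
  have hpos : ∀ i, 0 < |z ⟨i, τ i⟩| := fun i => lt_of_lt_of_le (by norm_num) (hlow i)
  set c : ι → ℝ := fun i => |z ⟨i, τ i⟩|⁻¹ with hc
  have hcpos : ∀ i, 0 < c i := fun i => inv_pos.mpr (hpos i)
  have hc2 : ∀ i, c i ≤ 2 := fun i => by
    have h := inv_anti₀ (by norm_num : (0 : ℝ) < 1 / 2) (hlow i)
    have h' : ((1 : ℝ) / 2)⁻¹ = 2 := by norm_num
    rw [h'] at h
    exact h
  have hc1 : ∀ i, 1 / 2 ≤ c i := fun i => by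
    have h := inv_anti₀ (hpos i) (hz ⟨i, τ i⟩)
    have h' : (2 : ℝ)⁻¹ = 1 / 2 := by norm_num
    rw [h'] at h
    exact h
  have hP0 : ∀ j, 0 < ∏ i, c i ^ d j i := fun j => Finset.prod_pos fun i _ => pow_pos (hcpos i) _
  have hP2 : ∀ j, ∏ i, c i ^ d j i ≤ 2 ^ (∑ i, d j i) := by
    intro j
    rw [← Finset.prod_pow_eq_pow_sum]
    exact Finset.prod_le_prod (fun i _ => (pow_pos (hcpos i) _).le)
      fun i _ => pow_le_pow_left₀ (hcpos i).le (hc2 i) _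
  have hP1 : ∀ j, (1 / 2 : ℝ) ^ (∑ i, d j i) ≤ ∏ i, c i ^ d j i := by
    intro j
    rw [← Finset.prod_pow_eq_pow_sum]
    exact Finset.prod_le_prod (fun i _ => by positivity)
      fun i _ => pow_le_pow_left₀ (by norm_num) (hc1 i) _
  have hjD : ∀ j, ∑ i, d j i ≤ DD := fun j =>
    Finset.single_le_sum (f := fun j => ∑ i, d j i) (fun _ _ => Nat.zero_le _) (Finset.mem_univ j)
  refine ⟨fun v => c v.1 * z v, ALR.bnorm_div z τ hτ hpos, fun j => ?_, J, ?_⟩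
  · rw [MF_scale c (A j) z, abs_mul, abs_of_pos (hP0 j)]
    refine mul_le_mul ((hP2 j).trans ?_) (hF j) (abs_nonneg _) (by positivity)
    exact pow_le_pow_right₀ (by norm_num) ((hjD j).trans (Nat.le_succ _))
  · have h := congrArg abs (PJac_scale c A z (blk i0 J))
    have hPP : 0 < ∏ j, ∏ i, c i ^ d j i := Finset.prod_pos fun j _ => hP0 j
    have hPP1 : (1 / 2 : ℝ) ^ DD ≤ ∏ j, ∏ i, c i ^ d j i := by
      rw [hDD, ← Finset.prod_pow_eq_pow_sum]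
      exact Finset.prod_le_prod (fun j _ => by positivity) fun j _ => hP1 j
    have hl : ∏ l : Fin r, c (blk i0 J l).1 = c i0 ^ r := by
      have : ∀ l : Fin r, c (blk i0 J l).1 = c i0 := fun l => rfl
      rw [Finset.prod_congr rfl fun l _ => this l, Finset.prod_const, Finset.card_univ,
        Fintype.card_fin]
    rw [hl, abs_mul, abs_mul, abs_of_pos (pow_pos (hcpos i0) r), abs_of_pos hPP] at h
    set X := |(PJac A (fun v => c v.1 * z v) (blk i0 J)).det| with hX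
    have hX0 : 0 ≤ X := abs_nonneg _
    have h1 : (1 / 2 : ℝ) ^ DD * ((2 ^ (DD + 1) * g) ^ r) ≤ c i0 ^ r * X := by
      rw [h]
      exact mul_le_mul hPP1 hJ (by positivity) hPP.le
    have h2 : c i0 ^ r * X ≤ 2 ^ r * X :=
      mul_le_mul_of_nonneg_right (pow_le_pow_left₀ (hcpos i0).le (hc2 i0) r) hX0
    have h3 : (2 : ℝ) ^ r * g ^ r ≤ (1 / 2 : ℝ) ^ DD * ((2 ^ (DD + 1) * g) ^ r) := by
      rw [mul_pow, ← pow_mul, ← mul_assoc]
      refine mul_le_mul_of_nonneg_right ?_ (by positivity)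
      have h4 : DD + r ≤ (DD + 1) * r := by
        rcases Nat.eq_zero_or_pos r with hr | hr
        · subst hr
          simp [hDD]
        · nlinarith
      have h5 : (2 : ℝ) ^ (DD + r) ≤ 2 ^ ((DD + 1) * r) := pow_le_pow_right₀ (by norm_num) h4
      have h6 : (1 / 2 : ℝ) ^ DD * 2 ^ DD = 1 := by
        rw [← mul_pow]
        norm_num
      calc (2 : ℝ) ^ r = (1 / 2 : ℝ) ^ DD * 2 ^ DD * 2 ^ r := by rw [h6, one_mul]
        _ = (1 / 2 : ℝ) ^ DD * 2 ^ (DD + r) := by rw [mul_assoc, ← pow_add]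
        _ ≤ _ := mul_le_mul_of_nonneg_left h5 (by positivity)
    have h7 := h3.trans (h1.trans h2)
    exact le_of_mul_le_mul_left h7 (by positivity)

theorem pgoodR_mono (i0 : ι) (f f' g : ℝ) (hf : f ≤ f') (A : PSys n d ℝ)
    (h : PGoodR i0 f g A) : PGoodR i0 f' g A := by
  obtain ⟨z, hz, hF, J, hJ⟩ := h
  exact ⟨z, hz, fun j => (hF j).trans hf, J, hJ⟩

theorem pgoodR_smul (i0 : ι) (f g c : ℝ) (hc : 0 < c) (A : PSys n d ℝ)
    (h : PGoodR i0 (f * c) (g * c) A) : PGoodR i0 f g (fun j t => A j t / c) := by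
  obtain ⟨z, hz, hF, J, hJ⟩ := h
  have hA : (fun j t => A j t / c) = fun j t => c⁻¹ * A j t := by
    funext j t
    rw [div_eq_inv_mul]
  refine ⟨z, hz, fun j => ?_, J, ?_⟩
  · have h1 : MF (fun t => A j t / c) z = c⁻¹ * MF (A j) z := by
      rw [← MF_smul]
      exact congrArg (fun B => MF B z) (congrFun hA j)
    show |MF (fun t => A j t / c) z| ≤ f
    rw [h1, abs_mul, abs_of_pos (inv_pos.mpr hc)]
    calc c⁻¹ * |MF (A j) z| ≤ c⁻¹ * (f * c) :=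
          mul_le_mul_of_nonneg_left (hF j) (inv_pos.mpr hc).le
      _ = f := by field_simp
  · rw [hA, PJac_smul, abs_mul, abs_of_pos (pow_pos (inv_pos.mpr hc) r)]
    calc g ^ r = (c⁻¹) ^ r * (g * c) ^ r := by
          rw [← mul_pow]
          congr 1
          field_simp
      _ ≤ _ := mul_le_mul_of_nonneg_left hJ (by positivity)

end multi

end CIPHP
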