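import Pool.Agent.Lib.MP_e426f4_ag.P.CondP

/-! Module P-X1P: systems with a `p`-adic zero where the Jacobian matrix is degenerate. -/

namespace CIPHP

open Finset Filter Topology GenHP

theorem px_inv (p k : ℕ) (hp : p.Prime) (z : ℤ) (hz : ¬ (p : ℤ) ∣ z) :
    ∃ u : ℤ, (p : ℤ) ^ k ∣ u * z - 1 := by
  have hpp : Prime (p : ℤ) := Nat.prime_iff_prime_int.mp hp
  have h1 : IsCoprime ((p : ℤ) ^ k) z :=
    IsCoprime.pow_left (hpp.coprime_iff_not_dvd.mpr hz)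
  obtain ⟨a, b, hab⟩ := h1
  exact ⟨b, -a, by linear_combination hab⟩

/-- normalisation of a linear combination -/
theorem pc_norm {V : Type*} {r : ℕ} (p k : ℕ) (hp : p.Prime) (hk : 1 ≤ k) (L : Fin r → V → ℤ)
    (c : Fin r → ℤ) (j0 : Fin r) (hc : ¬ (p : ℤ) ∣ c j0)
    (h : ∀ v, (p : ℤ) ^ k ∣ ∑ j, c j * L j v) :
    ∃ b : Fin r → ℤ, b j0 = 1 ∧ (∀ j, 0 ≤ b j ∧ b j < (p : ℤ) ^ k) ∧
      ∀ v, (p : ℤ) ^ k ∣ ∑ j, b j * L j v := by
  have hp0 : (0 : ℤ) < p := by exact_mod_cast hp.pos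
  have hp1 : (1 : ℤ) < p := by exact_mod_cast hp.one_lt
  have hpk0 : (0 : ℤ) < (p : ℤ) ^ k := pow_pos hp0 _
  have hpk1 : (1 : ℤ) < (p : ℤ) ^ k := one_lt_pow₀ hp1 (by omega)
  obtain ⟨u, hu⟩ := px_inv p k hp _ hc
  set b : Fin r → ℤ := fun j => (u * c j) % (p : ℤ) ^ k with hb
  have hbd : ∀ j, (p : ℤ) ^ k ∣ b j - u * c j := fun j =>
    ⟨-((u * c j) / (p : ℤ) ^ k), by
      have := Int.emod_add_mul_ediv (u * c j) ((p : ℤ) ^ k)
      rw [hb]
      simp only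
      linear_combination this⟩
  refine ⟨b, ?_, fun j => ⟨Int.emod_nonneg _ hpk0.ne', Int.emod_lt_of_pos _ hpk0⟩, fun v => ?_⟩
  · have h1 : (u * c j0) % (p : ℤ) ^ k = 1 % (p : ℤ) ^ k :=
      Int.emod_eq_emod_iff_emod_sub_eq_zero.mpr (Int.emod_eq_zero_of_dvd hu)
    rw [hb]
    simp only
    rw [h1]
    exact Int.emod_eq_of_lt zero_le_one hpk1
  · have h1 : ∑ j, b j * L j v = u * (∑ j, c j * L j v) + ∑ j, (b j - u * c j) * L j v := by
      rw [Finset.mul_sum, ← Finset.sum_add_distrib]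
      exact Finset.sum_congr rfl fun j _ => by ring
    rw [h1]
    exact dvd_add ((h v).mul_left _) (Finset.dvd_sum fun j _ => (hbd j).mul_right _)

section multi
variable {ι : Type} [Fintype ι] [DecidableEq ι] {n : ι → ℕ} {r : ℕ} {d : Fin r → ι → ℕ}

/-- normalisation of a point and of a linear combination of the gradients -/
theorem pp_norm (p k : ℕ) (hp : p.Prime) (hk : 1 ≤ k) (A : PSys n d ℤ)
    (z : MVar n → ℤ) (τ : ∀ i, Fin (n i + 1)) (hτ : ∀ i, ¬ (p : ℤ) ∣ z ⟨i, τ i⟩)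
    (c : Fin r → ℤ) (j0 : Fin r) (hc : ¬ (p : ℤ) ∣ c j0)
    (hF : ∀ j, (p : ℤ) ^ k ∣ MF (A j) z) (hD : ∀ v, (p : ℤ) ^ k ∣ ∑ j, c j * MD (A j) z v) :
    ∃ (w : MVar n → ℤ) (b : Fin r → ℤ), (∀ i, w ⟨i, τ i⟩ = 1) ∧ b j0 = 1 ∧
      (∀ v, 0 ≤ w v ∧ w v < (p : ℤ) ^ k) ∧ (∀ j, 0 ≤ b j ∧ b j < (p : ℤ) ^ k) ∧
      (∀ j, (p : ℤ) ^ k ∣ MF (A j) w) ∧ ∀ v, (p : ℤ) ^ k ∣ ∑ j, b j * MD (A j) w v := by
  classical
  have hpp : Prime (p : ℤ) := Nat.prime_iff_prime_int.mp hp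
  have hp0 : (0 : ℤ) < p := by exact_mod_cast hp.pos
  have hp1 : (1 : ℤ) < p := by exact_mod_cast hp.one_lt
  have hpk0 : (0 : ℤ) < (p : ℤ) ^ k := pow_pos hp0 _
  have hpk1 : (1 : ℤ) < (p : ℤ) ^ k := one_lt_pow₀ hp1 (by omega)
  have hpk : (p : ℤ) ∣ (p : ℤ) ^ k := dvd_pow_self _ (by omega)
  choose u hu using fun i => px_inv p k hp _ (hτ i)
  have huu : ∀ i, ¬ (p : ℤ) ∣ u i := by
    intro i h1
    have h2 : (p : ℤ) ∣ 1 := by
      have h3 := dvd_sub (h1.mul_right (z ⟨i, τ i⟩)) (hpk.trans (hu i))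
      simpa using h3
    exact hpp.not_isUnit (isUnit_of_dvd_one h2)
  set x : MVar n → ℤ := fun v => u v.1 * z v with hx
  have hFx : ∀ j, (p : ℤ) ^ k ∣ MF (A j) x := by
    intro j
    rw [hx, MF_scale]
    exact (hF j).mul_left _
  set c' : Fin r → ℤ := fun j => c j * ∏ i, z ⟨i, τ i⟩ ^ d j i with hc'
  have hc'0 : ¬ (p : ℤ) ∣ c' j0 := by
    intro h1
    rcases hpp.dvd_or_dvd h1 with h2 | h2
    · exact hc h2
    · obtain ⟨i, -, hi⟩ := (hpp.dvd_finsetProd_iff _).mp h2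
      exact hτ i (hpp.dvd_of_dvd_pow hi)
  have hpow : ∀ j, (p : ℤ) ^ k ∣ (∏ i, z ⟨i, τ i⟩ ^ d j i) * (∏ i, u i ^ d j i) - 1 := by
    intro j
    rw [← Finset.prod_mul_distrib]
    have h1 : ∀ s : Finset ι, (p : ℤ) ^ k ∣ (∏ i ∈ s, (z ⟨i, τ i⟩ ^ d j i * u i ^ d j i)) - 1 := by
      intro s
      induction s using Finset.induction_on with
      | empty => simp
      | insert a s ha ih =>
        rw [Finset.prod_insert ha]
        have h2 : (p : ℤ) ^ k ∣ z ⟨a, τ a⟩ ^ d j a * u a ^ d j a - 1 := by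
          rw [← mul_pow]
          have h3 : z ⟨a, τ a⟩ * u a - 1 ∣ (z ⟨a, τ a⟩ * u a) ^ d j a - 1 ^ d j a :=
            sub_dvd_pow_sub_pow _ _ _
          rw [one_pow] at h3
          have h4 : z ⟨a, τ a⟩ * u a - 1 = u a * z ⟨a, τ a⟩ - 1 := by ring
          rw [h4] at h3
          exact (hu a).trans h3
        have h5 := dvd_add (h2.mul_right (∏ i ∈ s, (z ⟨i, τ i⟩ ^ d j i * u i ^ d j i))) ih
        have h6 : z ⟨a, τ a⟩ ^ d j a * u a ^ d j a *
            ∏ i ∈ s, (z ⟨i, τ i⟩ ^ d j i * u i ^ d j i) - 1 =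
            (z ⟨a, τ a⟩ ^ d j a * u a ^ d j a - 1) *
              (∏ i ∈ s, (z ⟨i, τ i⟩ ^ d j i * u i ^ d j i)) +
            ((∏ i ∈ s, (z ⟨i, τ i⟩ ^ d j i * u i ^ d j i)) - 1) := by ring
        rw [h6]
        exact h5
    exact h1 univ
  have hDx : ∀ v, (p : ℤ) ^ k ∣ ∑ j, c' j * MD (A j) x v := by
    intro v
    have h1 : (p : ℤ) ^ k ∣ u v.1 * ∑ j, c' j * MD (A j) x v := by
      have h2 : u v.1 * ∑ j, c' j * MD (A j) x v =
          (∑ j, c j * MD (A j) z v) + ∑ j, ((∏ i, z ⟨i, τ i⟩ ^ d j i) * (∏ i, u i ^ d j i) - 1) *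
            (c j * MD (A j) z v) := by
        rw [Finset.mul_sum, ← Finset.sum_add_distrib]
        refine Finset.sum_congr rfl fun j _ => ?_
        have h3 := MD_scale u (A j) z v
        rw [hc']
        simp only
        linear_combination (c j * ∏ i, z ⟨i, τ i⟩ ^ d j i) * h3
      rw [h2]
      exact dvd_add (hD v) (Finset.dvd_sum fun j _ => (hpow j).mul_right _)
    exact IsCoprime.dvd_of_dvd_mul_left
      (IsCoprime.pow_left (hpp.coprime_iff_not_dvd.mpr (huu v.1))) h1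
  set w : MVar n → ℤ := fun v => x v % (p : ℤ) ^ k with hw
  have hdvd : ∀ v, (p : ℤ) ^ k ∣ w v - x v := fun v =>
    ⟨-(x v / (p : ℤ) ^ k), by
      have := Int.emod_add_mul_ediv (x v) ((p : ℤ) ^ k)
      rw [hw]
      simp only
      linear_combination this⟩
  have hFw : ∀ j, (p : ℤ) ^ k ∣ MF (A j) w := by
    intro j
    have h1 := MF_congr_mod ((p : ℤ) ^ k) (A j) (A j) w x (fun m => by simp) hdvd
    have h2 := dvd_add h1 (hFx j)
    simpa using h2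
  have hDw : ∀ v, (p : ℤ) ^ k ∣ ∑ j, c' j * MD (A j) w v := by
    intro v
    have h1 : ∑ j, c' j * MD (A j) w v = (∑ j, c' j * MD (A j) x v) +
        ∑ j, c' j * (MD (A j) w v - MD (A j) x v) := by
      rw [← Finset.sum_add_distrib]
      exact Finset.sum_congr rfl fun j _ => by ring
    rw [h1]
    exact dvd_add (hDx v) (Finset.dvd_sum fun j _ =>
      (MD_congr_mod ((p : ℤ) ^ k) (A j) (A j) w x v (fun m => by simp) hdvd).mul_left _)
  obtain ⟨b, hb1, hb2, hb3⟩ := pc_norm p k hp hk (fun j v => MD (A j) w v) c' j0 hc'0 hDw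
  refine ⟨w, b, fun i => ?_, hb1, fun v => ⟨Int.emod_nonneg _ hpk0.ne',
    Int.emod_lt_of_pos _ hpk0⟩, hb2, hFw, hb3⟩
  have h1 : x ⟨i, τ i⟩ % (p : ℤ) ^ k = 1 % (p : ℤ) ^ k :=
    Int.emod_eq_emod_iff_emod_sub_eq_zero.mpr (Int.emod_eq_zero_of_dvd (hu i))
  rw [hw]
  simp only
  rw [h1]
  exact Int.emod_eq_of_lt zero_le_one hpk1

/-- vectors with entries in `[0, p ^ k)`, entries off `S` equal to `1` -/
theorem px_card {α : Type} [Fintype α] [DecidableEq α] (p k : ℕ) (P : α → Prop) [DecidablePred P] :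
    (Fintype.piFinset fun v : α => if P v then Finset.Ico (0 : ℤ) ((p : ℤ) ^ k) else {1}).card =
      (p ^ k) ^ (univ.filter P).card := by
  rw [Fintype.card_piFinset]
  have h1 : ∀ v : α, (if P v then Finset.Ico (0 : ℤ) ((p : ℤ) ^ k)
      else {1}).card = if P v then p ^ k else 1 := by
    intro v
    split_ifs
    · rw [Int.card_Ico, sub_zero, ← Nat.cast_pow, Int.toNat_natCast]
    · simp
  rw [Finset.prod_congr rfl fun v _ => h1 v, Finset.prod_ite, Finset.prod_const_one, mul_one,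
    Finset.prod_const]

theorem px_card_ne {r : ℕ} (j0 : Fin r) : (univ.filter fun j : Fin r => j ≠ j0).card = r - 1 := by
  rw [Finset.filter_ne', Finset.card_erase_of_mem (Finset.mem_univ _), Finset.card_univ,
    Fintype.card_fin]

theorem p_padic_exc1 (n : ι → ℕ) {r : ℕ} (d : Fin r → ι → ℕ) (hr : 1 ≤ r)
    (hd : ∀ j i, 1 ≤ d j i) : ∃ C : ℝ, 0 < C ∧ ∀ p : ℕ, p.Prime → ∀ k : ℕ, 1 ≤ k →
    ∀ᶠ H : ℕ in atTop,
      (Set.ncard {A : PSys n d ℤ | A ∈ pbox n d H ∧ ∃ z : MVar n → ℤ, BUnit p z ∧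
        (∀ j, (p : ℤ) ^ k ∣ MF (A j) z) ∧
        ∀ J : Fin r → MVar n, (p : ℤ) ^ (r * k) ∣ (PJac A z J).det} : ℝ) ≤
        C / (p : ℝ) ^ k * (2 * H + 1) ^ NP n d := by
  classical
  have hrR : (0 : ℝ) < r := by exact_mod_cast hr
  have hcardpos : 0 < Fintype.card (∀ i, Fin (n i + 1)) := Fintype.card_pos
  refine ⟨2 * (r * Fintype.card (∀ i, Fin (n i + 1)) : ℝ), by positivity, ?_⟩
  intro p hp k hk
  filter_upwards [pcond_p (n := n) (d := d) hd p hp k k] with H hH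
  have hp0 : (0 : ℤ) < p := by exact_mod_cast hp.pos
  have hpR : (0 : ℝ) < p := by exact_mod_cast hp.pos
  have hpp : Prime (p : ℤ) := Nat.prime_iff_prime_int.mp hp
  set U : (∀ i, Fin (n i + 1)) → Finset (MVar n) := fun τ => univ.filter fun v => v.2 ≠ τ v.1
    with hU
  set X : (∀ i, Fin (n i + 1)) → Finset (MVar n → ℤ) := fun τ =>
    Fintype.piFinset fun v => if v.2 ≠ τ v.1 then Finset.Ico (0 : ℤ) ((p : ℤ) ^ k) else {1}
    with hX
  set Y : Fin r → Finset (Fin r → ℤ) := fun j0 =>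
    Fintype.piFinset fun j => if j ≠ j0 then Finset.Ico (0 : ℤ) ((p : ℤ) ^ k) else {1} with hY
  have hXcard : ∀ τ, (X τ).card = (p ^ k) ^ (U τ).card := fun τ =>
    px_card (α := MVar n) p k (fun v => v.2 ≠ τ v.1)
  have hYcard : ∀ j0, (Y j0).card = (p ^ k) ^ (r - 1) := fun j0 => by
    rw [← px_card_ne j0]
    exact px_card (α := Fin r) p k (fun j => j ≠ j0)
  set T : (∀ i, Fin (n i + 1)) → (MVar n → ℤ) × (Fin r → ℤ) → Set (PSys n d ℤ) := fun τ z =>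
    {A : PSys n d ℤ | A ∈ pbox n d H ∧ (∀ j, (p : ℤ) ^ k ∣ MF (A j) z.1) ∧
        ∀ v ∈ U τ, (p : ℤ) ^ k ∣ ∑ j, z.2 j * MD (A j) z.1 v} with hT
  have hfin : ∀ τ z, (T τ z).Finite := fun τ z => pbox_finite H fun A =>
    (∀ j, (p : ℤ) ^ k ∣ MF (A j) z.1) ∧ ∀ v ∈ U τ, (p : ℤ) ^ k ∣ ∑ j, z.2 j * MD (A j) z.1 v
  set Z : Finset (Σ _ : (∀ i, Fin (n i + 1)) × Fin r, (MVar n → ℤ) × (Fin r → ℤ)) :=
    univ.sigma fun q => X q.1 ×ˢ Y q.2 with hZ
  have hsub : {A : PSys n d ℤ | A ∈ pbox n d H ∧ ∃ z : MVar n → ℤ, BUnit p z ∧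
        (∀ j, (p : ℤ) ^ k ∣ MF (A j) z) ∧
        ∀ J : Fin r → MVar n, (p : ℤ) ^ (r * k) ∣ (PJac A z J).det} ⊆
      ⋃ x ∈ Z, T x.1.1 x.2 := by
    rintro A ⟨hA, z, hz, hF, hJ⟩
    choose τ hτ using hz
    obtain ⟨c, ⟨j0, hj0⟩, hc⟩ := lk_padic (V := MVar n) hr (fun j v => MD (A j) z v) p k hp hJ
    obtain ⟨w, b, hw1, hb1, hw2, hb2, hw3, hw4⟩ := pp_norm p k hp hk A z τ hτ c j0 hj0 hF hc
    refine Set.mem_iUnion₂.mpr ⟨⟨(τ, j0), (w, b)⟩, ?_, hA, hw3, fun v _ => hw4 v⟩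
    rw [hZ, Finset.mem_sigma]
    refine ⟨Finset.mem_univ _, ?_⟩
    rw [Finset.mem_product, hX, hY]
    simp only
    rw [Fintype.mem_piFinset, Fintype.mem_piFinset]
    constructor
    · intro v
      split_ifs with h1
      · rw [Finset.mem_Ico]
        exact hw2 v
      · rw [Finset.mem_singleton]
        push Not at h1
        have h2 : v = ⟨v.1, τ v.1⟩ := by rw [← h1]
        rw [h2]
        exact hw1 v.1
    · intro j
      split_ifs with h1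
      · rw [Finset.mem_Ico]
        exact hb2 j
      · rw [Finset.mem_singleton]
        push Not at h1
        rw [h1]
        exact hb1
  have h1 : (Set.ncard {A : PSys n d ℤ | A ∈ pbox n d H ∧ ∃ z : MVar n → ℤ, BUnit p z ∧
        (∀ j, (p : ℤ) ^ k ∣ MF (A j) z) ∧
        ∀ J : Fin r → MVar n, (p : ℤ) ^ (r * k) ∣ (PJac A z J).det} : ℝ) ≤
      ∑ x ∈ Z, (Set.ncard (T x.1.1 x.2) : ℝ) := by
    have h2 := Set.ncard_le_ncard hsub
      (Set.Finite.biUnion Z.finite_toSet fun x _ => hfin x.1.1 x.2)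
    have h3 := Finset.set_ncard_biUnion_le Z fun x => T x.1.1 x.2
    exact_mod_cast h2.trans h3
  refine h1.trans ?_
  rw [hZ, Finset.sum_sigma]
  have h2 : ∀ q : (∀ i, Fin (n i + 1)) × Fin r, ∑ z ∈ X q.1 ×ˢ Y q.2, (Set.ncard (T q.1 z) : ℝ) ≤
      2 / (p : ℝ) ^ k * (2 * H + 1) ^ NP n d := by
    rintro ⟨τ, j0⟩
    have h3 : ∀ z ∈ X τ ×ˢ Y j0, (Set.ncard (T τ z) : ℝ) ≤
        2 * (2 * H + 1) ^ NP n d / (p : ℝ) ^ (k * r + k * (U τ).card) := by
      intro z hz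
      rw [Finset.mem_product, hX, hY] at hz
      simp only at hz
      rw [Fintype.mem_piFinset, Fintype.mem_piFinset] at hz
      refine hH τ z.1 (fun i => ?_) z.2 j0 ?_ (U τ) (fun v hv => ?_)
      · have h4 := hz.1 ⟨i, τ i⟩
        simp only [ne_eq, not_true_eq_false, if_false, Finset.mem_singleton] at h4
        rw [h4]
        intro h5
        exact hpp.not_isUnit (isUnit_of_dvd_one h5)
      · have h4 := hz.2 j0
        simp only [ne_eq, not_true_eq_false, if_false, Finset.mem_singleton] at h4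
        rw [h4]
        intro h5
        exact hpp.not_isUnit (isUnit_of_dvd_one h5)
      · rw [hU] at hv
        exact (Finset.mem_filter.mp hv).2
    refine (Finset.sum_le_sum h3).trans ?_
    rw [Finset.sum_const, nsmul_eq_mul, Finset.card_product, hXcard τ, hYcard j0]
    push_cast
    have h4 : (p : ℝ) ^ (k * r + k * (U τ).card) =
        ((p : ℝ) ^ k) ^ (U τ).card * ((p : ℝ) ^ k) ^ (r - 1) * (p : ℝ) ^ k := by
      rw [← pow_add, ← pow_succ, ← pow_mul]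
      congr 1
      have h6 : (U τ).card + (r - 1) + 1 = r + (U τ).card := by omega
      rw [h6]
      ring
    rw [h4]
    have h5 : (0 : ℝ) < ((p : ℝ) ^ k) ^ (U τ).card := by positivity
    have h6 : (0 : ℝ) < (p : ℝ) ^ k := by positivity
    have h7 : (0 : ℝ) < ((p : ℝ) ^ k) ^ (r - 1) := by positivity
    apply le_of_eq
    field_simp
  refine (Finset.sum_le_sum fun q _ => h2 q).trans ?_
  rw [Finset.sum_const, nsmul_eq_mul, Finset.card_univ, Fintype.card_prod, Fintype.card_fin]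
  apply le_of_eq
  push_cast
  ring

end multi

end CIPHP
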