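import Pool.Agent.Lib.MP_e426f4_ag.P.CondP
import Pool.Agent.Lib.MP_e426f4_ag.P.Hens
import Pool.Agent.Lib.MP_e426f4_ag.P.PadicExc1

/-! Module P-X2P: systems with a nonsingular `p`-adic zero, but without a good one. -/

namespace CIPHP

open Finset Filter Topology GenHP

section multi
variable {ι : Type} [Fintype ι] [DecidableEq ι] {n : ι → ℕ} {r : ℕ} {d : Fin r → ι → ℕ}

theorem p_padic_exc2 (hr : 1 ≤ r) (hd : ∀ j i, 1 ≤ d j i) (i0 : ι) (hn0 : r ≤ n i0) (p : ℕ)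
    (hp : p.Prime) (k1 : ℕ) (hk1 : 1 ≤ k1) (eps : ℝ) (he : 0 < eps) :
    ∃ k0 : ℕ, ∀ k : ℕ, k0 ≤ k → ∀ᶠ H : ℕ in atTop,
      (Set.ncard {A : PSys n d ℤ | A ∈ pbox n d H ∧
        (∃ z : MVar n → ℤ, BUnit p z ∧ (∀ j, (p : ℤ) ^ (2 * k1) ∣ MF (A j) z) ∧
          ∃ J : Fin r → MVar n, ¬ (p : ℤ) ^ k1 ∣ (PJac A z J).det) ∧ ¬ PGoodP i0 p k A} : ℝ) ≤
        eps * (2 * H + 1) ^ NP n d := by
  classical
  have hp0 : (0 : ℤ) < p := by exact_mod_cast hp.pos
  have hpR : (0 : ℝ) < p := by exact_mod_cast hp.pos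
  have hpR1 : (1 : ℝ) < p := by exact_mod_cast hp.one_lt
  have hpp : Prime (p : ℤ) := Nat.prime_iff_prime_int.mp hp
  have hrR : (0 : ℝ) < r := by exact_mod_cast hr
  set V := Fintype.card (MVar n) with hV
  have hV1 : r ≤ V := by
    have h1 : Fintype.card (Fin (n i0 + 1)) ≤ Fintype.card (MVar n) :=
      Fintype.card_le_of_injective (fun a => (⟨i0, a⟩ : MVar n)) fun a b hab => by simpa using hab
    rw [Fintype.card_fin] at h1
    omega
  set D := 2 * k1 * (V - r) with hD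
  -- the choice of `k0`
  obtain ⟨k2, hk2⟩ : ∃ k2 : ℕ, ∀ k : ℕ, k2 ≤ k → 2 * r * (p : ℝ) ^ D ≤ eps * (p : ℝ) ^ k := by
    have h1 : Tendsto (fun k : ℕ => eps * (p : ℝ) ^ k) atTop atTop :=
      (tendsto_pow_atTop_atTop_of_one_lt hpR1).const_mul_atTop he
    have h2 := h1.eventually_ge_atTop (2 * r * (p : ℝ) ^ D)
    exact Filter.eventually_atTop.mp h2
  refine ⟨max k1 (r * (k2 + 1)), fun k hk => ?_⟩
  have hkk1 : k1 ≤ k := (le_max_left _ _).trans hk
  have hkk2 : r * (k2 + 1) ≤ k := (le_max_right _ _).trans hk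
  obtain ⟨k', hk'1, hk'2⟩ : ∃ k' : ℕ, k2 + 1 ≤ k' ∧ r * k' ≤ k :=
    ⟨k / r, (Nat.le_div_iff_mul_le hr).mpr (by rw [mul_comm]; exact hkk2), Nat.mul_div_le k r⟩
  filter_upwards [pcond_p (n := n) (d := d) hd p hp k' (2 * k)] with H hH
  set B : Finset (PSys n d ℤ) := (pbox_finite (n := n) (d := d) H fun A =>
    (∃ z : MVar n → ℤ, BUnit p z ∧ (∀ j, (p : ℤ) ^ (2 * k1) ∣ MF (A j) z) ∧
          ∃ J : Fin r → MVar n, ¬ (p : ℤ) ^ k1 ∣ (PJac A z J).det) ∧ ¬ PGoodP i0 p k A).toFinset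
    with hB
  have hset : {A : PSys n d ℤ | A ∈ pbox n d H ∧
        (∃ z : MVar n → ℤ, BUnit p z ∧ (∀ j, (p : ℤ) ^ (2 * k1) ∣ MF (A j) z) ∧
          ∃ J : Fin r → MVar n, ¬ (p : ℤ) ^ k1 ∣ (PJac A z J).det) ∧ ¬ PGoodP i0 p k A} =
      (B : Set (PSys n d ℤ)) := by
    rw [hB, Set.Finite.coe_toFinset]
  have hBmem : ∀ A, A ∈ B ↔ A ∈ pbox n d H ∧
        (∃ z : MVar n → ℤ, BUnit p z ∧ (∀ j, (p : ℤ) ^ (2 * k1) ∣ MF (A j) z) ∧
          ∃ J : Fin r → MVar n, ¬ (p : ℤ) ^ k1 ∣ (PJac A z J).det) ∧ ¬ PGoodP i0 p k A := by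
    intro A
    rw [← Finset.mem_coe, ← hset]
    rfl
  rw [hset, Set.ncard_coe_finset]
  set Z : Finset (MVar n → ℤ) := (Fintype.piFinset fun _ : MVar n =>
    Finset.Ico (0 : ℤ) ((p : ℤ) ^ (2 * k))).filter fun z => BUnit p z with hZ
  have hZcard : (Z.card : ℝ) ≤ ((p : ℝ) ^ (2 * k)) ^ V := by
    have h1 : Z.card ≤ (p ^ (2 * k)) ^ V := by
      refine (Finset.card_filter_le _ _).trans ?_
      rw [Fintype.card_piFinset]
      simp only [Int.card_Ico, sub_zero, Finset.prod_const, Finset.card_univ]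
      have : ((p : ℤ) ^ (2 * k)).toNat = p ^ (2 * k) := by
        rw [← Nat.cast_pow, Int.toNat_natCast]
      rw [this]
    exact_mod_cast h1
  set rel : PSys n d ℤ → (MVar n → ℤ) → Prop := fun A z => ∀ j, (p : ℤ) ^ (2 * k) ∣ MF (A j) z
    with hrel
  -- many zeros for each bad system
  have habove : ∀ A ∈ B, (p ^ (2 * k - 2 * k1)) ^ (V - r) ≤ (Z.bipartiteAbove rel A).card := by
    intro A hA
    rw [hBmem] at hA
    obtain ⟨-, ⟨z0, hz0, hF0, J, hJ⟩, -⟩ := hA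
    have h1 := hens_zeros_sys (V := MVar n) (I := fun j => MIdx n (d j)) (fun j => mex) A p k1 k
      hp hk1 hkk1 z0 J hF0 hJ
    refine h1.trans ?_
    rw [← Set.ncard_coe_finset]
    refine Set.ncard_le_ncard ?_ (Finset.finite_toSet _)
    rintro z ⟨hz1, hz2, hz3⟩
    rw [Finset.mem_coe, Finset.mem_bipartiteAbove, hZ, Finset.mem_filter, Fintype.mem_piFinset]
    refine ⟨⟨fun v => Finset.mem_Ico.mpr (hz1 v), fun i => ?_⟩, hz3⟩
    obtain ⟨a, ha⟩ := hz0 i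
    refine ⟨a, fun h2 => ha ?_⟩
    have h3 := dvd_sub h2 (hz2 ⟨i, a⟩)
    simpa using h3
  set Y : Fin r → Finset (Fin r → ℤ) := fun j0 =>
    Fintype.piFinset fun j => if j ≠ j0 then Finset.Ico (0 : ℤ) ((p : ℤ) ^ k') else {1} with hY
  have hYcard : ∀ j0, (Y j0).card = (p ^ k') ^ (r - 1) := fun j0 => by
    rw [← px_card_ne j0]
    exact px_card (α := Fin r) p k' (fun j => j ≠ j0)
  set W : Finset (Σ _ : Fin r, (Fin r → ℤ)) := univ.sigma fun j0 => Y j0 with hW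
  have hWcard : W.card = r * (p ^ k') ^ (r - 1) := by
    rw [hW, Finset.card_sigma, Finset.sum_congr rfl fun j _ => hYcard j, Finset.sum_const,
      Finset.card_univ, Fintype.card_fin, smul_eq_mul]
  -- few systems for each point
  have hbelow : ∀ z ∈ Z, ((B.bipartiteBelow rel z).card : ℝ) ≤
      r * ((p : ℝ) ^ k') ^ (r - 1) *
        (2 * (2 * H + 1) ^ NP n d / (p : ℝ) ^ (2 * k * r + k' * n i0)) := by
    intro z hz
    rw [hZ, Finset.mem_filter] at hz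
    have hz2 := hz.2
    choose τ hτ using hz2
    set U : Finset (MVar n) := (univ.erase (τ i0)).image fun a => (⟨i0, a⟩ : MVar n) with hU
    have hUcard : U.card = n i0 := by
      rw [hU, Finset.card_image_of_injective, Finset.card_erase_of_mem (Finset.mem_univ _),
        Finset.card_univ, Fintype.card_fin]
      · simp
      · intro a b hab
        simpa using hab
    set T : (Fin r → ℤ) → Set (PSys n d ℤ) := fun b =>
      {A : PSys n d ℤ | A ∈ pbox n d H ∧ (∀ j, (p : ℤ) ^ (2 * k) ∣ MF (A j) z) ∧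
        ∀ v ∈ U, (p : ℤ) ^ k' ∣ ∑ j, b j * MD (A j) z v} with hT
    have hTfin : ∀ b, (T b).Finite := fun b => pbox_finite H fun A =>
      (∀ j, (p : ℤ) ^ (2 * k) ∣ MF (A j) z) ∧ ∀ v ∈ U, (p : ℤ) ^ k' ∣ ∑ j, b j * MD (A j) z v
    have hTcard : ∀ x ∈ W, (Set.ncard (T x.2) : ℝ) ≤
        2 * (2 * H + 1) ^ NP n d / (p : ℝ) ^ (2 * k * r + k' * n i0) := by
      rintro ⟨j0, b⟩ hx
      rw [hW, Finset.mem_sigma] at hx
      have hb := hx.2
      rw [hY] at hb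
      simp only at hb
      rw [Fintype.mem_piFinset] at hb
      have hb1 := hb j0
      simp only [ne_eq, not_true_eq_false, if_false, Finset.mem_singleton] at hb1
      have h1 := hH τ z hτ b j0 (by
        rw [hb1]
        intro h5
        exact hpp.not_isUnit (isUnit_of_dvd_one h5)) U (by
        intro v hv
        rw [hU, Finset.mem_image] at hv
        obtain ⟨a, ha, rfl⟩ := hv
        exact (Finset.mem_erase.mp ha).1)
      rw [hUcard] at h1
      exact h1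
    have hcov : ((B.bipartiteBelow rel z : Finset (PSys n d ℤ)) : Set (PSys n d ℤ)) ⊆
        ⋃ x ∈ W, T x.2 := by
      intro A hA
      rw [Finset.mem_coe, Finset.mem_bipartiteBelow, hBmem] at hA
      obtain ⟨⟨hA1, -, hA2⟩, hA3⟩ := hA
      have hdet : ∀ J : Fin r → Fin (n i0 + 1), (p : ℤ) ^ (r * k') ∣
          (Matrix.of fun (j : Fin r) l => MD (A j) z ⟨i0, J l⟩).det := by
        intro J
        refine (pow_dvd_pow _ hk'2).trans ?_
        by_contra h3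
        exact hA2 ⟨z, hz.2, hA3, J, h3⟩
      obtain ⟨c, ⟨j0, hj0⟩, hc⟩ := lk_padic (V := Fin (n i0 + 1)) hr
        (fun j a => MD (A j) z ⟨i0, a⟩) p k' hp hdet
      obtain ⟨b, hb1, hb2, hb3⟩ := pc_norm p k' hp (by omega) _ c j0 hj0 hc
      refine Set.mem_iUnion₂.mpr ⟨⟨j0, b⟩, ?_, hA1, hA3, fun v hv => ?_⟩
      · rw [hW, Finset.mem_sigma]
        refine ⟨Finset.mem_univ _, ?_⟩
        rw [hY]
        simp only
        rw [Fintype.mem_piFinset]
        intro j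
        split_ifs with h1
        · rw [Finset.mem_Ico]
          exact hb2 j
        · rw [Finset.mem_singleton]
          push Not at h1
          rw [h1]
          exact hb1
      · rw [hU, Finset.mem_image] at hv
        obtain ⟨a, -, rfl⟩ := hv
        exact hb3 a
    have h2 : ((B.bipartiteBelow rel z).card : ℝ) ≤ ∑ x ∈ W, (Set.ncard (T x.2) : ℝ) := by
      have h3 := Set.ncard_le_ncard hcov
        (Set.Finite.biUnion W.finite_toSet fun x _ => hTfin x.2)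
      rw [Set.ncard_coe_finset] at h3
      have h4 := Finset.set_ncard_biUnion_le W fun x => T x.2
      exact_mod_cast h3.trans h4
    refine h2.trans ((Finset.sum_le_sum hTcard).trans ?_)
    rw [Finset.sum_const, nsmul_eq_mul, hWcard]
    push_cast
    exact le_rfl
  have hdc := Finset.sum_card_bipartiteAbove_eq_sum_card_bipartiteBelow (s := B) (t := Z) rel
  have h1 : (B.card : ℝ) * ((p : ℝ) ^ (2 * k - 2 * k1)) ^ (V - r) ≤
      ((p : ℝ) ^ (2 * k)) ^ V * (r * ((p : ℝ) ^ k') ^ (r - 1) *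
        (2 * (2 * H + 1) ^ NP n d / (p : ℝ) ^ (2 * k * r + k' * n i0))) := by
    calc (B.card : ℝ) * ((p : ℝ) ^ (2 * k - 2 * k1)) ^ (V - r)
        = ∑ A ∈ B, ((p : ℝ) ^ (2 * k - 2 * k1)) ^ (V - r) := by
          rw [Finset.sum_const, nsmul_eq_mul]
      _ ≤ ∑ A ∈ B, ((Z.bipartiteAbove rel A).card : ℝ) := by
          refine Finset.sum_le_sum fun A hA => ?_
          exact_mod_cast habove A hA
      _ = ∑ z ∈ Z, ((B.bipartiteBelow rel z).card : ℝ) := by exact_mod_cast hdc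
      _ ≤ ∑ z ∈ Z, (r * ((p : ℝ) ^ k') ^ (r - 1) *
            (2 * (2 * H + 1) ^ NP n d / (p : ℝ) ^ (2 * k * r + k' * n i0))) :=
          Finset.sum_le_sum hbelow
      _ = Z.card * (r * ((p : ℝ) ^ k') ^ (r - 1) *
            (2 * (2 * H + 1) ^ NP n d / (p : ℝ) ^ (2 * k * r + k' * n i0))) := by
          rw [Finset.sum_const, nsmul_eq_mul]
      _ ≤ _ := by gcongr
  have h2 : ((p : ℝ) ^ (2 * k)) ^ V =
      ((p : ℝ) ^ (2 * k - 2 * k1)) ^ (V - r) * (p : ℝ) ^ D * (p : ℝ) ^ (2 * k * r) := by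
    rw [← pow_mul, ← pow_mul, ← pow_add, ← pow_add]
    congr 1
    rw [hD]
    obtain ⟨W', hW'⟩ : ∃ W', V = W' + r := ⟨V - r, by omega⟩
    obtain ⟨j, hj⟩ : ∃ j, k = k1 + j := ⟨k - k1, by omega⟩
    rw [hW', hj]
    have : 2 * (k1 + j) - 2 * k1 = 2 * j := by omega
    rw [this, Nat.add_sub_cancel]
    ring
  have h3 : (p : ℝ) ^ (2 * k * r + k' * n i0) = (p : ℝ) ^ (k' * n i0) * (p : ℝ) ^ (2 * k * r) := by
    rw [← pow_add]; congr 1; ring
  have hq1 : (0 : ℝ) < ((p : ℝ) ^ (2 * k - 2 * k1)) ^ (V - r) := by positivity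
  have hq2 : (0 : ℝ) < (p : ℝ) ^ (2 * k * r) := by positivity
  have hq3 : (0 : ℝ) < (p : ℝ) ^ (k' * n i0) := by positivity
  have h4 : ((p : ℝ) ^ (2 * k)) ^ V * (r * ((p : ℝ) ^ k') ^ (r - 1) *
        (2 * (2 * H + 1) ^ NP n d / (p : ℝ) ^ (2 * k * r + k' * n i0))) =
      (2 * r * (p : ℝ) ^ D * ((p : ℝ) ^ k') ^ (r - 1) / (p : ℝ) ^ (k' * n i0) *
        (2 * H + 1) ^ NP n d) * ((p : ℝ) ^ (2 * k - 2 * k1)) ^ (V - r) := by
    rw [h2, h3]
    field_simp
  rw [h4] at h1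
  have h5 := le_of_mul_le_mul_right h1 hq1
  refine h5.trans ?_
  have h6 : 2 * r * (p : ℝ) ^ D * ((p : ℝ) ^ k') ^ (r - 1) / (p : ℝ) ^ (k' * n i0) ≤ eps := by
    rw [div_le_iff₀ hq3]
    have h7 : (p : ℝ) ^ k' * ((p : ℝ) ^ k') ^ (r - 1) ≤ (p : ℝ) ^ (k' * n i0) := by
      rw [← pow_succ', ← pow_mul]
      refine pow_le_pow_right₀ hpR1.le (Nat.mul_le_mul_left _ (by omega))
    calc 2 * r * (p : ℝ) ^ D * ((p : ℝ) ^ k') ^ (r - 1)
        ≤ (eps * (p : ℝ) ^ k') * ((p : ℝ) ^ k') ^ (r - 1) := by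
          have := hk2 k' (by omega)
          gcongr
      _ = eps * ((p : ℝ) ^ k' * ((p : ℝ) ^ k') ^ (r - 1)) := by ring
      _ ≤ eps * (p : ℝ) ^ (k' * n i0) := by gcongr
  gcongr

end multi

end CIPHP
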