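import Pool.Agent.Lib.MP_e426f4_ag.P.PadicExc1
import Pool.Agent.Lib.MP_e426f4_ag.P.PadicExc2

/-! Module P-XP: `p`-adically exceptional systems. -/

namespace CIPHP

open Finset Filter Topology GenHP

section multi
variable {ι : Type} [Fintype ι] [DecidableEq ι] {n : ι → ℕ} {r : ℕ} {d : Fin r → ι → ℕ}

theorem p_padic_exc (hr : 1 ≤ r) (hd : ∀ j i, 1 ≤ d j i) (i0 : ι) (hn0 : r ≤ n i0) (p : ℕ)
    (hp : p.Prime) (eps : ℝ) (he : 0 < eps) : ∃ k0 : ℕ, ∀ k : ℕ, k0 ≤ k → ∀ᶠ H : ℕ in atTop,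
      (Set.ncard {A : PSys n d ℤ | A ∈ pbox n d H ∧
        (∀ l : ℕ, ∃ z : MVar n → ℤ, BUnit p z ∧ ∀ j, (p : ℤ) ^ (2 * l) ∣ MF (A j) z) ∧
          ¬ PGoodP i0 p k A} : ℝ) ≤ eps * (2 * H + 1) ^ NP n d := by
  have hpR : (0 : ℝ) < p := by exact_mod_cast hp.pos
  have hpR1 : (1 : ℝ) < p := by exact_mod_cast hp.one_lt
  obtain ⟨C, hC, hC1⟩ := p_padic_exc1 n d hr hd
  -- the choice of `k1`
  obtain ⟨ka, hka, hka'⟩ : ∃ ka : ℕ, 1 ≤ ka ∧ C / (p : ℝ) ^ ka ≤ eps / 2 := by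
    have h1 : Tendsto (fun k : ℕ => eps / 2 * (p : ℝ) ^ k) atTop atTop :=
      (tendsto_pow_atTop_atTop_of_one_lt hpR1).const_mul_atTop (by positivity)
    obtain ⟨k, hk1, hk2⟩ := ((h1.eventually_ge_atTop C).and (eventually_ge_atTop 1)).exists
    refine ⟨k, hk2, ?_⟩
    rw [div_le_iff₀ (by positivity)]
    exact hk1
  obtain ⟨k1, hk1⟩ : ∃ k1 : ℕ, k1 = r * ka := ⟨_, rfl⟩
  have hk1' : 1 ≤ k1 := by
    rw [hk1]
    exact Nat.mul_pos hr hka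
  have hkak1 : ka ≤ 2 * k1 := by
    have : 1 * ka ≤ r * ka := Nat.mul_le_mul_right _ hr
    omega
  obtain ⟨k0, hk0⟩ := p_padic_exc2 (n := n) (d := d) hr hd i0 hn0 p hp k1 hk1' (eps / 2)
    (by positivity)
  refine ⟨k0, fun k hk => ?_⟩
  filter_upwards [hC1 p hp ka hka, hk0 k hk] with H h1 h2
  set S1 := {A : PSys n d ℤ | A ∈ pbox n d H ∧ ∃ z : MVar n → ℤ, BUnit p z ∧
        (∀ j, (p : ℤ) ^ ka ∣ MF (A j) z) ∧
        ∀ J : Fin r → MVar n, (p : ℤ) ^ (r * ka) ∣ (PJac A z J).det} with hS1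
  set S2 := {A : PSys n d ℤ | A ∈ pbox n d H ∧
        (∃ z : MVar n → ℤ, BUnit p z ∧ (∀ j, (p : ℤ) ^ (2 * k1) ∣ MF (A j) z) ∧
          ∃ J : Fin r → MVar n, ¬ (p : ℤ) ^ k1 ∣ (PJac A z J).det) ∧ ¬ PGoodP i0 p k A} with hS2
  have hsub : {A : PSys n d ℤ | A ∈ pbox n d H ∧
        (∀ l : ℕ, ∃ z : MVar n → ℤ, BUnit p z ∧ ∀ j, (p : ℤ) ^ (2 * l) ∣ MF (A j) z) ∧
          ¬ PGoodP i0 p k A} ⊆ S1 ∪ S2 := by
    rintro A ⟨hA, hl, hg⟩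
    obtain ⟨z, hz, hF⟩ := hl k1
    by_cases hD : ∀ J : Fin r → MVar n, (p : ℤ) ^ (r * ka) ∣ (PJac A z J).det
    · exact Or.inl ⟨hA, z, hz, fun j => (pow_dvd_pow _ hkak1).trans (hF j), hD⟩
    · push Not at hD
      rw [← hk1] at hD
      exact Or.inr ⟨hA, ⟨z, hz, hF, hD⟩, hg⟩
  have hf1 : S1.Finite := pbox_finite H fun A => ∃ z : MVar n → ℤ, BUnit p z ∧
        (∀ j, (p : ℤ) ^ ka ∣ MF (A j) z) ∧
        ∀ J : Fin r → MVar n, (p : ℤ) ^ (r * ka) ∣ (PJac A z J).det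
  have hf2 : S2.Finite := pbox_finite H fun A =>
        (∃ z : MVar n → ℤ, BUnit p z ∧ (∀ j, (p : ℤ) ^ (2 * k1) ∣ MF (A j) z) ∧
          ∃ J : Fin r → MVar n, ¬ (p : ℤ) ^ k1 ∣ (PJac A z J).det) ∧ ¬ PGoodP i0 p k A
  have h3 := (Set.ncard_le_ncard hsub (hf1.union hf2)).trans (Set.ncard_union_le S1 S2)
  have h4 : (Set.ncard {A : PSys n d ℤ | A ∈ pbox n d H ∧
        (∀ l : ℕ, ∃ z : MVar n → ℤ, BUnit p z ∧ ∀ j, (p : ℤ) ^ (2 * l) ∣ MF (A j) z) ∧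
          ¬ PGoodP i0 p k A} : ℝ) ≤ (S1.ncard : ℝ) + S2.ncard := by exact_mod_cast h3
  refine h4.trans ?_
  have h5 : C / (p : ℝ) ^ ka * (2 * H + 1) ^ NP n d ≤
      eps / 2 * (2 * H + 1) ^ NP n d := by gcongr
  linarith

end multi

end CIPHP
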