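import Pool.Agent.Lib.MP_e426f4_ag.P.Alg
import Pool.Agent.Lib.MP_e426f4_ag.M.AlgReal
import Pool.Agent.Lib.MP_e426f4_ag.CI.Region

/-! Module P-GRID: grid points near a nonsingular real zero.

TEMPLATES: M/Grid.lean (r = 1) and CI/RealCount.lean (re2_P, re2_deriv, re2_adj, re2_local: port from F to MF; here Ainf = A' = A/H). K = bound for the entries of the Jacobian of A/H on |z| <= 2. L = Jacobian block of A/H at z0 with columns J,
|det L| >= bet1^r, L^{-1} entries <= (r-1)! K^r/bet1^r. kap = small constant (n, d, bet1) so that region_points (eps = 1/2) applies to Phi(t)_j = MF(A_j/H)(z0 + y + ∑ t_l e_{J l}) for all y off J with |y_v| <= kap^2; th1 = c kap bet1^r.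
For R >= R0(th): for each choice of the integers u_v (v off J) with |u_v/R - z0_v| <= kap^2 (at least (kap^2 R)^(|V|-r) choices) the number of (u_{J l}) is >= (1/2)(2 th)^r R^r/|det L| (h = 1/R, p0_l = - z0_{J l}, k_l = u_{J l}), |det L| <= r! K^r.
c = kap^(2(|V|-r)) 2^(r-1) / (r! K^r).
-/

namespace CIPHP

open Finset Filter Topology GenHP

section multi
variable {ι : Type} [Fintype ι] [DecidableEq ι]

/-- number of integers in an interval -/
private theorem pg_card_Icc (a b : ℝ) : b - a - 1 ≤ ((Icc ⌈a⌉ ⌊b⌋).card : ℝ) := by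
  rw [Int.card_Icc]
  have h1 := Int.ceil_lt_add_one a
  have h2 := Int.lt_floor_add_one b
  have h3 : ((⌊b⌋ + 1 - ⌈a⌉ : ℤ) : ℝ) ≤ ((⌊b⌋ + 1 - ⌈a⌉).toNat : ℝ) := by
    exact_mod_cast Int.self_le_toNat _
  push_cast at h3
  linarith

/-- the point with prescribed coordinates in the directions `J` -/
private noncomputable def pg_P {V : Type*} {r : ℕ} (J : Fin r → V) (xi y : V → ℝ)
    (t : Fin r → ℝ) : V → ℝ :=
  Function.extend J (fun l => xi (J l) + t l) y

private theorem pg_P_J {V : Type*} {r : ℕ} (J : Fin r → V) (hJ : Function.Injective J)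
    (xi y : V → ℝ) (t : Fin r → ℝ) (l : Fin r) :
    pg_P J xi y t (J l) = xi (J l) + t l :=
  hJ.extend_apply _ _ _

private theorem pg_P_not {V : Type*} {r : ℕ} (J : Fin r → V)
    (xi y : V → ℝ) (t : Fin r → ℝ) (j : V) (hj : ¬ ∃ l, J l = j) :
    pg_P J xi y t j = y j :=
  Function.extend_apply' _ _ _ hj

private theorem pg_deriv {n : ι → ℕ} {r : ℕ} {d : Fin r → ι → ℕ} (J : Fin r → MVar n)
    (hJ : Function.Injective J) (A : PSys n d ℝ) (xi y : MVar n → ℝ) (t : Fin r → ℝ) :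
    HasFDerivAt (fun (t : Fin r → ℝ) (i : Fin r) => MF (A i) (pg_P J xi y t))
      (Matrix.toLin' (PJac A (pg_P J xi y t) J)).toContinuousLinearMap t := by
  rw [hasFDerivAt_pi']
  intro i
  rw [hasFDerivAt_iff_isLittleO_nhds_zero]
  set x := pg_P J xi y t with hx
  have hP : ∀ s : Fin r → ℝ, pg_P J xi y (t + s) =
      fun j => x j + Function.extend J s 0 j := by
    intro s
    ext j
    by_cases hj : ∃ l, J l = j
    · obtain ⟨l, rfl⟩ := hj
      rw [hx, pg_P_J J hJ, pg_P_J J hJ, hJ.extend_apply, Pi.add_apply]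
      ring
    · rw [hx, pg_P_not J xi y _ j hj, pg_P_not J xi y _ j hj, Function.extend_apply' _ _ _ hj]
      simp
  have hsum : ∀ s : Fin r → ℝ, ∑ j, MD (A i) x j * Function.extend J s 0 j =
      ∑ l, MD (A i) x (J l) * s l := by
    intro s
    symm
    refine Fintype.sum_of_injective J hJ _ _ ?_ ?_
    · intro j hj
      have hj' : ¬ ∃ l, J l = j := fun ⟨l, hl⟩ => hj ⟨l, hl⟩
      rw [Function.extend_apply' _ _ _ hj']
      simp
    · intro l
      rw [hJ.extend_apply]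
  have hbound : ∀ s : Fin r → ℝ, ‖s‖ ≤ 1 →
      ‖MF (A i) (pg_P J xi y (t + s)) - MF (A i) x -
        ∑ l, MD (A i) x (J l) * s l‖ ≤
      (NM n (d i) * 4 ^ (∑ k, d i k) * ‖A i‖ * (1 + ‖x‖) ^ (∑ k, d i k)) * ‖(‖s‖ ^ 2)‖ := by
    intro s hs
    have h1 := MF_taylor (A i) x (Function.extend J s 0) ‖A i‖ (1 + ‖x‖) ‖s‖
      (by linarith [norm_nonneg x]) (norm_nonneg s) (by linarith [norm_nonneg x])
      (fun m => norm_le_pi_norm (A i) m) (fun j => (norm_le_pi_norm x j).trans (by linarith)) (by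
        intro j
        by_cases hj : ∃ l, J l = j
        · obtain ⟨l, rfl⟩ := hj
          rw [hJ.extend_apply]
          exact norm_le_pi_norm s l
        · rw [Function.extend_apply' _ _ _ hj]
          simp)
    rw [hP, ← hsum, Real.norm_eq_abs, Real.norm_of_nonneg (by positivity : (0 : ℝ) ≤ ‖s‖ ^ 2)]
    exact h1
  refine Asymptotics.IsBigO.trans_isLittleO (g := fun s : Fin r → ℝ => ‖s‖ ^ 2) ?_
    (Asymptotics.isLittleO_norm_pow_id (by norm_num))
  refine Asymptotics.IsBigO.of_bound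
    (NM n (d i) * 4 ^ (∑ k, d i k) * ‖A i‖ * (1 + ‖x‖) ^ (∑ k, d i k)) ?_
  have hball : Metric.closedBall (0 : Fin r → ℝ) 1 ∈ nhds (0 : Fin r → ℝ) :=
    Metric.closedBall_mem_nhds _ one_pos
  filter_upwards [hball] with s hs
  have hs' : ‖s‖ ≤ 1 := by simpa using hs
  have h2 := hbound s hs'
  have e1 : ((ContinuousLinearMap.proj i).comp
      (Matrix.toLin' (PJac A x J)).toContinuousLinearMap) s = ∑ l, MD (A i) x (J l) * s l := rfl
  rw [e1]
  exact h2

private theorem pg_adj {r : ℕ} (L : Matrix (Fin r) (Fin r) ℝ) (K : ℝ) (hK : 1 ≤ K)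
    (hL : ∀ i l, |L i l| ≤ K) (i l : Fin r) :
    |L.adjugate i l| ≤ (Nat.factorial r : ℝ) * K ^ r := by
  rw [Matrix.adjugate_apply]
  have h := Matrix.det_le (A := L.updateRow l (Pi.single i 1)) (abv := AbsoluteValue.abs)
    (x := K) (fun a b => by
      rw [Matrix.updateRow_apply]
      split_ifs with hab
      · change |(Pi.single i (1 : ℝ) : Fin r → ℝ) b| ≤ K
        rcases eq_or_ne b i with rfl | hbi
        · rw [Pi.single_eq_same, abs_one]
          exact hK
        · rw [Pi.single_eq_of_ne hbi, abs_zero]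
          linarith
      · exact hL a b)
  rw [Fintype.card_fin, nsmul_eq_mul] at h
  exact h

private theorem pg_det {r : ℕ} (L : Matrix (Fin r) (Fin r) ℝ) (K : ℝ)
    (hL : ∀ i l, |L i l| ≤ K) : |L.det| ≤ (Nat.factorial r : ℝ) * K ^ r := by
  have h := Matrix.det_le (A := L) (abv := AbsoluteValue.abs) (x := K) (fun a b => hL a b)
  rw [Fintype.card_fin, nsmul_eq_mul] at h
  exact h

/-- constants -/
private noncomputable def pg_KD (n : ι → ℕ) {r : ℕ} (d : Fin r → ι → ℕ) : ℝ :=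
  1 + ∑ j, ((NM n (d j) : ℝ) * (∑ i, d j i : ℕ) * 4 ^ (∑ i, d j i))

private noncomputable def pg_KF (n : ι → ℕ) {r : ℕ} (d : Fin r → ι → ℕ) : ℝ :=
  1 + ∑ j, ((NM n (d j) : ℝ) * (Fintype.card (MVar n) * (∑ i, d j i : ℕ) + 4 ^ (∑ i, d j i) * 1))

private theorem pg_KD_one (n : ι → ℕ) {r : ℕ} (d : Fin r → ι → ℕ) : 1 ≤ pg_KD n d := by
  unfold pg_KD
  have : (0 : ℝ) ≤ ∑ j, ((NM n (d j) : ℝ) * (∑ i, d j i : ℕ) * 4 ^ (∑ i, d j i)) :=
    Finset.sum_nonneg fun i _ => by positivity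
  linarith

private theorem pg_KF_one (n : ι → ℕ) {r : ℕ} (d : Fin r → ι → ℕ) : 1 ≤ pg_KF n d := by
  unfold pg_KF
  have : (0 : ℝ) ≤ ∑ j, ((NM n (d j) : ℝ) *
      (Fintype.card (MVar n) * (∑ i, d j i : ℕ) + 4 ^ (∑ i, d j i) * 1)) :=
    Finset.sum_nonneg fun i _ => by positivity
  linarith

private theorem pg_KD_ge (n : ι → ℕ) {r : ℕ} (d : Fin r → ι → ℕ) (j : Fin r) :
    (NM n (d j) : ℝ) * (∑ i, d j i : ℕ) * 4 ^ (∑ i, d j i) ≤ pg_KD n d := by
  unfold pg_KD
  have h := Finset.single_le_sum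
    (f := fun j => (NM n (d j) : ℝ) * (∑ i, d j i : ℕ) * 4 ^ (∑ i, d j i))
    (fun i _ => by positivity) (Finset.mem_univ j)
  linarith

private theorem pg_KF_ge (n : ι → ℕ) {r : ℕ} (d : Fin r → ι → ℕ) (j : Fin r) :
    (NM n (d j) : ℝ) * (Fintype.card (MVar n) * (∑ i, d j i : ℕ) + 4 ^ (∑ i, d j i) * 1) ≤
      pg_KF n d := by
  unfold pg_KF
  have h := Finset.single_le_sum
    (f := fun j => (NM n (d j) : ℝ) *
      (Fintype.card (MVar n) * (∑ i, d j i : ℕ) + 4 ^ (∑ i, d j i) * 1))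
    (fun i _ => by positivity) (Finset.mem_univ j)
  linarith

/-- the hypotheses of `region_points` -/
private theorem pg_local {n : ι → ℕ} {r : ℕ} {d : Fin r → ι → ℕ} (hr : 1 ≤ r) (bet del kap : ℝ)
    (hb : 0 < bet) (hkap : 0 < kap) (hk1 : kap ≤ 1 / 20)
    (Lam : ℝ) (hLam : Lam = r * ((Nat.factorial r : ℝ) * pg_KD n d ^ r / bet))
    (hk2 : Lam * (pg_KD n d + pg_KF n d) * (8 * kap) ≤ min del 1)
    (B : PSys n d ℝ) (xi y : MVar n → ℝ) (J : Fin r → MVar n)
    (hJ : Function.Injective J)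
    (hB : ∀ j t, |B j t| ≤ 1)
    (hxi : ∀ i, |xi i| ≤ 1) (hF : ∀ j, MF (B j) xi = 0)
    (hD : bet ≤ |(PJac B xi J).det|)
    (hy : ∀ j, (¬ ∃ l, J l = j) → |y j - xi j| ≤ kap ^ 2) :
    ∃ Li : Matrix (Fin r) (Fin r) ℝ, Li * PJac B xi J = 1 ∧
      (∀ t : Fin r → ℝ, (∀ i, |t i| ≤ 2 * kap) → ∀ i l,
        |(Li * PJac B (pg_P J xi y t) J - 1) i l| ≤ del) ∧
      (∀ t : Fin r → ℝ, (∀ i, |t i| ≤ 2 * kap) → ∀ i l,
        |PJac B (pg_P J xi y t) J i l| ≤ 2 * pg_KD n d) ∧
      (∀ i, |(Li.mulVec fun j => MF (B j) (pg_P J xi y 0)) i| ≤ kap / 4) ∧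
      (∀ th : ℝ, th ≤ kap / (8 * Lam) → ∀ y : Fin r → ℝ, (∀ i, |y i| ≤ 2 * th) →
        ∀ i, |(Li.mulVec y) i| ≤ kap / 4) ∧
      |(PJac B xi J).det| ≤ (Nat.factorial r : ℝ) * pg_KD n d ^ r := by
  have hKD := pg_KD_one n d
  have hKF := pg_KF_one n d
  obtain ⟨KD, hKDdef⟩ : ∃ K, K = pg_KD n d := ⟨_, rfl⟩
  obtain ⟨KF, hKFdef⟩ : ∃ K, K = pg_KF n d := ⟨_, rfl⟩
  rw [← hKDdef] at hKD hLam hk2 ⊢
  rw [← hKFdef] at hKF hk2
  obtain ⟨L, hL⟩ : ∃ L, L = PJac B xi J := ⟨_, rfl⟩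
  rw [← hL] at hD ⊢
  have hr' : (0 : ℝ) < r := by exact_mod_cast hr
  have hfac : (0 : ℝ) < Nat.factorial r := by exact_mod_cast Nat.factorial_pos r
  obtain ⟨c2, hc2⟩ : ∃ c2 : ℝ, c2 = (Nat.factorial r : ℝ) * KD ^ r / bet := ⟨_, rfl⟩
  have hc2pos : 0 < c2 := by rw [hc2]; positivity
  rw [← hc2] at hLam
  have hLampos : 0 < Lam := by rw [hLam]; positivity
  have hdet : L.det ≠ 0 := by
    intro h
    rw [h, abs_zero] at hD
    linarith
  have hLb : ∀ i l, |L i l| ≤ KD := by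
    intro i l
    have h1 := MD_abs_le (B i) xi (J l) 1 1 le_rfl (hB i) hxi
    rw [one_pow, mul_one, mul_one] at h1
    have h2 := pg_KD_ge n d i
    rw [← hKDdef] at h2
    have h3 : (1 : ℝ) ≤ 4 ^ (∑ k, d i k) := one_le_pow₀ (by norm_num)
    have h4 : (0 : ℝ) ≤ NM n (d i) * (∑ k, d i k : ℕ) := by positivity
    have h5 : (NM n (d i) : ℝ) * (∑ k, d i k : ℕ) ≤
        NM n (d i) * (∑ k, d i k : ℕ) * 4 ^ (∑ k, d i k) := le_mul_of_one_le_right h4 h3
    have h6 : |L i l| ≤ (NM n (d i) : ℝ) * (∑ k, d i k : ℕ) := by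
      rw [hL]
      exact h1
    linarith
  obtain ⟨Li, hLi⟩ : ∃ Li : Matrix (Fin r) (Fin r) ℝ, Li = (L.det)⁻¹ • L.adjugate := ⟨_, rfl⟩
  have hLiL : Li * L = 1 := by
    rw [hLi, Matrix.smul_mul, Matrix.adjugate_mul, smul_smul, inv_mul_cancel₀ hdet, one_smul]
  have hLib : ∀ i l, |Li i l| ≤ c2 := by
    intro i l
    have h1 := pg_adj L KD hKD hLb i l
    have h2 : Li i l = (L.det)⁻¹ * L.adjugate i l := by rw [hLi]; rfl
    rw [h2, abs_mul, abs_inv, hc2, div_eq_inv_mul]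
    exact mul_le_mul (inv_anti₀ hb hD) h1 (abs_nonneg _) (by positivity)
  have hmv : ∀ (v : Fin r → ℝ) (Y : ℝ), 0 ≤ Y → (∀ m, |v m| ≤ Y) → ∀ i,
      |∑ m, Li i m * v m| ≤ Lam * Y := by
    intro v Y hY hv i
    calc |∑ m, Li i m * v m| ≤ ∑ m, |Li i m * v m| := Finset.abs_sum_le_sum_abs _ _
      _ ≤ ∑ _m : Fin r, c2 * Y := by
          refine Finset.sum_le_sum fun m _ => ?_
          rw [abs_mul]
          exact mul_le_mul (hLib i m) (hv m) (abs_nonneg _) hc2pos.le
      _ = Lam * Y := by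
          rw [Finset.sum_const, Finset.card_univ, Fintype.card_fin, nsmul_eq_mul, hLam]
          ring
  have hq : ∀ t : Fin r → ℝ, (∀ i, |t i| ≤ 2 * kap) → ∀ j,
      |pg_P J xi y t j - xi j| ≤ 2 * kap := by
    intro t ht j
    by_cases hj : ∃ l, J l = j
    · obtain ⟨l, rfl⟩ := hj
      rw [pg_P_J J hJ]
      have : xi (J l) + t l - xi (J l) = t l := by ring
      rw [this]
      exact ht l
    · rw [pg_P_not J xi y t j hj]
      refine (hy j hj).trans ?_
      nlinarith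
  have hadd : ∀ q : MVar n → ℝ, (fun v => xi v + (q v - xi v)) = q := by
    intro q
    ext v
    ring
  have hdiff : ∀ t : Fin r → ℝ, (∀ i, |t i| ≤ 2 * kap) → ∀ i l,
      |PJac B (pg_P J xi y t) J i l - L i l| ≤ KD * (2 * kap) := by
    intro t ht i l
    have h1 := MD_taylor (B i) xi (fun v => pg_P J xi y t v - xi v) (J l) 1 1 (2 * kap)
      le_rfl (by linarith) (by linarith) (hB i) hxi (hq t ht)
    rw [hadd, one_pow, mul_one, mul_one] at h1
    have h2 := pg_KD_ge n d i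
    rw [← hKDdef] at h2
    have h3 : |PJac B (pg_P J xi y t) J i l - L i l| ≤
        (NM n (d i) * (∑ k, d i k : ℕ) * 4 ^ (∑ k, d i k)) * (2 * kap) := by
      rw [hL]
      exact h1
    exact h3.trans (mul_le_mul_of_nonneg_right h2 (by linarith))
  have hmin1 : min del 1 ≤ del := min_le_left _ _
  have hmin2 : min del 1 ≤ 1 := min_le_right _ _
  have hsplit : Lam * (KD + KF) * (8 * kap) = Lam * KD * (8 * kap) + Lam * KF * (8 * kap) := by ring
  have hpD : 0 < Lam * KD * (8 * kap) := by positivity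
  have hpF : 0 < Lam * KF * (8 * kap) := by positivity
  refine ⟨Li, hLiL, ?_, ?_, ?_, ?_, ?_⟩
  · intro t ht i l
    have h1 : (Li * PJac B (pg_P J xi y t) J - 1) i l =
        ∑ m, Li i m * (PJac B (pg_P J xi y t) J m l - L m l) := by
      rw [← hLiL]
      have : Li * PJac B (pg_P J xi y t) J - Li * L = Li * (PJac B (pg_P J xi y t) J - L) := by
        rw [Matrix.mul_sub]
      rw [this, Matrix.mul_apply]
      rfl
    rw [h1]
    refine (hmv _ (KD * (2 * kap)) (by positivity) (fun m => hdiff t ht m l) i).trans ?_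
    have h2 : Lam * (KD * (2 * kap)) = Lam * KD * (8 * kap) / 4 := by ring
    rw [h2]
    linarith
  · intro t ht i l
    have h1 := hdiff t ht i l
    have h2 := hLb i l
    have h3 : |PJac B (pg_P J xi y t) J i l| ≤
        |PJac B (pg_P J xi y t) J i l - L i l| + |L i l| := by
      calc |PJac B (pg_P J xi y t) J i l| =
          |(PJac B (pg_P J xi y t) J i l - L i l) + L i l| := by ring_nf
        _ ≤ _ := abs_add_le _ _
    have h4 : KD * (2 * kap) ≤ KD := by nlinarith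
    linarith
  · intro i
    have hq0 : ∀ j, |pg_P J xi y 0 j - xi j| ≤ kap ^ 2 := by
      intro j
      by_cases hj : ∃ l, J l = j
      · obtain ⟨l, rfl⟩ := hj
        rw [pg_P_J J hJ]
        simp
        positivity
      · rw [pg_P_not J xi y 0 j hj]
        exact hy j hj
    have hFb : ∀ m, |MF (B m) (pg_P J xi y 0)| ≤ KF * kap ^ 2 := by
      intro m
      have h1 := MF_lip (B m) xi (fun v => pg_P J xi y 0 v - xi v) 1 1 (kap ^ 2)
        le_rfl (by positivity) (by nlinarith) (hB m) hxi hq0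
      rw [hadd, one_pow, mul_one, mul_one, hF m, sub_zero] at h1
      refine h1.trans (mul_le_mul_of_nonneg_right ?_ (by positivity))
      rw [hKFdef]
      exact pg_KF_ge n d m
    refine (hmv _ (KF * kap ^ 2) (by positivity) hFb i).trans ?_
    have h2 : Lam * (KF * kap ^ 2) = (Lam * KF * (8 * kap)) * kap / 8 := by ring
    rw [h2]
    have h3 : Lam * KF * (8 * kap) ≤ 1 := by linarith
    have h4 : Lam * KF * (8 * kap) * kap ≤ 1 * kap := mul_le_mul_of_nonneg_right h3 hkap.le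
    linarith
  · intro th hth v hv i
    have hth0 : 0 ≤ 2 * th := (abs_nonneg _).trans (hv i)
    refine (hmv v (2 * th) hth0 hv i).trans ?_
    rw [le_div_iff₀ (by positivity)] at hth
    linarith
  · exact pg_det L KD hLb

theorem pgrid_zeros (n : ι → ℕ) {r : ℕ} (d : Fin r → ι → ℕ) (hr : 1 ≤ r) (bet1 : ℝ)
    (hb : 0 < bet1) (hb1 : bet1 ≤ 1) :
    ∃ c th1 : ℝ, 0 < c ∧ 0 < th1 ∧ ∀ th : ℝ, 0 < th → th ≤ th1 → ∃ R0 : ℕ, ∀ R : ℕ, R0 ≤ R →
      ∀ H : ℕ, 1 ≤ H → ∀ A : PSys n d ℤ, A ∈ pbox n d H → ∀ z0 : MVar n → ℝ, BNorm z0 →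
      (∀ j, MF (fun t => (A j t : ℝ)) z0 = 0) → ∀ J : Fin r → MVar n,
      (bet1 * H) ^ r ≤ |(PJac (fun j t => (A j t : ℝ)) z0 J).det| →
      c * th ^ r * (R : ℝ) ^ Fintype.card (MVar n) ≤
        (Set.ncard {u : MVar n → ℤ | (∀ v, |(u v : ℝ) / R - z0 v| ≤ 1 / 2) ∧
          ∀ j, |MF (fun t => (A j t : ℝ)) (fun v => (u v : ℝ) / R)| ≤ th * H} : ℝ) := by
  classical
  obtain ⟨del, hdel, hreg⟩ := CIHP.region_points r (1 / 2) (by norm_num) (by norm_num)
  have hKD := pg_KD_one n d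
  have hKF := pg_KF_one n d
  have hr' : (0 : ℝ) < r := by exact_mod_cast hr
  have hfac : (0 : ℝ) < Nat.factorial r := by exact_mod_cast Nat.factorial_pos r
  obtain ⟨Lam, hLam⟩ : ∃ Lam : ℝ, Lam = r * ((Nat.factorial r : ℝ) * pg_KD n d ^ r / bet1 ^ r) :=
    ⟨_, rfl⟩
  have hKDpos : 0 < pg_KD n d := by linarith
  have hLampos : 0 < Lam := by rw [hLam]; positivity
  obtain ⟨D1, hD1⟩ : ∃ D1 : ℝ, D1 = Lam * (pg_KD n d + pg_KF n d) * 8 := ⟨_, rfl⟩
  have hD1pos : 0 < D1 := by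
    rw [hD1]
    have : 0 < pg_KD n d + pg_KF n d := by linarith
    positivity
  obtain ⟨kap, hkap⟩ : ∃ kap : ℝ, kap = min (1 / 20) (min del 1 / D1) := ⟨_, rfl⟩
  have hkpos : 0 < kap := by
    rw [hkap]
    have : 0 < min del 1 := lt_min hdel one_pos
    positivity
  have hk1 : kap ≤ 1 / 20 := by rw [hkap]; exact min_le_left _ _
  have hk2 : Lam * (pg_KD n d + pg_KF n d) * (8 * kap) ≤ min del 1 := by
    have h1 : kap ≤ min del 1 / D1 := by rw [hkap]; exact min_le_right _ _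
    rw [le_div_iff₀ hD1pos, hD1] at h1
    linarith
  obtain ⟨KK, hKK⟩ : ∃ KK : ℝ, KK = (Nat.factorial r : ℝ) * pg_KD n d ^ r := ⟨_, rfl⟩
  have hKKpos : 0 < KK := by rw [hKK]; positivity
  refine ⟨(kap ^ 2) ^ (Fintype.card (MVar n) - r) * (1 / (2 * KK)), kap / (8 * Lam),
    by positivity, by positivity, ?_⟩
  intro th hth hth1
  obtain ⟨h0, hh0, hreg'⟩ := hreg kap th (2 * pg_KD n d) hkpos hth (by positivity)
  obtain ⟨R0, hR0⟩ := exists_nat_ge (1 / kap ^ 2 + 1 / h0)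
  refine ⟨R0, fun R hR H hH A hA z0 hz0 hF0 J hD => ?_⟩
  have hR1 : 1 / kap ^ 2 + 1 / h0 ≤ (R : ℝ) := hR0.trans (by exact_mod_cast hR)
  have hRk : 1 / kap ^ 2 ≤ (R : ℝ) := le_trans (by
    have : 0 < 1 / h0 := by positivity
    linarith) hR1
  have hRh : 1 / h0 ≤ (R : ℝ) := le_trans (by
    have : 0 < 1 / kap ^ 2 := by positivity
    linarith) hR1
  have hRpos : (0 : ℝ) < R := lt_of_lt_of_le (by positivity) hRk
  have hRk' : 1 ≤ kap ^ 2 * R := by
    rw [div_le_iff₀ (by positivity)] at hRk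
    linarith
  have hRh' : 1 / (R : ℝ) ≤ h0 := by
    rw [div_le_iff₀ hh0] at hRh
    rw [div_le_iff₀ hRpos]
    linarith
  have hHpos : (0 : ℝ) < H := by exact_mod_cast hH
  -- the normalised system
  let B : PSys n d ℝ := fun j t => (H : ℝ)⁻¹ * (A j t : ℝ)
  have hB : ∀ j t, |B j t| ≤ 1 := by
    intro j t
    have h1 : |A j t| ≤ H := hA j t
    have h2 : |(A j t : ℝ)| ≤ H := by exact_mod_cast h1
    simp only [B]
    rw [abs_mul, abs_of_pos (inv_pos.2 hHpos), inv_mul_le_iff₀ hHpos, mul_one]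
    exact h2
  have hAB : (fun j t => (A j t : ℝ)) = fun j t => (H : ℝ) * B j t := by
    ext j t
    simp only [B]
    field_simp
  have hMF : ∀ j z, MF (fun t => (A j t : ℝ)) z = H * MF (B j) z := by
    intro j z
    have h1 : (fun t => (A j t : ℝ)) = fun t => (H : ℝ) * B j t := congrFun hAB j
    rw [h1, MF_smul]
  have h0B : ∀ j, MF (B j) z0 = 0 := by
    intro j
    have h1 := hF0 j
    rw [hMF] at h1
    exact (mul_eq_zero.1 h1).resolve_left hHpos.ne'
  have hDB : bet1 ^ r ≤ |(PJac B z0 J).det| := by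
    rw [hAB, PJac_smul, abs_mul, abs_of_pos (pow_pos hHpos r), mul_pow] at hD
    have h1 : (H : ℝ) ^ r * bet1 ^ r ≤ (H : ℝ) ^ r * |(PJac B z0 J).det| := by linarith
    exact le_of_mul_le_mul_left h1 (pow_pos hHpos r)
  have hbr : 0 < bet1 ^ r := by positivity
  have hdet0 : (PJac B z0 J).det ≠ 0 := by
    intro h
    rw [h, abs_zero] at hDB
    linarith
  have hJ : Function.Injective J := PJac_injective B z0 J hdet0
  -- the other coordinates
  let Jc : Type := {v : MVar n // ¬ ∃ l, J l = v}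
  have hcardJ : Fintype.card Jc = Fintype.card (MVar n) - r := by
    have h1 : Fintype.card {v : MVar n // ∃ l, J l = v} = r := by
      have h2 : Fintype.card (Fin r) = Fintype.card {v : MVar n // ∃ l, J l = v} :=
        Fintype.card_congr (Equiv.ofInjective J hJ)
      rw [Fintype.card_fin] at h2
      exact h2.symm
    simp only [Jc]
    rw [Fintype.card_subtype_compl, h1]
  have hrV : r ≤ Fintype.card (MVar n) := by
    have := Fintype.card_le_of_injective J hJ
    simpa using this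
  let P : Finset (Jc → ℤ) := Fintype.piFinset fun j =>
    Icc ⌈R * (z0 j.1 - kap ^ 2)⌉ ⌊R * (z0 j.1 + kap ^ 2)⌋
  have hP : ∀ y ∈ P, ∀ j : Jc, |(y j : ℝ) / R - z0 j.1| ≤ kap ^ 2 := by
    intro y hy j
    have h1 := Fintype.mem_piFinset.1 hy j
    rw [mem_Icc, Int.ceil_le, Int.le_floor] at h1
    rw [abs_le]
    have e : (y j : ℝ) / R - z0 j.1 = ((y j : ℝ) - R * z0 j.1) / R := by field_simp
    rw [e, le_div_iff₀ hRpos, div_le_iff₀ hRpos]
    constructor <;> nlinarith [h1.1, h1.2]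
  have hPc : (kap ^ 2 * R) ^ (Fintype.card (MVar n) - r) ≤ (P.card : ℝ) := by
    rw [Fintype.card_piFinset, Nat.cast_prod, ← hcardJ]
    calc (kap ^ 2 * R) ^ Fintype.card Jc = ∏ _j : Jc, (kap ^ 2 * R) := by
          rw [Finset.prod_const, Finset.card_univ]
      _ ≤ _ := by
          refine Finset.prod_le_prod (fun _ _ => by positivity) fun j _ => ?_
          refine le_trans ?_ (pg_card_Icc _ _)
          nlinarith
  -- the vector with given coordinates
  let yy : (Jc → ℤ) → MVar n → ℤ := fun y v => if h : ¬ ∃ l, J l = v then y ⟨v, h⟩ else 0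
  let E : (Jc → ℤ) → (Fin r → ℤ) → MVar n → ℤ := fun y k => Function.extend J k (yy y)
  have hE0 : ∀ y k l, E y k (J l) = k l := fun y k l => hJ.extend_apply _ _ _
  have hE1 : ∀ y k (j : Jc), E y k j.1 = y j := fun y k j => by
    simp only [E]
    rw [Function.extend_apply' _ _ _ j.2]
    simp only [yy]
    rw [dif_pos j.2]
  -- the fibres
  have hfib : ∀ y ∈ P, ∃ T : Finset (Fin r → ℤ), 1 / (2 * KK) * th ^ r * (R : ℝ) ^ r ≤
      (T.card : ℝ) ∧ ∀ k ∈ T, (∀ l, |(k l : ℝ) / R - z0 (J l)| ≤ kap) ∧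
        ∀ j, |MF (B j) (fun v => (E y k v : ℝ) / R)| ≤ th := by
    intro y hy
    let yr : MVar n → ℝ := fun v => (yy y v : ℝ) / R
    let p0 : Fin r → ℝ := fun l => - z0 (J l)
    obtain ⟨Li, g1, g2, g3, g4, g5, g6⟩ := pg_local hr (bet1 ^ r) del kap hbr hkpos hk1
      Lam hLam hk2 B z0 yr J hJ hB hz0.1 h0B hDB (by
        intro j hj
        have h1 := hP y hy ⟨j, hj⟩
        have h2 : yy y j = y ⟨j, hj⟩ := by
          simp only [yy]
          rw [dif_pos hj]
        simp only [yr]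
        rw [h2]
        exact h1)
    have hmain := (hreg' (fun t i => MF (B i) (pg_P J z0 yr t))
      (fun t => PJac B (pg_P J z0 yr t) J) (PJac B z0 J) Li g1
      (fun t => pg_deriv J hJ B z0 yr t) g2 g3 g4 (g5 th hth1) (1 / R) p0 (by positivity)
      hRh').1
    set SS : Set (Fin r → ℤ) := {k : Fin r → ℤ | (∀ i, |p0 i + 1 / R * k i| ≤ kap) ∧
      ∀ i, |MF (B i) (pg_P J z0 yr (fun j => p0 j + 1 / R * k j))| ≤ th} with hSS
    have hG : 0 < |(PJac B z0 J).det| := by linarith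
    have hlow : 0 < (1 - 1 / 2) * ((2 * th) ^ r / |(PJac B z0 J).det|) := by positivity
    have hncard : 1 / (2 * KK) * th ^ r * (R : ℝ) ^ r ≤ (SS.ncard : ℝ) := by
      have h1 : (1 / (R : ℝ)) ^ r = ((R : ℝ) ^ r)⁻¹ := by rw [one_div, inv_pow]
      rw [h1, ← div_eq_mul_inv, le_div_iff₀ (by positivity)] at hmain
      refine le_trans ?_ hmain
      refine mul_le_mul_of_nonneg_right ?_ (by positivity)
      have h2 : th ^ r ≤ (2 * th) ^ r := pow_le_pow_left₀ hth.le (by linarith) r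
      have h3 : th ^ r / KK ≤ (2 * th) ^ r / |(PJac B z0 J).det| := by
        refine div_le_div₀ (by positivity) h2 hG ?_
        rw [hKK]
        exact g6
      calc 1 / (2 * KK) * th ^ r = (1 - 1 / 2) * (th ^ r / KK) := by
            field_simp
            ring
        _ ≤ _ := mul_le_mul_of_nonneg_left h3 (by norm_num)
    have hfin : SS.Finite := by
      refine Set.finite_of_ncard_pos ?_
      have h1 : (0 : ℝ) < (SS.ncard : ℝ) := lt_of_lt_of_le (by positivity) hncard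
      exact_mod_cast h1
    refine ⟨hfin.toFinset, ?_, ?_⟩
    · rw [← Set.ncard_eq_toFinset_card SS hfin]
      exact hncard
    · intro k hk
      rw [Set.Finite.mem_toFinset, hSS] at hk
      obtain ⟨k1, k2⟩ := hk
      refine ⟨fun l => ?_, fun j => ?_⟩
      · have h1 := k1 l
        have h2 : p0 l + 1 / R * k l = (k l : ℝ) / R - z0 (J l) := by
          simp only [p0]
          ring
        rwa [h2] at h1
      · have h1 := k2 j
        have h2 : pg_P J z0 yr (fun j => p0 j + 1 / R * k j) = fun v => (E y k v : ℝ) / R := by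
          ext v
          by_cases hv : ∃ l, J l = v
          · obtain ⟨l, rfl⟩ := hv
            rw [pg_P_J J hJ, hE0]
            simp only [p0]
            ring
          · rw [pg_P_not J z0 yr _ v hv]
            simp only [yr, E]
            rw [Function.extend_apply' _ _ _ hv]
        rw [h2] at h1
        exact h1
  choose! T hTc hT using hfib
  -- the pairs
  let Q : Finset (Σ _ : Jc → ℤ, Fin r → ℤ) := P.sigma fun y => T y
  have hQc : (kap ^ 2 * R) ^ (Fintype.card (MVar n) - r) * (1 / (2 * KK) * th ^ r * (R : ℝ) ^ r) ≤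
      (Q.card : ℝ) := by
    rw [Finset.card_sigma, Nat.cast_sum]
    calc (kap ^ 2 * R) ^ (Fintype.card (MVar n) - r) * (1 / (2 * KK) * th ^ r * (R : ℝ) ^ r)
        ≤ P.card * (1 / (2 * KK) * th ^ r * (R : ℝ) ^ r) :=
          mul_le_mul_of_nonneg_right hPc (by positivity)
      _ = ∑ _y ∈ P, 1 / (2 * KK) * th ^ r * (R : ℝ) ^ r := by rw [Finset.sum_const, nsmul_eq_mul]
      _ ≤ _ := Finset.sum_le_sum fun y hy => hTc y hy
  have hinj : Set.InjOn (fun q : (Σ _ : Jc → ℤ, Fin r → ℤ) => E q.1 q.2)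
      (Q : Set (Σ _ : Jc → ℤ, Fin r → ℤ)) := by
    rintro ⟨y, t⟩ - ⟨y', t'⟩ - h
    have h1 : E y t = E y' t' := h
    have h2 : t = t' := by
      ext l
      have := congrFun h1 (J l)
      rwa [hE0, hE0] at this
    have h3 : y = y' := by
      ext j
      have := congrFun h1 j.1
      rwa [hE1, hE1] at this
    rw [h2, h3]
  set S : Set (MVar n → ℤ) := {u : MVar n → ℤ | (∀ v, |(u v : ℝ) / R - z0 v| ≤ 1 / 2) ∧
          ∀ j, |MF (fun t => (A j t : ℝ)) (fun v => (u v : ℝ) / R)| ≤ th * H} with hS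
  have hSfin : S.Finite := by
    refine Set.Finite.subset (Finset.finite_toSet
      (Fintype.piFinset fun _ : MVar n => Icc (-(2 * R : ℤ)) (2 * R))) ?_
    intro u hu
    rw [Finset.mem_coe, Fintype.mem_piFinset]
    intro v
    have h1 := abs_le.1 (hu.1 v)
    have h2 := abs_le.1 (hz0.1 v)
    have h3 : (u v : ℝ) / R ≤ 2 := by linarith
    have h4 : -2 ≤ (u v : ℝ) / R := by linarith
    rw [div_le_iff₀ hRpos] at h3
    rw [le_div_iff₀ hRpos] at h4
    rw [mem_Icc]
    constructor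
    · have : (-(2 * (R : ℝ))) ≤ u v := by linarith
      exact_mod_cast this
    · exact_mod_cast h3
  have hsub : ((Q.image fun q : (Σ _ : Jc → ℤ, Fin r → ℤ) => E q.1 q.2 :
      Finset (MVar n → ℤ)) : Set (MVar n → ℤ)) ⊆ S := by
    intro u hu
    rw [Finset.mem_coe, Finset.mem_image] at hu
    obtain ⟨⟨y, t⟩, hq, rfl⟩ := hu
    rw [Finset.mem_sigma] at hq
    obtain ⟨hy, ht⟩ := hq
    simp only at hy ht ⊢
    obtain ⟨h1, h2⟩ := hT y hy t ht
    refine ⟨?_, ?_⟩
    · intro v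
      by_cases hv : ∃ l, J l = v
      · obtain ⟨l, rfl⟩ := hv
        rw [hE0]
        have := h1 l
        linarith
      · have h3 := hP y hy ⟨v, hv⟩
        have e1 := hE1 y t ⟨v, hv⟩
        simp only at e1 h3
        rw [e1]
        nlinarith
    · intro j
      rw [hMF, abs_mul, abs_of_pos hHpos, mul_comm]
      exact mul_le_mul_of_nonneg_right (h2 j) hHpos.le
  have hcard : (Q.card : ℝ) ≤ (S.ncard : ℝ) := by
    have h1 := Set.ncard_le_ncard hsub hSfin
    rw [Set.ncard_coe_finset, Finset.card_image_of_injOn hinj] at h1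
    exact_mod_cast h1
  refine le_trans (le_of_eq ?_) (hQc.trans hcard)
  have h5 : (R : ℝ) ^ Fintype.card (MVar n) = (R : ℝ) ^ (Fintype.card (MVar n) - r) * R ^ r := by
    rw [← pow_add, Nat.sub_add_cancel hrV]
  rw [h5, mul_pow (kap ^ 2)]
  ring

end multi

end CIPHP
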