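import Pool.Agent.Lib.MP_e426f4_ag.P.CondR
import Pool.Agent.Lib.MP_e426f4_ag.P.Grid
import Pool.Agent.Lib.MP_e426f4_ag.P.GoodReal
import Pool.Agent.Lib.MP_e426f4_ag.CI.RealExc

/-! Module P-X2R: systems with a nonsingular real zero, but without a good one.

TEMPLATE: M/RealExc2.lean (first moment over R). th' = min(th/C0, th1) (C0 of pgoodR_of_approx). A bad: pgrid_zeros gives >= c th'^r R^|V| points z = u/R with |MF_j| <= th' H, |z_v| <= 3/2, every block has a coordinate of size >= 1/2;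
not PGoodR and pgoodR_of_approx => all minors of the columns <i0,a> at z are < (C0 bet H)^r; lk_real: c, |c_j| <= 1, c_j0 = 1, |∑ c_j MD <i0,a>| <= C0 bet H. Net of mesh bet for c (er_net of CI/RealExc): <= C bet^(-(r-1)) points c', |∑ c'_j MD| <= C' bet H.
Count pairs (A, u): pcond_r with U = {<i0,a> : a ≠ tau_{i0}} (tau_i: |z_{i,tau_i}| >= 1/2), g = C' bet, f = th': (4R+1)^|V| #tau C bet^(-(r-1)) (C' bet)^(n_i0) th'^r (2H+1)^NP.
Ratio <= C'' bet^(n_i0 - r + 1) / c <= eps for bet small (n_i0 >= r), independent of th. R := max(R0(th'),1) fixed, then H large.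
-/

namespace CIPHP

open Finset Filter Topology GenHP

section multi
variable {ι : Type} [Fintype ι] [DecidableEq ι] {n : ι → ℕ} {r : ℕ} {d : Fin r → ι → ℕ}

omit [Fintype ι] in
private theorem p2r_card_block_off (i0 : ι) (τ : ∀ i, Fin (n i + 1)) :
    ((univ.filter fun a : Fin (n i0 + 1) => a ≠ τ i0).image
      fun a => (⟨i0, a⟩ : MVar n)).card = n i0 := by
  rw [Finset.card_image_of_injective _ (fun a b h => by simpa using h)]
  rw [Finset.filter_ne']
  simp

private lemma p2r_cover {α β : Type*} (S : Set α) (T : Finset β) (f : β → Set α)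
    (hsub : ∀ a ∈ S, ∃ t ∈ T, a ∈ f t) (hfin : ∀ t ∈ T, (f t).Finite) (K : ℝ)
    (hcard : ∀ t ∈ T, ((f t).ncard : ℝ) ≤ K) : (S.ncard : ℝ) ≤ T.card * K := by
  have h1 : S ⊆ ⋃ t ∈ T, f t := by
    intro a ha
    obtain ⟨t, ht, hat⟩ := hsub a ha
    simp only [Set.mem_iUnion]
    exact ⟨t, ht, hat⟩
  have h2 : (⋃ t ∈ T, f t).Finite := T.finite_toSet.biUnion fun t ht => hfin t ht
  have h3 : (S.ncard : ℝ) ≤ ((∑ t ∈ T, (f t).ncard : ℕ) : ℝ) := by
    exact_mod_cast (Set.ncard_le_ncard h1 h2).trans (Finset.set_ncard_biUnion_le T f)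
  refine h3.trans ?_
  push_cast
  calc ∑ t ∈ T, ((f t).ncard : ℝ) ≤ ∑ _t ∈ T, K := Finset.sum_le_sum hcard
    _ = T.card * K := by rw [Finset.sum_const, nsmul_eq_mul]

theorem p_real_exc2 (hr : 1 ≤ r) (hd : ∀ j i, 1 ≤ d j i) (i0 : ι) (hn0 : r ≤ n i0) (bet1 : ℝ)
    (hb : 0 < bet1) (hb1 : bet1 ≤ 1) (eps : ℝ) (he : 0 < eps) : ∃ bet : ℝ, 0 < bet ∧ bet ≤ 1 ∧
    ∀ th : ℝ, 0 < th → ∀ᶠ H : ℕ in atTop,
      (Set.ncard {A : PSys n d ℤ | A ∈ pbox n d H ∧ (∃ z : MVar n → ℝ, BNorm z ∧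
        (∀ j, MF (fun t => (A j t : ℝ)) z = 0) ∧ ∃ J : Fin r → MVar n,
          (bet1 * H) ^ r ≤ |(PJac (fun j t => (A j t : ℝ)) z J).det|) ∧
        ¬ PGoodR i0 (th * H) (bet * H) (fun j t => (A j t : ℝ))} : ℝ) ≤
        eps * (2 * H + 1) ^ NP n d := by
  classical
  obtain ⟨c, th1, hc, hth1, hgrid⟩ := pgrid_zeros n d hr bet1 hb hb1
  obtain ⟨C, hC, hcond⟩ := pcond_r n d hd
  obtain ⟨C0, hC0, hgood⟩ := pgoodR_of_approx n d i0
  have hC0pos : 0 < C0 := by linarith
  obtain ⟨V, hV⟩ : ∃ V, V = Fintype.card (MVar n) := ⟨_, rfl⟩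
  rw [← hV] at hgrid
  let tm : Fin r → ℝ := fun j => NM n (d j) * (∑ i, d j i : ℕ) * 2 ^ (∑ i, d j i)
  have htm : ∀ j, 0 ≤ tm j := fun j => by
    show (0:ℝ) ≤ NM n (d j) * (∑ i, d j i : ℕ) * 2 ^ (∑ i, d j i)
    positivity
  have hsum0 : 0 ≤ ∑ j, tm j := Finset.sum_nonneg fun j _ => htm j
  obtain ⟨C1, hC1⟩ : ∃ C1 : ℝ, C1 = C0 + ∑ j, tm j := ⟨_, rfl⟩
  have hC1pos : 0 < C1 := by rw [hC1]; linarith
  have hrpos : (0 : ℝ) < r := by exact_mod_cast hr
  obtain ⟨K2, hK2⟩ : ∃ K2 : ℝ, K2 = r * (2 * 3 ^ (r - 1)) * C * C1 ^ n i0 := ⟨_, rfl⟩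
  have hK2pos : 0 < K2 := by rw [hK2]; positivity
  obtain ⟨bet, hbet⟩ : ∃ bet : ℝ, bet = min 1 (eps * c / (5 ^ V * K2)) := ⟨_, rfl⟩
  have hbe0 : 0 < bet := by rw [hbet]; exact lt_min one_pos (by positivity)
  have hbe1 : bet ≤ 1 := by rw [hbet]; exact min_le_left _ _
  have hbe2 : bet ≤ eps * c / (5 ^ V * K2) := by rw [hbet]; exact min_le_right _ _
  refine ⟨bet, hbe0, hbe1, ?_⟩
  intro th hth
  obtain ⟨th', hth'⟩ : ∃ th' : ℝ, th' = min (th / C0) th1 := ⟨_, rfl⟩
  have hth'0 : 0 < th' := by rw [hth']; exact lt_min (by positivity) hth1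
  have hth'1 : C0 * th' ≤ th := by
    have : th' ≤ th / C0 := by rw [hth']; exact min_le_left _ _
    rw [le_div_iff₀ hC0pos] at this
    linarith
  obtain ⟨R0, hR0⟩ := hgrid th' hth'0 (by rw [hth']; exact min_le_right _ _)
  obtain ⟨R, hR⟩ : ∃ R, R = max R0 1 := ⟨_, rfl⟩
  have hR1 : 1 ≤ R := by rw [hR]; exact le_max_right _ _
  have hRpos : (0 : ℝ) < R := by exact_mod_cast hR1
  have hgr := hR0 R (by rw [hR]; exact le_max_left _ _)
  filter_upwards [hcond (C1 * bet) th' (by positivity) hth'0, eventually_ge_atTop 1] with H hH hH1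
  have hHpos : (0 : ℝ) < H := by exact_mod_cast hH1
  set Bs : Set (PSys n d ℤ) := {A : PSys n d ℤ | A ∈ pbox n d H ∧ (∃ z : MVar n → ℝ, BNorm z ∧
        (∀ j, MF (fun t => (A j t : ℝ)) z = 0) ∧ ∃ J : Fin r → MVar n,
          (bet1 * H) ^ r ≤ |(PJac (fun j t => (A j t : ℝ)) z J).det|) ∧
        ¬ PGoodR i0 (th * H) (bet * H) (fun j t => (A j t : ℝ))} with hBs
  have hBfin : Bs.Finite := pbox_finite H _
  set B : Finset (PSys n d ℤ) := hBfin.toFinset with hB
  have hBcard : Bs.ncard = B.card := Set.ncard_eq_toFinset_card _ hBfin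
  rw [hBcard]
  set G : Finset (MVar n → ℤ) := Fintype.piFinset fun _ => Icc (-(2 * R : ℤ)) (2 * R) with hG
  have hGcard : (G.card : ℝ) ≤ 5 ^ V * (R : ℝ) ^ V := by
    have h1 : G.card = (4 * R + 1) ^ V := by
      rw [hG, Fintype.card_piFinset]
      simp only [Int.card_Icc, Finset.prod_const, Finset.card_univ]
      rw [← hV]
      congr 1
      have : (2 * (R : ℤ) + 1 - -(2 * R)) = ((4 * R + 1 : ℕ) : ℤ) := by push_cast; ring
      rw [this, Int.toNat_natCast]
    rw [h1]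
    push_cast
    rw [← mul_pow]
    refine pow_le_pow_left₀ (by positivity) ?_ _
    have : (1 : ℝ) ≤ R := by exact_mod_cast hR1
    linarith
  let T2 : Finset (Σ _i : Fin r, (Fin r → ℤ)) :=
    (univ : Finset (Fin r)).sigma fun i => CIHP.er_net r bet i
  have hT2 : (T2.card : ℝ) ≤ r * (2 * (3 / bet) ^ (r - 1)) := by
    simp only [T2, Finset.card_sigma]
    push_cast
    calc ∑ i : Fin r, ((CIHP.er_net r bet i).card : ℝ)
        ≤ ∑ _i : Fin r, (2 * (3 / bet) ^ (r - 1) : ℝ) :=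
          Finset.sum_le_sum fun i _ => CIHP.er_net_card r bet hbe0 hbe1 i
      _ = r * (2 * (3 / bet) ^ (r - 1)) := by
          rw [Finset.sum_const, nsmul_eq_mul, Finset.card_univ, Fintype.card_fin]
  let P : (PSys n d ℤ) → (MVar n → ℤ) → Prop := fun A u =>
    (∀ i, ∃ a, 1 / 2 ≤ |((u ⟨i, a⟩ : ℤ) : ℝ) / R|) ∧
    (∀ j, |MF (fun t => (A j t : ℝ)) (fun v => (u v : ℝ) / R)| ≤ th' * H) ∧
    ∃ t ∈ T2, ∀ a, |∑ j, CIHP.er_pt bet t.1 t.2 j *
      MD (fun t => (A j t : ℝ)) (fun v => (u v : ℝ) / R) ⟨i0, a⟩| ≤ (C1 * bet) * H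
  -- many grid points for every bad form
  have hlow : ∀ A ∈ B, c * th' ^ r * (R : ℝ) ^ V ≤ ((G.filter fun u => P A u).card : ℝ) := by
    intro A hA
    have hA' : A ∈ Bs := by simpa [hB] using hA
    obtain ⟨hAb, ⟨z0, hz0, hF0, J0, hJ0⟩, hng⟩ := hA'
    refine (hgr H hH1 A hAb z0 hz0 hF0 J0 hJ0).trans ?_
    have hAR : ∀ j t, |((A j t : ℤ) : ℝ)| ≤ H := by
      intro j t
      have := hAb j t
      exact_mod_cast this
    have hsub : {u : MVar n → ℤ | (∀ v, |(u v : ℝ) / R - z0 v| ≤ 1 / 2) ∧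
          ∀ j, |MF (fun t => (A j t : ℝ)) (fun v => (u v : ℝ) / R)| ≤ th' * H} ⊆
          ((G.filter fun u => P A u : Finset (MVar n → ℤ)) : Set (MVar n → ℤ)) := by
      rintro u ⟨hu1, hu2⟩
      have hz1 : ∀ v, |(u v : ℝ) / R| ≤ 3 / 2 := by
        intro v
        have h1 := hu1 v
        have h2 := hz0.1 v
        have h3 : (u v : ℝ) / R = ((u v : ℝ) / R - z0 v) + z0 v := by ring
        rw [h3]
        refine (abs_add_le _ _).trans ?_
        linarith
      have hz2 : ∀ i, ∃ a, 1 / 2 ≤ |((u ⟨i, a⟩ : ℤ) : ℝ) / R| := by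
        intro i
        obtain ⟨a, ha⟩ := hz0.2 i
        refine ⟨a, ?_⟩
        have h1 := hu1 ⟨i, a⟩
        have h3 : z0 ⟨i, a⟩ = (u ⟨i, a⟩ : ℝ) / R - ((u ⟨i, a⟩ : ℝ) / R - z0 ⟨i, a⟩) := by ring
        have h4 : |z0 ⟨i, a⟩| ≤ |(u ⟨i, a⟩ : ℝ) / R| + |(u ⟨i, a⟩ : ℝ) / R - z0 ⟨i, a⟩| := by
          conv_lhs => rw [h3]
          exact abs_sub _ _
        rw [ha] at h4
        linarith
      have hz22 : ∀ v, |(u v : ℝ) / R| ≤ 2 := fun v => (hz1 v).trans (by norm_num)
      rw [Finset.coe_filter]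
      refine ⟨?_, hz2, hu2, ?_⟩
      · rw [hG, Fintype.mem_piFinset]
        intro v
        rw [Finset.mem_Icc, ← abs_le]
        have h1 := hz1 v
        rw [abs_div, abs_of_pos hRpos, div_le_iff₀ hRpos] at h1
        have h2 : |(u v : ℝ)| ≤ 2 * R := by linarith
        have h3 : ((|u v| : ℤ) : ℝ) ≤ ((2 * R : ℤ) : ℝ) := by push_cast; exact h2
        exact_mod_cast h3
      · -- all minors of block `i0` are small
        have hmin : ∀ J : Fin r → Fin (n i0 + 1), |(Matrix.of fun (i : Fin r) (l : Fin r) =>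
            (fun (j : Fin r) (a : Fin (n i0 + 1)) =>
              MD (fun t => (A j t : ℝ)) (fun v => (u v : ℝ) / R) ⟨i0, a⟩) i (J l)).det| <
            (C0 * (bet * H)) ^ r := by
          intro J
          by_contra hcon
          push Not at hcon
          apply hng
          refine pgoodR_mono i0 (C0 * (th' * H)) _ _ ?_ _ ?_
          · rw [← mul_assoc]
            exact mul_le_mul_of_nonneg_right hth'1 hHpos.le
          · exact hgood (fun j t => (A j t : ℝ)) (fun v => (u v : ℝ) / R) (th' * H) (bet * H)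
              (by positivity) (by positivity) hz22 hz2 hu2 J hcon
        obtain ⟨cc, hcc1, ⟨j0, hcj⟩, hcc⟩ := lk_real hr
          (fun (j : Fin r) (a : Fin (n i0 + 1)) =>
            MD (fun t => (A j t : ℝ)) (fun v => (u v : ℝ) / R) ⟨i0, a⟩) (C0 * (bet * H))
            (by positivity) hmin
        obtain ⟨l, hl, hl1, hl2⟩ := CIHP.er_net_near bet hbe0 j0 cc hcc1 (by rw [hcj, abs_one])
        refine ⟨⟨j0, l⟩, ?_, ?_⟩
        · simp only [T2, Finset.mem_sigma, Finset.mem_univ, true_and]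
          exact hl
        · intro a
          show |∑ j, CIHP.er_pt bet j0 l j *
            MD (fun t => (A j t : ℝ)) (fun v => (u v : ℝ) / R) ⟨i0, a⟩| ≤ (C1 * bet) * H
          have hDb : ∀ j, |MD (fun t => (A j t : ℝ)) (fun v => (u v : ℝ) / R) ⟨i0, a⟩| ≤
              tm j * H := by
            intro j
            have h1 := MD_abs_le (fun t => (A j t : ℝ)) (fun v => (u v : ℝ) / R) ⟨i0, a⟩ H 2
              (by norm_num) (hAR j) hz22
            refine h1.trans (le_of_eq ?_)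
            show (NM n (d j) : ℝ) * (∑ i, d j i : ℕ) * H * 2 ^ (∑ i, d j i) =
              NM n (d j) * (∑ i, d j i : ℕ) * 2 ^ (∑ i, d j i) * H
            ring
          have h2 : ∑ j, CIHP.er_pt bet j0 l j *
              MD (fun t => (A j t : ℝ)) (fun v => (u v : ℝ) / R) ⟨i0, a⟩ =
              ∑ j, cc j * MD (fun t => (A j t : ℝ)) (fun v => (u v : ℝ) / R) ⟨i0, a⟩ +
              ∑ j, (CIHP.er_pt bet j0 l j - cc j) *
                MD (fun t => (A j t : ℝ)) (fun v => (u v : ℝ) / R) ⟨i0, a⟩ := by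
            rw [← Finset.sum_add_distrib]
            refine Finset.sum_congr rfl fun j _ => ?_
            ring
          rw [h2]
          refine (abs_add_le _ _).trans ?_
          have h3 : |∑ j, (CIHP.er_pt bet j0 l j - cc j) *
                MD (fun t => (A j t : ℝ)) (fun v => (u v : ℝ) / R) ⟨i0, a⟩| ≤
              ∑ j, tm j * (bet * H) := by
            refine (Finset.abs_sum_le_sum_abs _ _).trans (Finset.sum_le_sum fun j _ => ?_)
            rw [abs_mul]
            have a1 := mul_le_mul (hl1 j) (hDb j) (abs_nonneg _) hbe0.le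
            refine a1.trans (le_of_eq ?_)
            ring
          rw [← Finset.sum_mul] at h3
          have h5 := hcc a
          calc _ ≤ C0 * (bet * H) + (∑ j, tm j) * (bet * H) := add_le_add h5 h3
            _ = C1 * bet * H := by rw [hC1]; ring
    have hfin : ((G.filter fun u => P A u : Finset (MVar n → ℤ)) : Set (MVar n → ℤ)).Finite :=
      Finset.finite_toSet _
    have h1 := Set.ncard_le_ncard hsub hfin
    rw [Set.ncard_coe_finset] at h1
    exact_mod_cast h1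
  -- few forms for every grid point
  have hup : ∀ u ∈ G, ((B.filter fun A => P A u).card : ℝ) ≤
      K2 * bet * th' ^ r * (2 * H + 1) ^ NP n d := by
    intro u _
    by_cases hu : ∀ i, ∃ a, 1 / 2 ≤ |((u ⟨i, a⟩ : ℤ) : ℝ) / R|
    · choose τ hτ using hu
      set UU : Finset (MVar n) :=
        ((univ.filter fun a : Fin (n i0 + 1) => a ≠ τ i0).image fun a => (⟨i0, a⟩ : MVar n))
        with hUU
      have hUUc : UU.card = n i0 := p2r_card_block_off i0 τ
      have hUm : ∀ v ∈ UU, v.2 ≠ τ v.1 := by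
        intro v hv
        rw [hUU, Finset.mem_image] at hv
        obtain ⟨a, ha, rfl⟩ := hv
        exact (Finset.mem_filter.mp ha).2
      have hcov := p2r_cover ((B.filter fun A => P A u : Finset (PSys n d ℤ)) :
        Set (PSys n d ℤ)) T2 (fun t => {A : PSys n d ℤ | A ∈ pbox n d H ∧
          (∀ j, |MF (fun s => (A j s : ℝ)) (fun v => (u v : ℝ) / R)| ≤ th' * H) ∧
          ∀ v ∈ UU, |∑ j, CIHP.er_pt bet t.1 t.2 j *
            MD (fun s => (A j s : ℝ)) (fun v => (u v : ℝ) / R) v| ≤ (C1 * bet) * H}) (by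
          intro A hA
          rw [Finset.coe_filter] at hA
          obtain ⟨hAB, -, hA2, t, ht, hA3⟩ := hA
          have hA' : A ∈ Bs := by simpa [hB] using hAB
          refine ⟨t, ht, hA'.1, hA2, ?_⟩
          intro v hv
          rw [hUU, Finset.mem_image] at hv
          obtain ⟨a, ha, rfl⟩ := hv
          exact hA3 a) (fun t _ => pbox_finite H _)
        (C * (C1 * bet) ^ n i0 * th' ^ r * (2 * H + 1) ^ NP n d) (by
          rintro ⟨j0, l⟩ ht
          simp only [T2, Finset.mem_sigma, Finset.mem_univ, true_and] at ht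
          have h1 := hH τ (fun v => (u v : ℝ) / R) hτ (CIHP.er_pt bet j0 l) j0
            (CIHP.er_pt_abs bet j0 l ht) UU hUm
          rw [hUUc] at h1
          exact h1)
      rw [Set.ncard_coe_finset] at hcov
      refine hcov.trans ?_
      have hX0 : 0 ≤ C * (C1 * bet) ^ n i0 * th' ^ r * (2 * H + 1) ^ NP n d := by positivity
      refine (mul_le_mul_of_nonneg_right hT2 hX0).trans ?_
      have e1 : (3 / bet) ^ (r - 1) * (C1 * bet) ^ n i0 ≤ 3 ^ (r - 1) * C1 ^ n i0 * bet := by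
        have e2 : n i0 = (r - 1) + (n i0 - (r - 1)) := by omega
        have e3 : bet ^ (n i0) = bet ^ (r - 1) * bet ^ (n i0 - (r - 1)) := by
          rw [← pow_add]
          congr 1
        have e4 : bet ^ (n i0 - (r - 1)) ≤ bet := by
          calc bet ^ (n i0 - (r - 1)) ≤ bet ^ 1 :=
                pow_le_pow_of_le_one hbe0.le hbe1 (by omega)
            _ = bet := pow_one _
        have e5 : (3 / bet) ^ (r - 1) * (C1 * bet) ^ n i0 =
            3 ^ (r - 1) * C1 ^ n i0 * bet ^ (n i0 - (r - 1)) := by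
          rw [mul_pow, e3, div_pow]
          have : bet ^ (r - 1) ≠ 0 := by positivity
          field_simp
        rw [e5]
        exact mul_le_mul_of_nonneg_left e4 (by positivity)
      calc (r : ℝ) * (2 * (3 / bet) ^ (r - 1)) *
            (C * (C1 * bet) ^ n i0 * th' ^ r * (2 * H + 1) ^ NP n d)
          = r * 2 * C * ((3 / bet) ^ (r - 1) * (C1 * bet) ^ n i0) *
            (th' ^ r * (2 * H + 1) ^ NP n d) := by ring
        _ ≤ r * 2 * C * (3 ^ (r - 1) * C1 ^ n i0 * bet) * (th' ^ r * (2 * H + 1) ^ NP n d) := by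
            refine mul_le_mul_of_nonneg_right ?_ (by positivity)
            exact mul_le_mul_of_nonneg_left e1 (by positivity)
        _ = K2 * bet * th' ^ r * (2 * H + 1) ^ NP n d := by rw [hK2]; ring
    · have h0 : (B.filter fun A => P A u) = ∅ := by
        rw [Finset.filter_eq_empty_iff]
        intro A _ hPA
        exact hu hPA.1
      rw [h0]
      simp only [Finset.card_empty, Nat.cast_zero]
      positivity
  -- double counting
  have hdc : ∑ A ∈ B, ((G.filter fun u => P A u).card : ℝ) =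
      ∑ u ∈ G, ((B.filter fun A => P A u).card : ℝ) := by
    have := Finset.sum_card_bipartiteAbove_eq_sum_card_bipartiteBelow (s := B) (t := G) P
    unfold Finset.bipartiteAbove Finset.bipartiteBelow at this
    exact_mod_cast this
  have h1 : (B.card : ℝ) * (c * th' ^ r * (R : ℝ) ^ V) ≤
      ∑ A ∈ B, ((G.filter fun u => P A u).card : ℝ) := by
    have := Finset.card_nsmul_le_sum B (fun A => ((G.filter fun u => P A u).card : ℝ)) _ hlow
    rwa [nsmul_eq_mul] at this
  have h2 : ∑ u ∈ G, ((B.filter fun A => P A u).card : ℝ) ≤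
      (G.card : ℝ) * (K2 * bet * th' ^ r * (2 * H + 1) ^ NP n d) := by
    have := Finset.sum_le_card_nsmul G (fun u => ((B.filter fun A => P A u).card : ℝ)) _ hup
    rwa [nsmul_eq_mul] at this
  have h3 : (B.card : ℝ) * (c * th' ^ r * (R : ℝ) ^ V) ≤
      5 ^ V * (R : ℝ) ^ V * (K2 * bet * th' ^ r * (2 * H + 1) ^ NP n d) := by
    rw [hdc] at h1
    refine h1.trans (h2.trans (mul_le_mul_of_nonneg_right hGcard (by positivity)))
  have h4 : 5 ^ V * K2 * bet ≤ eps * c := by
    have := hbe2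
    rw [le_div_iff₀ (by positivity)] at this
    linarith
  have hX : 0 < th' ^ r * (R : ℝ) ^ V := by positivity
  have h6 : (B.card : ℝ) * c ≤ eps * c * (2 * H + 1) ^ NP n d := by
    have h7 : (B.card : ℝ) * c * (th' ^ r * (R : ℝ) ^ V) ≤
        (5 ^ V * K2 * bet) * (2 * H + 1) ^ NP n d * (th' ^ r * (R : ℝ) ^ V) := by
      calc (B.card : ℝ) * c * (th' ^ r * (R : ℝ) ^ V) =
            (B.card : ℝ) * (c * th' ^ r * (R : ℝ) ^ V) := by ring
        _ ≤ _ := h3
        _ = _ := by ring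
    have h8 := le_of_mul_le_mul_right h7 hX
    exact h8.trans (mul_le_mul_of_nonneg_right h4 (by positivity))
  have h9 : (B.card : ℝ) * c ≤ (eps * (2 * H + 1) ^ NP n d) * c := by
    calc (B.card : ℝ) * c ≤ _ := h6
      _ = _ := by ring
  exact le_of_mul_le_mul_right h9 hc

end multi

end CIPHP
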