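import Pool.Agent.Lib.MP_e426f4_ag.P.RealExc1
import Pool.Agent.Lib.MP_e426f4_ag.P.RealExc2

/-! Module P-XR: exceptional systems at the real place.

TEMPLATE: M/RealExc.lean. bet1 with C bet1 <= eps/2 (p_real_exc1), then p_real_exc2 with bet1 and eps/2; p_exists_norm.
-/

namespace CIPHP

open Finset Filter Topology GenHP

section multi
variable {ι : Type} [Fintype ι] [DecidableEq ι] {n : ι → ℕ} {r : ℕ} {d : Fin r → ι → ℕ}

theorem p_real_exc (hr : 1 ≤ r) (hd : ∀ j i, 1 ≤ d j i) (i0 : ι) (hn0 : r ≤ n i0) (eps : ℝ)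
    (he : 0 < eps) :
    ∃ bet : ℝ, 0 < bet ∧ bet ≤ 1 ∧ ∀ th : ℝ, 0 < th → ∀ᶠ H : ℕ in atTop,
      (Set.ncard {A : PSys n d ℤ | A ∈ pbox n d H ∧
        (∃ z : MVar n → ℝ, BNZ z ∧ ∀ j, MF (fun t => (A j t : ℝ)) z = 0) ∧
        ¬ PGoodR i0 (th * H) (bet * H) (fun j t => (A j t : ℝ))} : ℝ) ≤
        eps * (2 * H + 1) ^ NP n d := by
  obtain ⟨C, hC, hC1⟩ := p_real_exc1 n d hr hd
  set bet1 : ℝ := min 1 (eps / (2 * C)) with hbet1
  have hb0 : 0 < bet1 := lt_min one_pos (by positivity)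
  have hb1 : bet1 ≤ 1 := min_le_left _ _
  have hb2 : C * bet1 ≤ eps / 2 := by
    have h2 : bet1 ≤ eps / (2 * C) := min_le_right _ _
    calc C * bet1 ≤ C * (eps / (2 * C)) := mul_le_mul_of_nonneg_left h2 hC.le
      _ = eps / 2 := by field_simp
  obtain ⟨bet, hbet0, hbet2, hbet⟩ := p_real_exc2 (n := n) (d := d) hr hd i0 hn0 bet1 hb0 hb1
    (eps / 2) (by positivity)
  refine ⟨bet, hbet0, hbet2, fun th hth => ?_⟩
  filter_upwards [hC1 bet1 hb0 hb1, hbet th hth] with H h1 h2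
  set S1 : Set (PSys n d ℤ) := {A : PSys n d ℤ | A ∈ pbox n d H ∧ ∃ z : MVar n → ℝ,
    BNorm z ∧ (∀ j, MF (fun t => (A j t : ℝ)) z = 0) ∧
        ∀ J : Fin r → MVar n, |(PJac (fun j t => (A j t : ℝ)) z J).det| < (bet1 * H) ^ r}
    with hS1
  set S2 : Set (PSys n d ℤ) := {A : PSys n d ℤ | A ∈ pbox n d H ∧ (∃ z : MVar n → ℝ,
    BNorm z ∧ (∀ j, MF (fun t => (A j t : ℝ)) z = 0) ∧ ∃ J : Fin r → MVar n,
          (bet1 * H) ^ r ≤ |(PJac (fun j t => (A j t : ℝ)) z J).det|) ∧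
        ¬ PGoodR i0 (th * H) (bet * H) (fun j t => (A j t : ℝ))} with hS2
  have hsub : {A : PSys n d ℤ | A ∈ pbox n d H ∧
        (∃ z : MVar n → ℝ, BNZ z ∧ ∀ j, MF (fun t => (A j t : ℝ)) z = 0) ∧
        ¬ PGoodR i0 (th * H) (bet * H) (fun j t => (A j t : ℝ))} ⊆ S1 ∪ S2 := by
    rintro A ⟨hA, ⟨z, hz, hF⟩, hng⟩
    obtain ⟨z', hz', hF'⟩ := p_exists_norm (fun j t => (A j t : ℝ)) z hz hF
    by_cases hv : ∃ J : Fin r → MVar n,
          (bet1 * H) ^ r ≤ |(PJac (fun j t => (A j t : ℝ)) z' J).det|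
    · exact Or.inr ⟨hA, ⟨z', hz', hF', hv⟩, hng⟩
    · push Not at hv
      exact Or.inl ⟨hA, z', hz', hF', hv⟩
  have hf1 : S1.Finite := pbox_finite H _
  have hf2 : S2.Finite := pbox_finite H _
  have h3 := (Set.ncard_le_ncard hsub (hf1.union hf2)).trans (Set.ncard_union_le S1 S2)
  have h4 : (Set.ncard {A : PSys n d ℤ | A ∈ pbox n d H ∧
        (∃ z : MVar n → ℝ, BNZ z ∧ ∀ j, MF (fun t => (A j t : ℝ)) z = 0) ∧
        ¬ PGoodR i0 (th * H) (bet * H) (fun j t => (A j t : ℝ))} : ℝ) ≤ S1.ncard + S2.ncard := by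
    exact_mod_cast h3
  have hX : (0 : ℝ) ≤ (2 * H + 1) ^ NP n d := by positivity
  have h5 : C * bet1 * (2 * H + 1) ^ NP n d ≤ eps / 2 * (2 * H + 1) ^ NP n d :=
    mul_le_mul_of_nonneg_right hb2 hX
  linarith

end multi

end CIPHP
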