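import Pool.Agent.Lib.MP_e426f4_ag.P.Alg
import Pool.Agent.Lib.MP_e426f4_ag.M.Spec
import Pool.Agent.Lib.MP_e426f4_ag.M.AlgReal
import Pool.Agent.Lib.MP_e426f4_ag.M.ClassCard

/-! Module P-PP: a positive proportion of systems is soluble. -/

namespace CIPHP

open Finset Filter Topology GenHP

section multi
variable {ι : Type} [Fintype ι] [DecidableEq ι] {n : ι → ℕ} {r : ℕ} {d : Fin r → ι → ℕ}

/-- base point -/
private def pp_e (R : Type) [CommRing R] : MVar n → R := fun v => if v.2 = 0 then 1 else 0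

/-- the special variables -/
private def pp_v {i0 : ι} (hn0 : r ≤ n i0) (j : Fin r) : Fin (n i0 + 1) :=
  ⟨(j : ℕ) + 1, by have := j.2; omega⟩

private theorem pp_v_ne {i0 : ι} (hn0 : r ≤ n i0) (j : Fin r) : pp_v hn0 j ≠ 0 := by
  intro h
  have := congrArg Fin.val h
  simp [pp_v] at this

private theorem pp_v_inj {i0 : ι} (hn0 : r ≤ n i0) {j l : Fin r} (h : pp_v hn0 j = pp_v hn0 l) :
    j = l := by
  have := congrArg Fin.val h
  simp only [pp_v] at this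
  exact Fin.ext (by omega)

private theorem pp_mon (R : Type) [CommRing R] {d : ι → ℕ} (v : MVar n) (hv : v.2 ≠ 0)
    (hd : ∀ i, 1 ≤ d i) :
    mon (pp_e (n := n) R) (mex (ms1 (fun _ => 0) v : MIdx n d)) = 0 := by
  have h1 : mex (ms1 (fun _ => 0) v : MIdx n d) v ≠ 0 := by
    have h2 := dmon_ms1 (R := ℤ) hd (fun _ => 0) (fun _ => 1) v hv
    intro h3
    unfold dmon at h2
    rw [h3] at h2
    simp at h2
  unfold mon
  refine Finset.prod_eq_zero (Finset.mem_univ v) ?_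
  unfold pp_e
  rw [if_neg hv, zero_pow h1]

private theorem pp_dmon (R : Type) [CommRing R] {d : ι → ℕ} (v : MVar n) (hv : v.2 ≠ 0)
    (hd : ∀ i, 1 ≤ d i) :
    dmon (pp_e (n := n) R) v (mex (ms1 (fun _ => 0) v : MIdx n d)) = 1 := by
  rw [dmon_ms1 hd (fun _ => 0) _ v hv]
  have h0 : ∀ i, pp_e (n := n) R ⟨i, 0⟩ = 1 := fun i => by simp [pp_e]
  rw [h0, one_pow, one_mul]
  exact Finset.prod_eq_one fun i _ => by rw [h0, one_pow]

/-- the special system -/
private noncomputable def pp_A (R : Type) [CommRing R] (d : Fin r → ι → ℕ) {i0 : ι}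
    (hn0 : r ≤ n i0) (c : R) : PSys n d R :=
  open Classical in fun j t => if t = ms1 (fun _ => 0) ⟨i0, pp_v hn0 j⟩ then c else 0

private theorem pp_MF (R : Type) [CommRing R] {i0 : ι} (hn0 : r ≤ n i0) (c : R)
    (hd : ∀ j i, 1 ≤ d j i) (j : Fin r) : MF (pp_A R d hn0 c j) (pp_e R) = 0 := by
  classical
  unfold MF Fg
  rw [Finset.sum_eq_single (ms1 (fun _ => 0) ⟨i0, pp_v hn0 j⟩)]
  · rw [pp_mon R _ (pp_v_ne hn0 j) (hd j), mul_zero]
  · intro b _ hb
    simp [pp_A, hb]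
  · intro h
    exact absurd (Finset.mem_univ _) h

private theorem pp_MD (R : Type) [CommRing R] {i0 : ι} (hn0 : r ≤ n i0) (c : R)
    (hd : ∀ j i, 1 ≤ d j i) (j l : Fin r) :
    MD (pp_A R d hn0 c j) (pp_e R) ⟨i0, pp_v hn0 l⟩ = if j = l then c else 0 := by
  classical
  unfold MD Dg
  rw [Finset.sum_eq_single (ms1 (fun _ => 0) ⟨i0, pp_v hn0 j⟩)]
  · by_cases h : j = l
    · subst h
      rw [pp_dmon R _ (pp_v_ne hn0 j) (hd j), mul_one, if_pos rfl]
      simp [pp_A]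
    · rw [dmon_ms1_of_ne (fun _ => 0) (pp_e R) ⟨i0, pp_v hn0 l⟩ ⟨i0, pp_v hn0 j⟩
        (pp_v_ne hn0 l) (pp_v_ne hn0 j), mul_zero, if_neg h]
      intro h1
      simp only [Sigma.mk.injEq, heq_eq_eq, true_and] at h1
      exact h (pp_v_inj hn0 h1).symm
  · intro b _ hb
    simp [pp_A, hb]
  · intro h
    exact absurd (Finset.mem_univ _) h

private theorem pp_det (R : Type) [CommRing R] {i0 : ι} (hn0 : r ≤ n i0) (c : R)
    (hd : ∀ j i, 1 ≤ d j i) :
    (PJac (pp_A R d hn0 c) (pp_e R) (blk i0 (pp_v hn0))).det = c ^ r := by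
  have h : PJac (pp_A R d hn0 c) (pp_e R) (blk i0 (pp_v hn0)) =
      Matrix.diagonal fun _ : Fin r => c := by
    ext j l
    rw [Matrix.diagonal_apply]
    simp only [PJac, Matrix.of_apply]
    exact pp_MD R hn0 c hd j l
  rw [h, Matrix.det_diagonal, Finset.prod_const, Finset.card_univ, Fintype.card_fin]

theorem p_pos_soluble (hr : 1 ≤ r) (hd : ∀ j i, 1 ≤ d j i) (i0 : ι) (hn0 : r ≤ n i0)
    (hcls : PCLS n d i0) : ∃ c : ℝ, 0 < c ∧ ∀ᶠ H : ℕ in atTop,
    c * (2 * H + 1) ^ NP n d ≤ (Set.ncard {A : PSys n d ℤ | A ∈ pbox n d H ∧ PSoluble A} : ℝ) := by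
  classical
  obtain ⟨C, hC, hclass⟩ := hcls
  obtain ⟨w, hw⟩ : ∃ w : ℕ, w = max 2 ⌈4 * C⌉₊ := ⟨_, rfl⟩
  have hw2 : 2 ≤ w := by rw [hw]; exact le_max_left _ _
  have hwC : C / w ≤ 1 / 4 := by
    have h1 : 4 * C ≤ w := by
      rw [hw]
      refine (Nat.le_ceil _).trans ?_
      exact_mod_cast le_max_right _ _
    have h3 : (0 : ℝ) < w := by exact_mod_cast (by omega : 0 < w)
    rw [div_le_iff₀ h3]
    linarith
  obtain ⟨rho0, hrho0, hrho01, hclass⟩ := hclass w hw2 (1 / 2) (by norm_num) (by norm_num)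
  set rho : ℝ := min rho0 (1 / 2) with hrho
  have hr0 : 0 < rho := lt_min hrho0 (by norm_num)
  have hr1 : rho ≤ 1 / 2 := min_le_right _ _
  have hprim : 0 < primorial w := primorial_pos w
  set Ai : PSys n d ℤ := pp_A ℤ d hn0 1 with hAi
  set Ar : PSys n d ℝ := pp_A ℝ d hn0 (1 / 2) with hAr
  have hp1 : ∀ p : ℕ, p.Prime → ¬ (p : ℤ) ∣ 1 := by
    intro p hp h
    have h3 := Int.isUnit_iff_natAbs_eq.1 (isUnit_of_dvd_one h)
    rw [Int.natAbs_natCast] at h3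
    exact hp.one_lt.ne' h3
  have hGP : ∀ p : ℕ, p.Prime → p ≤ w → PGoodP i0 p 1 Ai := by
    intro p hp _
    refine ⟨pp_e ℤ, fun i => ⟨0, ?_⟩, fun j => ?_, pp_v hn0, ?_⟩
    · simpa [pp_e] using hp1 p hp
    · rw [hAi, pp_MF ℤ hn0 1 hd j]
      exact dvd_zero _
    · rw [hAi, pp_det ℤ hn0 1 hd, one_pow, pow_one]
      exact hp1 p hp
  have hA1 : ∀ j t, |Ar j t| ≤ 1 := by
    intro j t
    rw [hAr]
    unfold pp_A
    split_ifs
    · rw [abs_of_pos (by norm_num)]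
      norm_num
    · rw [abs_zero]
      norm_num
  have hA2 : ∀ j t, |Ar j t - Ar j t| ≤ rho := by
    intro j t
    rw [sub_self, abs_zero]
    exact hr0.le
  have hGR : PGoodR i0 rho0 (1 / 2) Ar := by
    refine ⟨pp_e ℝ, ⟨?_, fun i => ⟨0, by simp [pp_e]⟩⟩, fun j => ?_, pp_v hn0, ?_⟩
    · intro v
      unfold pp_e
      split_ifs <;> simp
    · rw [hAr, pp_MF ℝ hn0 _ hd j, abs_zero]
      exact hrho0.le
    · rw [hAr, pp_det ℝ hn0 _ hd, abs_of_pos (by positivity)]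
  have hN := tendsto_natCast_atTop_atTop.eventually
    (hclass rho hr0 (min_le_left _ _) 1 le_rfl Ai hGP Ar Ar hA1 hA2 hGR)
  -- the number of members of the class
  set E : ((x : Σ j : Fin r, MIdx n (d j)) → ℤ) ≃ PSys n d ℤ :=
    Equiv.piCurry (fun (j : Fin r) (_ : MIdx n (d j)) => ℤ) with hE
  have hEapp : ∀ (f : (x : Σ j : Fin r, MIdx n (d j)) → ℤ) (j : Fin r) (t : MIdx n (d j)),
      E f j t = f ⟨j, t⟩ := fun f j t => rfl
  have hcard := tendsto_natCast_atTop_atTop.eventually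
    (class_card (fun x : Σ j : Fin r, MIdx n (d j) => Ar x.1 x.2)
      (fun x : Σ j : Fin r, MIdx n (d j) => Ai x.1 x.2) (primorial w ^ (2 * 1)) (pow_pos hprim _)
      rho (1 / 2) hr0 (by norm_num))
  refine ⟨(1 / 4) * (2 * rho / (3 * (primorial w : ℝ) ^ (2 * 1))) ^ NP n d, by positivity, ?_⟩
  filter_upwards [hN, hcard, eventually_ge_atTop 1] with H h1 h3 h4
  have hH1 : (1 : ℝ) ≤ H := by exact_mod_cast h4
  obtain ⟨h5, _⟩ := h3
  have hQc : ((primorial w ^ (2 * 1) : ℕ) : ℝ) = (primorial w : ℝ) ^ (2 * 1) := by push_cast; ring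
  have hQz : ((primorial w ^ (2 * 1) : ℕ) : ℤ) = (primorial w : ℤ) ^ (2 * 1) := by push_cast; ring
  simp only [hQc, hQz] at h5
  rw [card_sigma_NP] at h5
  set X : ℝ := (2 * rho * H / (primorial w : ℝ) ^ (2 * 1)) ^ NP n d with hX
  have hX0 : 0 ≤ X := by positivity
  set Q : Set (PSys n d ℤ) := {A : PSys n d ℤ | (∀ j t, |(A j t : ℝ) - H * Ar j t| ≤ rho * H) ∧
      ∀ j t, ((primorial w : ℤ) ^ (2 * 1)) ∣ A j t - Ai j t} with hQ
  set Q' : Set ((x : Σ j : Fin r, MIdx n (d j)) → ℤ) :=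
    {A | (∀ x, |(A x : ℝ) - H * Ar x.1 x.2| ≤ rho * H) ∧
      ∀ x, ((primorial w : ℤ) ^ (2 * 1)) ∣ A x - Ai x.1 x.2} with hQ'
  have hQeq : Q = E '' Q' := by
    ext A
    rw [Set.mem_image]
    constructor
    · rintro ⟨hA, hA'⟩
      exact ⟨E.symm A, ⟨fun x => hA x.1 x.2, fun x => hA' x.1 x.2⟩, E.apply_symm_apply A⟩
    · rintro ⟨f, ⟨hf, hf'⟩, rfl⟩
      exact ⟨fun j t => hf ⟨j, t⟩, fun j t => hf' ⟨j, t⟩⟩
  have hQcard : Q.ncard = Q'.ncard := by
    rw [hQeq]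
    exact Set.ncard_image_of_injective _ E.injective
  have hQfin : Q.Finite := by
    rw [hQeq]
    exact (class_finite (fun x : Σ j : Fin r, MIdx n (d j) => Ar x.1 x.2) rho H _).image _
  have h5' : (1 - 1 / 2) * X ≤ (Q.ncard : ℝ) := by
    rw [hQcard]
    exact h5
  set N : Set (PSys n d ℤ) := {A : PSys n d ℤ | (∀ j t, |(A j t : ℝ) - H * Ar j t| ≤ rho * H) ∧
          (∀ j t, ((primorial w : ℤ) ^ (2 * 1)) ∣ A j t - Ai j t) ∧ ¬ PSoluble A} with hNdef
  set S : Set (PSys n d ℤ) := {A : PSys n d ℤ | A ∈ pbox n d H ∧ PSoluble A} with hS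
  have hsub : Q ⊆ N ∪ S := by
    rintro A ⟨hA, hA'⟩
    by_cases hsol : PSoluble A
    · right
      refine ⟨?_, hsol⟩
      intro j t
      have h5 : |(A j t : ℝ) - H * Ar j t| ≤ rho * H := hA j t
      have h6 : |(H : ℝ) * Ar j t| ≤ H / 2 := by
        rw [hAr]
        unfold pp_A
        split_ifs
        · rw [abs_of_nonneg (by positivity)]
          linarith
        · rw [mul_zero, abs_zero]
          positivity
      have h7 : |(A j t : ℝ)| ≤ H := by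
        have h8 : (A j t : ℝ) = ((A j t : ℝ) - H * Ar j t) + H * Ar j t := by ring
        rw [h8]
        refine (abs_add_le _ _).trans ?_
        nlinarith
      have h9 : ((|A j t| : ℤ) : ℝ) ≤ ((H : ℤ) : ℝ) := by
        rw [Int.cast_abs]
        exact_mod_cast h7
      exact_mod_cast h9
    · left
      exact ⟨hA, hA', hsol⟩
  have hSfin : S.Finite := pbox_finite H _
  have hNfin : N.Finite := hQfin.subset fun A hA => ⟨hA.1, hA.2.1⟩
  have hle : (Q.ncard : ℝ) ≤ (N.ncard : ℝ) + (S.ncard : ℝ) := by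
    have h5 := Set.ncard_le_ncard hsub (hNfin.union hSfin)
    have h6 := Set.ncard_union_le N S
    exact_mod_cast h5.trans h6
  have h1' : (N.ncard : ℝ) ≤ 1 / 4 * X :=
    h1.trans (mul_le_mul_of_nonneg_right hwC hX0)
  have hSX : 1 / 4 * X ≤ (S.ncard : ℝ) := by linarith
  refine le_trans ?_ hSX
  have h6 : (2 * (H : ℝ) + 1) ^ NP n d ≤ (3 * H) ^ NP n d :=
    pow_le_pow_left₀ (by positivity) (by linarith) _
  have h7 : (2 * rho / (3 * (primorial w : ℝ) ^ (2 * 1))) ^ NP n d * (3 * (H : ℝ)) ^ NP n d = X := by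
    rw [hX, ← mul_pow]
    congr 1
    field_simp
  calc (1 / 4) * (2 * rho / (3 * (primorial w : ℝ) ^ (2 * 1))) ^ NP n d *
        (2 * (H : ℝ) + 1) ^ NP n d
      ≤ (1 / 4) * (2 * rho / (3 * (primorial w : ℝ) ^ (2 * 1))) ^ NP n d * (3 * H) ^ NP n d :=
        mul_le_mul_of_nonneg_left h6 (by positivity)
    _ = 1 / 4 * ((2 * rho / (3 * (primorial w : ℝ) ^ (2 * 1))) ^ NP n d *
        (3 * (H : ℝ)) ^ NP n d) := by ring
    _ = 1 / 4 * X := by rw [h7]

end multi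

end CIPHP
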