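import Pool.Agent.Lib.MP_e426f4_ag.P.ClsOfBlock
import Pool.Agent.Lib.MP_e426f4_ag.P.Global
import Pool.Agent.Lib.MP_e426f4_ag.P.PosProp
import Pool.Agent.Lib.MP_e426f4_ag.P.FewSingular

/-! Module P-FIN: final statement.

assembly (done).
-/

namespace CIPHP

open Finset Filter Topology GenHP

section multi
variable {ι : Type} [Fintype ι] [DecidableEq ι] {n : ι → ℕ} {r : ℕ} {d : Fin r → ι → ℕ}

theorem final (hr : 2 ≤ r) (hd : ∀ j i, 1 ≤ d j i) (i0 : ι) (h2 : ∀ j, 2 ≤ d j i0)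
    (hs : ∑ j, d j i0 ≤ n i0) :
    (∃ c : ℝ, 0 < c ∧ ∀ᶠ H : ℕ in atTop, c * (2 * H + 1) ^ NP n d ≤
      (Set.ncard {A : PSys n d ℤ | A ∈ pbox n d H ∧ PSoluble A} : ℝ)) ∧
    (∀ eps : ℝ, 0 < eps → ∀ᶠ H : ℕ in atTop,
      (Set.ncard {A : PSys n d ℤ | A ∈ pbox n d H ∧ PELS A ∧ ¬ PSoluble A} : ℝ) ≤
        eps * (2 * H + 1) ^ NP n d) ∧
    (∀ eps : ℝ, 0 < eps → ∀ᶠ H : ℕ in atTop,
      (Set.ncard {A : PSys n d ℤ | A ∈ pbox n d H ∧ ¬ PSmooth A} : ℝ) ≤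
        eps * (2 * H + 1) ^ NP n d) := by
  have hrn : r + 2 ≤ n i0 := by
    have h1 : ∑ _j : Fin r, 2 ≤ ∑ j, d j i0 := Finset.sum_le_sum fun j _ => h2 j
    simp only [Finset.sum_const, Finset.card_univ, Fintype.card_fin, smul_eq_mul] at h1
    omega
  have hcls : PCLS n d i0 := pcls_of_block (by omega) i0 hrn h2 hs
  exact ⟨p_pos_soluble (by omega) hd i0 (by omega) hcls,
    fun eps he => p_exceptional_small (by omega) hd i0 (by omega) hcls eps he,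
    fun eps he => p_few_singular (by omega) hd eps he⟩

end multi

end CIPHP
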