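import Pool.Agent.Lib.MP_e426f4_ag.P.Hens
import Pool.Agent.Lib.MP_e426f4_ag.CI.ClassThm

/-! Module P-WC: the class theorem for one block with equations of different sizes. -/

namespace CIHP

open Finset Filter Topology GenHP

section
variable {n r : ℕ} {e : Fin r → ℕ}

private theorem wc_jac_smul {R : Type*} [CommRing R] (c : Fin r → R) (A : Sys n e R)
    (x : Fin (n + 1) → R) (J : Fin r → Fin (n + 1)) :
    (Jac (fun i t => c i * A i t) x J).det = (∏ i, c i) * (Jac A x J).det := by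
  rw [← Matrix.det_mul_column]
  congr 1
  ext i l
  exact D_smul (c i) (A i) x (J l)

private theorem wc_two_pow (p k M k' : ℕ) (hp : p.Prime) (hk' : k + M ≤ k') (D : ℤ)
    (hD : ¬ (p : ℤ) ^ k ∣ D) : ¬ (p : ℤ) ^ k' ∣ 2 ^ M * D := by
  intro h
  apply hD
  have hpp : Prime (p : ℤ) := Nat.prime_iff_prime_int.mp hp
  rcases eq_or_ne p 2 with rfl | hp2
  · have h1 : ((2 : ℕ) : ℤ) ^ (k + M) ∣ 2 ^ M * D := (pow_dvd_pow _ hk').trans h
    push_cast at h1 ⊢
    rw [add_comm, pow_add] at h1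
    exact Int.dvd_of_mul_dvd_mul_left (by positivity) h1
  · have h1 : (p : ℤ) ^ k ∣ 2 ^ M * D := (pow_dvd_pow _ (by omega)).trans h
    have h2 : IsCoprime ((p : ℤ) ^ k) ((2 : ℤ) ^ M) := by
      apply IsCoprime.pow
      have := (Nat.coprime_primes hp Nat.prime_two).mpr hp2
      exact_mod_cast Nat.isCoprime_iff_coprime.mpr this
    exact h2.dvd_of_dvd_mul_left h1

/-- local data for the finer classes -/
private theorem wc_good (w k : ℕ) (hk : 1 ≤ k) (m : Fin r → ℕ) (A0 A1 : Sys n e ℤ)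
    (hA1 : ∀ i t, (primorial w : ℤ) ^ (2 * k) ∣ A1 i t - A0 i t) (k' : ℕ)
    (hk' : k + ∑ i, m i ≤ k')
    (p : ℕ) (hp : p.Prime) (hpw : p ≤ w)
    (hloc : ∃ x : Fin (n + 1) → ℤ, (∃ i, ¬ (p : ℤ) ∣ x i) ∧
        (∀ i, ((p : ℤ) ^ (2 * k)) ∣ F (A0 i) x) ∧ ∃ J, ¬ ((p : ℤ) ^ k ∣ (Jac A0 x J).det)) :
    ∃ x : Fin (n + 1) → ℤ, (∃ i, ¬ (p : ℤ) ∣ x i) ∧
        (∀ i, ((p : ℤ) ^ (2 * k')) ∣ F (fun t => (2 : ℤ) ^ m i * A1 i t) x) ∧
        ∃ J, ¬ ((p : ℤ) ^ k' ∣ (Jac (fun i t => (2 : ℤ) ^ m i * A1 i t) x J).det) := by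
  obtain ⟨x, ⟨i1, hi1⟩, hFx, J, hJ⟩ := hloc
  have hpW : (p : ℤ) ∣ (primorial w : ℤ) := by
    have : p ∣ primorial w := by
      unfold primorial
      exact Finset.dvd_prod_of_mem _ (Finset.mem_filter.mpr ⟨Finset.mem_range.mpr (by omega), hp⟩)
    exact_mod_cast this
  have hcong : ∀ i t, (p : ℤ) ^ (2 * k) ∣ A1 i t - A0 i t := fun i t =>
    (pow_dvd_pow_of_dvd hpW _).trans (hA1 i t)
  have hF1 : ∀ i, (p : ℤ) ^ (2 * k) ∣ F (A1 i) x := by
    intro i
    have h1 := F_congr_mod ((p : ℤ) ^ (2 * k)) (A1 i) (A0 i) x x (hcong i) (fun j => by simp)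
    have h2 := dvd_add h1 (hFx i)
    simpa using h2
  have hD1 : ¬ (p : ℤ) ^ k ∣ (Jac A1 x J).det := by
    intro h
    apply hJ
    have h1 : (p : ℤ) ^ (2 * k) ∣ (Jac A1 x J).det - (Jac A0 x J).det :=
      CIPHP.det_congr_mod _ _ _ fun i l =>
        D_congr_mod ((p : ℤ) ^ (2 * k)) (A1 i) (A0 i) x x (J l) (hcong i) (fun j => by simp)
    have h2 := dvd_sub h ((pow_dvd_pow (p : ℤ) (by omega : k ≤ 2 * k)).trans h1)
    simpa using h2
  obtain ⟨t, -, ht1, ht2⟩ := CIPHP.hens_sys (V := Fin (n + 1)) (I := fun i => Idx n (e i))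
    (fun i t => t.1) A1 p (k - 1) (2 * k) hp (by omega) x J hF1
    (by
      rw [show k - 1 + 1 = k by omega]
      exact hD1) (2 * k' - 2 * k)
  rw [show 2 * k + (2 * k' - 2 * k) = 2 * k' by omega,] at ht2
  have ht3 : ∀ v, (p : ℤ) ^ k ∣ t v := fun v => (pow_dvd_pow _ (by omega)).trans (ht1 v)
  refine ⟨fun v => x v + t v, ⟨i1, fun h => hi1 ?_⟩, fun i => ?_, J, ?_⟩
  · have h1 : (p : ℤ) ∣ t i1 := (dvd_pow_self (p : ℤ) (by omega)).trans (ht3 i1)
    have h2 := dvd_sub h h1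
    simpa using h2
  · rw [F_smul]
    exact (ht2 i).mul_left _
  · rw [wc_jac_smul (fun i => (2 : ℤ) ^ m i), Finset.prod_pow_eq_pow_sum]
    refine wc_two_pow p k _ k' hp hk' _ fun h => hD1 ?_
    have h1 : (p : ℤ) ^ k ∣ (Jac A1 (fun v => x v + t v) J).det - (Jac A1 x J).det :=
      CIPHP.det_congr_mod _ _ _ fun i l =>
        D_congr_mod ((p : ℤ) ^ k) (A1 i) (A1 i) _ x (J l) (fun j => by simp)
          (fun v => by simpa using ht3 v)
    have h2 := dvd_sub h h1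
    simpa using h2

end

theorem wclass_thm (n : ℕ) {r : ℕ} (e : Fin r → ℕ) (hr : 1 ≤ r) (hn : r + 2 ≤ n)
    (he : ∀ i, 2 ≤ e i) (hs : ∑ i, e i ≤ n) (w : ℕ) (hw : 2 ≤ w)
    (bet : ℝ) (hb : 0 < bet) (hb1 : bet ≤ 1) :
    ∃ rho0 : ℝ, 0 < rho0 ∧ rho0 ≤ 1 ∧ ∀ rho : ℝ, 0 < rho → rho ≤ rho0 → ∀ k : ℕ, 1 ≤ k →
      ∀ A0 : Sys n e ℤ,
      (∀ p : ℕ, p.Prime → p ≤ w → ∃ x : Fin (n + 1) → ℤ, (∃ i, ¬ (p : ℤ) ∣ x i) ∧
        (∀ i, ((p : ℤ) ^ (2 * k)) ∣ F (A0 i) x) ∧ ∃ J, ¬ ((p : ℤ) ^ k ∣ (Jac A0 x J).det)) →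
      ∀ (AC Ainf : Sys n e ℝ) (xi : Fin (n + 1) → ℝ) (J : Fin r → Fin (n + 1)),
      (∀ i m, |Ainf i m| ≤ 1) → (∀ i m, |AC i m - Ainf i m| ≤ rho) → (∀ i, |xi i| ≤ 1) →
      (∃ i, |xi i| = 1) → (∀ i, |F (Ainf i) xi| ≤ rho0) → bet ≤ |(Jac Ainf xi J).det| →
      ∀ lam : Fin r → ℝ, (∀ i, 0 < lam i) →
      ∀ᶠ H : ℝ in atTop,
        (Set.ncard {A : Sys n e ℤ | (∀ i m, |(A i m : ℝ) - lam i * H * AC i m| ≤
            rho * (lam i * H)) ∧
          (∀ i m, ((primorial w : ℤ) ^ (2 * k)) ∣ A i m - A0 i m) ∧ ¬ Soluble A} : ℝ) ≤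
          30 * 2 ^ NS n e / w *
            ∏ i, (2 * rho * (lam i * H) / (primorial w : ℝ) ^ (2 * k)) ^ NN n (e i) := by
  classical
  have hw0 : (0 : ℝ) < w := by
    have : 0 < w := by omega
    exact_mod_cast this
  obtain ⟨rho0, hrho0, hrho01, hcl⟩ := class_thm n e hr hn he hs w hw (bet / 2 ^ r)
    (by positivity) (by
      rw [div_le_one (by positivity)]
      exact hb1.trans (one_le_pow₀ (by norm_num)))
  refine ⟨rho0, hrho0, hrho01, fun rho hrho hrho' k hk A0 hloc AC Ainf xi J hA hAC hxi hxi1 hF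
    hD lam hlam => ?_⟩
  -- the powers of two
  set L : ℝ := ∑ i, lam i with hL
  have hLle : ∀ i, lam i ≤ L := fun i =>
    Finset.single_le_sum (f := lam) (fun j _ => (hlam j).le) (Finset.mem_univ i)
  have hL0 : 0 < L := lt_of_lt_of_le (hlam ⟨0, hr⟩) (hLle _)
  have hmex : ∀ i, ∃ m : ℕ, (2 : ℝ) ^ m ≤ L / lam i ∧ L / lam i < 2 ^ (m + 1) := fun i =>
    exists_nat_pow_near ((one_le_div (hlam i)).mpr (hLle i)) (by norm_num)
  choose m hm1 hm2 using hmex
  set mu : Fin r → ℝ := fun i => 2 ^ m i * lam i / L with hmu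
  have hmu0 : ∀ i, 0 < mu i := fun i => by
    have := hlam i
    positivity
  have hmu1 : ∀ i, mu i ≤ 1 := by
    intro i
    have h1 := hm1 i
    rw [le_div_iff₀ (hlam i)] at h1
    show 2 ^ m i * lam i / L ≤ 1
    rw [div_le_one hL0]
    exact h1
  have hmu2 : ∀ i, 1 / 2 ≤ mu i := by
    intro i
    have h1 := hm2 i
    rw [div_lt_iff₀ (hlam i), pow_succ] at h1
    show 1 / 2 ≤ 2 ^ m i * lam i / L
    rw [le_div_iff₀ hL0]
    linarith
  set M : ℕ := ∑ i, m i with hM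
  have hmM : ∀ i, m i ≤ M := fun i =>
    Finset.single_le_sum (f := m) (fun _ _ => Nat.zero_le _) (Finset.mem_univ i)
  set k' : ℕ := k + M with hk'
  set W : ℕ := primorial w with hW
  have hWp : 0 < W := primorial_pos w
  have h2W : 2 ∣ W := by
    rw [hW]
    unfold primorial
    exact Finset.dvd_prod_of_mem _
      (Finset.mem_filter.mpr ⟨Finset.mem_range.mpr (by omega), Nat.prime_two⟩)
  have hqex : ∀ i, ∃ q : ℕ, W ^ (2 * M) = 2 ^ m i * q := by
    intro i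
    have h1 : 2 ^ m i ∣ W ^ (2 * M) :=
      (pow_dvd_pow 2 (by have := hmM i; omega : m i ≤ 2 * M)).trans (pow_dvd_pow_of_dvd h2W _)
    exact h1
  choose q hq using hqex
  have hq0 : ∀ i, 0 < q i := by
    intro i
    rcases Nat.eq_zero_or_pos (q i) with h | h
    · exfalso
      have h1 := hq i
      rw [h, mul_zero] at h1
      exact (pow_pos hWp (2 * M)).ne' h1
    · exact h
  -- the classes
  set Bt := (i : Fin r) → Idx n (e i) → Fin (q i) with hBt
  set A1 : Bt → Sys n e ℤ := fun b i t => A0 i t + (W : ℤ) ^ (2 * k) * (b i t : ℕ) with hA1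
  set S : Bt → ℝ → Set (Sys n e ℤ) := fun b H =>
    {A : Sys n e ℤ | (∀ i t, |(A i t : ℝ) - H * (mu i * AC i t)| ≤ rho * H) ∧
      (∀ i t, ((W : ℤ) ^ (2 * k')) ∣ A i t - 2 ^ m i * A1 b i t) ∧ ¬ Soluble A} with hS
  have hclass : ∀ b : Bt, ∀ᶠ H : ℝ in atTop, ((S b H).ncard : ℝ) ≤
      30 / w * (2 * rho * H / (W : ℝ) ^ (2 * k')) ^ NS n e := by
    intro b
    refine hcl rho hrho hrho' k' (by omega) (fun i t => 2 ^ m i * A1 b i t) ?_
      (fun i t => mu i * AC i t) (fun i t => mu i * Ainf i t) xi J ?_ ?_ hxi hxi1 ?_ ?_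
    · intro p hp hpw
      refine wc_good w k hk m A0 (A1 b) (fun i t => ?_) k' (by omega) p hp hpw (hloc p hp hpw)
      rw [hA1]
      simp only [add_sub_cancel_left]
      exact dvd_mul_right _ _
    · intro i t
      rw [abs_mul, abs_of_pos (hmu0 i)]
      exact mul_le_one₀ (hmu1 i) (abs_nonneg _) (hA i t)
    · intro i t
      rw [← mul_sub, abs_mul, abs_of_pos (hmu0 i)]
      calc mu i * |AC i t - Ainf i t| ≤ 1 * rho :=
            mul_le_mul (hmu1 i) (hAC i t) (abs_nonneg _) zero_le_one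
        _ = rho := one_mul _
    · intro i
      rw [F_smul, abs_mul, abs_of_pos (hmu0 i)]
      calc mu i * |F (Ainf i) xi| ≤ 1 * rho0 :=
            mul_le_mul (hmu1 i) (hF i) (abs_nonneg _) zero_le_one
        _ = rho0 := one_mul _
    · rw [wc_jac_smul mu, abs_mul, abs_of_pos (Finset.prod_pos fun i _ => hmu0 i)]
      have h1 : (1 / 2 : ℝ) ^ r ≤ ∏ i, mu i := by
        calc (1 / 2 : ℝ) ^ r = ∏ _i : Fin r, (1 / 2 : ℝ) := by
              rw [Finset.prod_const, Finset.card_univ, Fintype.card_fin]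
          _ ≤ _ := Finset.prod_le_prod (fun _ _ => by norm_num) fun i _ => hmu2 i
      calc bet / 2 ^ r = (1 / 2 : ℝ) ^ r * bet := by
            rw [one_div, inv_pow]
            ring
        _ ≤ _ := mul_le_mul h1 hD hb.le (Finset.prod_nonneg fun i _ => (hmu0 i).le)
  have hscale : Tendsto (fun H : ℝ => L * H) atTop atTop := tendsto_id.const_mul_atTop hL0
  filter_upwards [hscale.eventually (Filter.eventually_all.mpr hclass),
    eventually_gt_atTop 0] with H hH hH0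
  set Φ : Sys n e ℤ → Sys n e ℤ := fun A i t => 2 ^ m i * A i t with hΦ
  have hΦinj : Function.Injective Φ := by
    intro A A' h
    funext i t
    have h1 := congrFun (congrFun h i) t
    exact mul_left_cancel₀ (pow_ne_zero _ (by norm_num)) h1
  have hSfin : ∀ b, (S b (L * H)).Finite := by
    intro b
    obtain ⟨C, hC⟩ : ∃ C : ℝ, ∀ i t, |(L * H) * (mu i * AC i t)| ≤ C := by
      refine ⟨∑ i, ∑ t, |(L * H) * (mu i * AC i t)|, fun i t => ?_⟩
      refine le_trans ?_ (Finset.single_le_sum (f := fun i => ∑ t, |(L * H) * (mu i * AC i t)|)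
        (fun _ _ => Finset.sum_nonneg fun _ _ => abs_nonneg _) (Finset.mem_univ i))
      exact Finset.single_le_sum (f := fun t => |(L * H) * (mu i * AC i t)|)
        (fun _ _ => abs_nonneg _) (Finset.mem_univ t)
    refine sys_finite_of_abs_le _ (C + rho * (L * H)) ?_
    intro A hA i t
    have h1 := hA.1 i t
    calc |(A i t : ℝ)| = |(L * H) * (mu i * AC i t) +
          ((A i t : ℝ) - (L * H) * (mu i * AC i t))| := by ring_nf
      _ ≤ |(L * H) * (mu i * AC i t)| + |(A i t : ℝ) - (L * H) * (mu i * AC i t)| :=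
          abs_add_le _ _
      _ ≤ C + rho * (L * H) := add_le_add (hC i t) h1
  set X : Set (Sys n e ℤ) := {A : Sys n e ℤ | (∀ i m, |(A i m : ℝ) - lam i * H * AC i m| ≤
            rho * (lam i * H)) ∧
          (∀ i m, ((W : ℤ) ^ (2 * k)) ∣ A i m - A0 i m) ∧ ¬ Soluble A} with hX
  have hsub : Φ '' X ⊆ ⋃ b, S b (L * H) := by
    rintro _ ⟨A, ⟨h1, h2, h3⟩, rfl⟩
    choose u hu using h2
    have hqz : ∀ i, (0 : ℤ) < q i := fun i => by exact_mod_cast hq0 i
    set b : Bt := fun i t => ⟨(u i t % q i).toNat, by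
      have h4 := Int.emod_nonneg (u i t) (hqz i).ne'
      have h5 := Int.emod_lt_of_pos (u i t) (hqz i)
      omega⟩ with hb'
    have hbv : ∀ i t, (((b i t : Fin (q i)) : ℕ) : ℤ) = u i t % q i := by
      intro i t
      show (((u i t % q i).toNat : ℕ) : ℤ) = _
      exact Int.toNat_of_nonneg (Int.emod_nonneg (u i t) (hqz i).ne')
    refine Set.mem_iUnion.mpr ⟨b, ?_, ?_, ?_⟩
    · intro i t
      have h4 : ((Φ A i t : ℤ) : ℝ) - L * H * (mu i * AC i t) =
          2 ^ m i * ((A i t : ℝ) - lam i * H * AC i t) := by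
        have h5 : L * mu i = 2 ^ m i * lam i := by
          show L * (2 ^ m i * lam i / L) = _
          field_simp
        have h6 : L * H * (mu i * AC i t) = (L * mu i) * H * AC i t := by ring
        rw [h6, h5]
        show (((2 ^ m i * A i t : ℤ)) : ℝ) - _ = _
        push_cast
        ring
      rw [h4, abs_mul, abs_of_pos (by positivity : (0 : ℝ) < 2 ^ m i)]
      have h5 : (2 : ℝ) ^ m i * lam i ≤ L := by
        have := hm1 i
        rwa [le_div_iff₀ (hlam i)] at this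
      calc 2 ^ m i * |(A i t : ℝ) - lam i * H * AC i t| ≤ 2 ^ m i * (rho * (lam i * H)) :=
            mul_le_mul_of_nonneg_left (h1 i t) (by positivity)
        _ = rho * H * (2 ^ m i * lam i) := by ring
        _ ≤ rho * H * L := mul_le_mul_of_nonneg_left h5 (by positivity)
        _ = rho * (L * H) := by ring
    · intro i t
      have h4 : Φ A i t - 2 ^ m i * A1 b i t =
          2 ^ m i * ((W : ℤ) ^ (2 * k) * (q i * (u i t / q i))) := by
        show 2 ^ m i * A i t - 2 ^ m i * (A0 i t + (W : ℤ) ^ (2 * k) * ((b i t : Fin (q i)) : ℕ)) = _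
        rw [hbv, ← mul_sub]
        congr 1
        have h5 := Int.emod_add_mul_ediv (u i t) (q i)
        linear_combination hu i t - (W : ℤ) ^ (2 * k) * h5
      rw [h4]
      have h5 : (W : ℤ) ^ (2 * k') = (W : ℤ) ^ (2 * k) * (2 ^ m i * q i) := by
        have h6 : (W : ℤ) ^ (2 * M) = 2 ^ m i * q i := by exact_mod_cast hq i
        rw [← h6, ← pow_add, hk']
        congr 1
        ring
      rw [h5]
      exact ⟨u i t / q i, by ring⟩
    · rintro ⟨x, hx, hFx⟩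
      refine h3 ⟨x, hx, fun i => ?_⟩
      have h4 := hFx i
      have h5 : (fun t => ((Φ A i t : ℤ) : ℚ)) = fun t => (2 : ℚ) ^ m i * (A i t : ℚ) := by
        funext t
        show (((2 ^ m i * A i t : ℤ)) : ℚ) = _
        push_cast
        ring
      rw [h5, F_smul] at h4
      exact (mul_eq_zero.mp h4).resolve_left (pow_ne_zero _ (by norm_num))
  have hcount : (X.ncard : ℝ) ≤ ∑ b : Bt, ((S b (L * H)).ncard : ℝ) := by
    have h1 : X.ncard ≤ ∑ b : Bt, (S b (L * H)).ncard := by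
      rw [← Set.ncard_image_of_injective X hΦinj]
      refine (Set.ncard_le_ncard hsub (Set.finite_iUnion hSfin)).trans ?_
      exact Set.ncard_iUnion_le_of_fintype _
    exact_mod_cast h1
  have hBcard : (Fintype.card Bt : ℝ) = ∏ i, (q i : ℝ) ^ NN n (e i) := by
    have h1 : Fintype.card Bt = ∏ i, (q i) ^ NN n (e i) := by
      show Fintype.card ((i : Fin r) → Idx n (e i) → Fin (q i)) = _
      rw [Fintype.card_pi]
      refine Finset.prod_congr rfl fun i _ => ?_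
      rw [Fintype.card_fun, Fintype.card_fin]
      rfl
    rw [h1]
    push_cast
    rfl
  have hWr : (0 : ℝ) < W := by exact_mod_cast hWp
  refine (hcount.trans (Finset.sum_le_sum fun b _ => hH b)).trans ?_
  rw [Finset.sum_const, Finset.card_univ, nsmul_eq_mul, hBcard]
  have e1 : (2 * rho * (L * H) / (W : ℝ) ^ (2 * k')) ^ NS n e =
      ∏ i, (2 * rho * (L * H) / (W : ℝ) ^ (2 * k')) ^ NN n (e i) := by
    rw [Finset.prod_pow_eq_pow_sum]
    rfl
  have e2 : (2 : ℝ) ^ NS n e = ∏ i, (2 : ℝ) ^ NN n (e i) := by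
    rw [Finset.prod_pow_eq_pow_sum]
    rfl
  rw [e1]
  have e3 : (∏ i, (q i : ℝ) ^ NN n (e i)) *
      (30 / w * ∏ i, (2 * rho * (L * H) / (W : ℝ) ^ (2 * k')) ^ NN n (e i)) =
      30 / w * ∏ i, (q i * (2 * rho * (L * H) / (W : ℝ) ^ (2 * k'))) ^ NN n (e i) := by
    simp only [mul_pow]
    rw [Finset.prod_mul_distrib]
    ring
  have e4 : 30 * 2 ^ NS n e / (w : ℝ) *
            ∏ i, (2 * rho * (lam i * H) / (W : ℝ) ^ (2 * k)) ^ NN n (e i) =
      30 / w * ∏ i, (2 * (2 * rho * (lam i * H) / (W : ℝ) ^ (2 * k))) ^ NN n (e i) := by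
    simp only [mul_pow (2 : ℝ)]
    rw [e2, Finset.prod_mul_distrib]
    ring
  rw [e3, e4]
  refine mul_le_mul_of_nonneg_left ?_ (by positivity)
  refine Finset.prod_le_prod (fun i _ => by positivity) fun i _ => ?_
  have hli := hlam i
  refine pow_le_pow_left₀ (by positivity) ?_ _
  have h5 : (W : ℝ) ^ (2 * k') = (W : ℝ) ^ (2 * k) * (2 ^ m i * q i) := by
    have h6 : (W : ℝ) ^ (2 * M) = 2 ^ m i * q i := by exact_mod_cast hq i
    rw [← h6, ← pow_add, hk']
    congr 1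
    ring
  have hqr : (0 : ℝ) < q i := by exact_mod_cast hq0 i
  have h6 : (q i : ℝ) * (2 * rho * (L * H) / (W : ℝ) ^ (2 * k')) =
      (L / 2 ^ m i) * (2 * rho * H / (W : ℝ) ^ (2 * k)) := by
    rw [h5]
    field_simp
  have h7 : 2 * (2 * rho * (lam i * H) / (W : ℝ) ^ (2 * k)) =
      (2 * lam i) * (2 * rho * H / (W : ℝ) ^ (2 * k)) := by ring
  rw [h6, h7]
  refine mul_le_mul_of_nonneg_right ?_ (by positivity)
  have h8 := hm2 i
  rw [div_lt_iff₀ hli, pow_succ] at h8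
  rw [div_le_iff₀ (by positivity)]
  linarith

end CIHP
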